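import Mathlib
import Pool.Agent.P.MP_c862d8_co.LatDefs
import Pool.Agent.K.MP_c862d8_co.C0

-- part Pool.Agent.P.MP_c862d8_co.LatCore
section

/-! Cyclic quotients of `ℤ^(k+2)` of any prescribed order `n` whose kernel is close to a multiple
of a given diagonal lattice. -/

namespace Pool.Agent.P.MP_c862d8_co

open Finset

/-- mixed radix weights -/
def radix (d : ℕ → ℕ) (τ i : ℕ) : ℕ := ∏ j ∈ range i, (d j * τ)

lemma radix_succ (d : ℕ → ℕ) (τ i : ℕ) : radix d τ (i + 1) = radix d τ i * (d i * τ) :=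
  prod_range_succ _ _

lemma radix_pos {d : ℕ → ℕ} (hd : ∀ i, 0 < d i) {τ : ℕ} (hτ : 0 < τ) (i : ℕ) : 0 < radix d τ i :=
  prod_pos fun j _ => Nat.mul_pos (hd j) hτ

/-- greedy expansion with half steps -/
lemma digits {d : ℕ → ℕ} (hd : ∀ i, 0 < d i) {τ x e S : ℕ} (hτ : 0 < τ) (hx : 0 < x) (he : 0 < e)
    (h1 : τ ≤ x * x) (h2 : x ≤ S) (i : ℕ) (h3 : ∀ j < i, e * d j * x ≤ S) (R : ℕ)
    (hR : R ≤ S * radix d τ i) :
    ∃ u c : ℕ → ℕ, (∀ j, u j ≤ S) ∧ (∀ j, c j ≤ S) ∧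
      R = ∑ j ∈ range (i + 1), u j * radix d τ j +
        ∑ j ∈ range i, c j * (e * d j * x * radix d τ j) := by
  induction i generalizing R with
  | zero =>
    refine ⟨fun _ => R, fun _ => 0, fun _ => by simpa [radix] using hR, fun _ => Nat.zero_le _, ?_⟩
    simp [radix]
  | succ i ih =>
    have p1 := radix_pos hd hτ (i + 1)
    have p2 := radix_pos hd hτ i
    have p3 : 0 < e * d i * x * radix d τ i := by have := hd i; positivity
    obtain ⟨u, c, g1, g2, g3⟩ := ih (fun j hj => h3 j (by omega))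
      (R % radix d τ (i + 1) % (e * d i * x * radix d τ i))
      ((Nat.mod_lt _ p3).le.trans (Nat.mul_le_mul_right _ (h3 i (by omega))))
    refine ⟨fun j => if j = i + 1 then R / radix d τ (i + 1) else u j,
      fun j => if j = i then R % radix d τ (i + 1) / (e * d i * x * radix d τ i) else c j,
      fun j => ?_, fun j => ?_, ?_⟩
    · beta_reduce
      split_ifs
      · exact Nat.div_le_of_le_mul (by rw [mul_comm]; exact hR)
      · exact g1 j
    · beta_reduce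
      split_ifs
      · refine Nat.div_le_of_le_mul ((Nat.mod_lt _ p1).le.trans ?_)
        rw [radix_succ]
        calc radix d τ i * (d i * τ) ≤ radix d τ i * (d i * (x * x)) := by gcongr
          _ = 1 * d i * x * radix d τ i * x := by ring
          _ ≤ e * d i * x * radix d τ i * S := by gcongr; omega
      · exact g2 j
    · beta_reduce
      have b1 : ∑ j ∈ range (i + 1), (if j = i + 1 then R / radix d τ (i + 1) else u j) *
          radix d τ j = ∑ j ∈ range (i + 1), u j * radix d τ j :=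
        sum_congr rfl fun j hj => by rw [if_neg (by have := mem_range.1 hj; omega)]
      have b2 : ∑ j ∈ range i, (if j = i then R % radix d τ (i + 1) / (e * d i * x * radix d τ i)
          else c j) * (e * d j * x * radix d τ j) =
          ∑ j ∈ range i, c j * (e * d j * x * radix d τ j) :=
        sum_congr rfl fun j hj => by rw [if_neg (by have := mem_range.1 hj; omega)]
      rw [sum_range_succ, b1, sum_range_succ (n := i) (f := fun j => (if j = i then _ else c j) * _),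
        b2, if_pos rfl, if_pos rfl]
      have a1 := Nat.div_add_mod R (radix d τ (i + 1))
      have a2 := Nat.div_add_mod (R % radix d τ (i + 1)) (e * d i * x * radix d τ i)
      rw [mul_comm] at a1 a2
      omega

lemma chain (d : ℕ → ℕ) (τ k : ℕ) (w : ℕ → ℤ)
    (h : ∑ i ∈ range (k + 1), (radix d τ i : ℤ) * w i = 0) :
    ∃ y : ℕ → ℤ, y 0 = 0 ∧ (∀ i < k, w i = d i * τ * y (i + 1) - y i) ∧ w k = - y k := by
  induction k generalizing w with
  | zero => exact ⟨fun _ => 0, rfl, by simp, by simpa [radix] using h⟩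
  | succ k ih =>
    obtain ⟨y, y0, y1, y2⟩ := ih (fun i => if i = k then w k + d k * τ * w (k + 1) else w i) (by
      rw [sum_range_succ, sum_range_succ, radix_succ] at h
      rw [sum_range_succ, if_pos rfl,
        sum_congr rfl fun j hj => by rw [if_neg (by have := mem_range.1 hj; omega)]]
      push_cast at h
      linear_combination h)
    refine ⟨fun i => if i = k + 1 then - w (k + 1) else y i, by simpa using y0, fun i hi => ?_,
      by simp⟩
    rcases (Nat.lt_succ_iff.1 hi).eq_or_lt with rfl | hi'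
    · simp only [if_true] at y2
      simp only [if_true, if_neg (show i ≠ i + 1 by omega)]
      linear_combination y2
    · have := y1 i hi'
      simp only [if_neg hi'.ne] at this
      simp only [if_neg (show i + 1 ≠ k + 1 by omega), if_neg (show i ≠ k + 1 by omega)]
      exact this

/-- the top level: `n` lies just above `F x` for some `x` of order `√τ` -/
lemma top_level (k Δ e β n : ℕ) (hΔ : 0 < Δ) (he : e ≤ Δ) (hβ : β ≤ 1) (hn : 0 < n) :
    ∃ τ s x : ℕ, 0 < τ ∧ s * s ≤ τ ∧ τ ≤ x * x ∧ 0 < x ∧ x ≤ (2 * k + 6) * (s + 1) ∧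
      n ≤ Δ * τ ^ (k + 2) ∧
      (Δ : ℤ) * τ ^ k * (τ ^ 2 - x ^ 2) + e * β * (τ + x) ≤ n ∧
      (n : ℤ) ≤ Δ * τ ^ k * (τ ^ 2 - x ^ 2) + e * β * (τ + x) + 2 * x * (Δ * τ ^ k) := by
  have ex : ∃ t : ℕ, n ≤ Δ * t ^ (k + 2) :=
    ⟨n, (Nat.le_self_pow (by omega) n).trans (Nat.le_mul_of_pos_left _ hΔ)⟩
  have f1 := Nat.find_spec ex
  obtain ⟨ρ, hρ⟩ : ∃ ρ, Nat.find ex = ρ + 1 := Nat.exists_eq_succ_of_ne_zero fun h0 => by
    rw [h0] at f1; simp at f1; omega
  have f2 : Δ * ρ ^ (k + 2) < n := not_le.1 (Nat.find_min ex (by omega))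
  rw [hρ] at f1
  obtain ⟨τ, hτ⟩ : ∃ τ, τ = ρ + 2 := ⟨_, rfl⟩
  obtain ⟨s, s1, s2⟩ : ∃ s, s * s ≤ τ ∧ τ < (s + 1) * (s + 1) :=
    ⟨τ.sqrt, Nat.sqrt_le τ, Nat.lt_succ_sqrt τ⟩
  let F : ℕ → ℤ := fun x => (Δ : ℤ) * τ ^ k * (τ ^ 2 - x ^ 2) + e * β * (τ + x)
  have P0 : (0 : ℤ) < Δ * τ ^ k := by have : 0 < τ := by omega
                                      positivity
  have F0 : (n : ℤ) < F s := by
    have a1 : (n : ℤ) ≤ Δ * (ρ + 1) ^ (k + 2) := by exact_mod_cast f1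
    have a2 : ((ρ : ℤ) + 1) ^ k ≤ τ ^ k := by
      rw [hτ]; push_cast; gcongr; omega
    have a3 : ((ρ : ℤ) + 1) ^ 2 < τ ^ 2 - s ^ 2 := by
      have : (s : ℤ) * s ≤ τ := by exact_mod_cast s1
      rw [hτ] at this ⊢; push_cast at this ⊢; nlinarith
    have a4 : (Δ : ℤ) * (ρ + 1) ^ (k + 2) ≤ Δ * τ ^ k * (ρ + 1) ^ 2 := by
      rw [pow_add, ← mul_assoc]; gcongr
    have a5 := mul_lt_mul_of_pos_left a3 P0
    have a6 : (0 : ℤ) ≤ e * β * (τ + s) := by positivity
    simp only [F]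
    linarith
  have F1 : F ((2 * k + 6) * (s + 1)) ≤ n := by
    obtain ⟨x, hx⟩ : ∃ x : ℕ, x = (2 * k + 6) * (s + 1) := ⟨_, rfl⟩
    rw [← hx]
    have a1 : (Δ : ℤ) * ρ ^ (k + 2) ≤ n := by exact_mod_cast f2.le
    have a2 : (τ : ℤ) ^ (k + 2) - (k + 2) * τ ^ (k + 1) * 2 ≤ ρ ^ (k + 2) := by
      have := pow_add_mul_le_add_pow (a := (τ : ℤ)) (b := -2) (by positivity) (by omega) (k + 2)
      rw [show (τ : ℤ) + -2 = ρ by omega, show k + 2 - 1 = k + 1 from rfl] at this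
      push_cast at this
      linarith
    have a3 : (e : ℤ) * β * (τ + x) ≤ Δ * τ ^ k * (τ + x) := by
      have b1 : (e : ℤ) * β ≤ Δ * 1 := by gcongr; exact_mod_cast ‹_›
      have b2 : (1 : ℤ) ≤ τ ^ k := one_le_pow₀ (by omega)
      have b3 : (Δ : ℤ) * 1 ≤ Δ * τ ^ k := by gcongr
      gcongr
      linarith
    have a4 : (2 * k + 5) * (τ : ℤ) + x ≤ x ^ 2 := by
      have b1 : (τ : ℤ) ≤ (s + 1) * (s + 1) := by exact_mod_cast s2.le
      have b2 : (x : ℤ) = (2 * k + 6) * (s + 1) := by exact_mod_cast hx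
      have b3 : (s : ℤ) + 1 ≤ x - 1 := by nlinarith
      have b4 : (x : ℤ) * (s + 1) ≤ x * (x - 1) := by gcongr
      nlinarith
    have a5 := mul_le_mul_of_nonneg_left a4 P0.le
    have a6 := mul_le_mul_of_nonneg_left a2 (show (0 : ℤ) ≤ Δ by positivity)
    simp only [F]
    rw [pow_succ, pow_succ] at a6
    nlinarith
  have ex2 : ∃ y : ℕ, F (s + y) ≤ n := ⟨(2 * k + 6) * (s + 1) - s, by
    rw [Nat.add_sub_cancel' (by nlinarith)]; exact F1⟩
  have g1 := Nat.find_spec ex2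
  have g2 : Nat.find ex2 ≤ (2 * k + 6) * (s + 1) - s := Nat.find_le (by
    rw [Nat.add_sub_cancel' (by nlinarith)]; exact F1)
  obtain ⟨y, hy⟩ : ∃ y, Nat.find ex2 = y + 1 := Nat.exists_eq_succ_of_ne_zero fun h0 => by
    rw [h0] at g1; exact absurd g1 (not_le.2 F0)
  have g3 : (n : ℤ) < F (s + y) := not_le.1 (Nat.find_min ex2 (by omega))
  rw [hy] at g1 g2
  refine ⟨τ, s, s + (y + 1), by omega, s1, by nlinarith, by omega, ?_, ?_, g1, ?_⟩
  · have : s ≤ (2 * k + 6) * (s + 1) := by nlinarith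
    omega
  · refine f1.trans ?_
    gcongr; omega
  · simp only [F] at g3
    have a6 : (0 : ℤ) ≤ e * β := by positivity
    push_cast at g3 ⊢
    nlinarith

lemma abs_le_sum {z : ℕ → ℤ} {N j : ℕ} (hj : j < N) : |z j| ≤ ∑ i ∈ range N, |z i| :=
  single_le_sum (f := fun i => |z i|) (fun _ _ => abs_nonneg _) (mem_range.2 hj)

lemma three_terms {a b c p q r S Z : ℤ} (ha : |a| ≤ S) (hb : |b| ≤ S) (hc : |c| ≤ S)
    (hp : |p| ≤ Z) (hq : |q| ≤ Z) (hr : |r| ≤ Z) : |a * p + b * q + c * r| ≤ 3 * S * Z := by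
  have h0 : 0 ≤ S := (abs_nonneg _).trans ha
  have e : ∀ {u v : ℤ}, |u| ≤ S → |v| ≤ Z → |u * v| ≤ S * Z := fun hu hv => by
    rw [abs_mul]; exact mul_le_mul hu hv (abs_nonneg _) h0
  have h1 := abs_add_three (a * p) (b * q) (c * r)
  have := e ha hp
  have := e hb hq
  have := e hc hr
  linarith

theorem core (k : ℕ) (d : ℕ → ℕ) (hd : ∀ i, 0 < d i) (hev : ∀ i, Even (d i)) (β : ℕ)
    (hβ : β ≤ 1) : ∃ C : ℕ, ∀ n : ℕ, 0 < n → ∃ (τ s : ℕ) (a : ℕ → ℤ), s * s ≤ τ ∧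
      n ≤ (∏ i ∈ range (k + 2), d i) * τ ^ (k + 2) ∧ a 0 = 1 ∧ (∀ i, 0 < i → i ≤ k → Even (a i)) ∧
      Even (a (k + 1) - β) ∧ ∀ w : ℕ → ℤ, (n : ℤ) ∣ ∑ i ∈ range (k + 2), a i * w i →
        ∃ z : ℕ → ℤ, ∀ i < k + 2,
          |w i - τ * (d i * z i)| ≤ C * (s + 1) * ∑ j ∈ range (k + 2), |z j| := by
  obtain ⟨Δ, hΔ⟩ : ∃ Δ, Δ = ∏ i ∈ range (k + 2), d i := ⟨_, rfl⟩
  have Δ0 : 0 < Δ := by rw [hΔ]; exact prod_pos fun i _ => hd i
  have dΔ : ∀ i < k + 2, d i ≤ Δ := fun i hi => by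
    rw [hΔ]; exact single_le_prod' (fun j _ => hd j) (mem_range.2 hi)
  refine ⟨3 * (3 * Δ * (2 * Δ * Δ * (2 * k + 6))), fun n hn => ?_⟩
  obtain ⟨τ, s, x, t0, t1, t2, t3, t4, t5, t6, t7⟩ :=
    top_level k Δ (d (k + 1)) β n Δ0 (dΔ _ (by omega)) hβ hn
  have hA : (Δ : ℤ) * τ ^ k = d (k + 1) * d k * radix d τ k := by
    rw [hΔ, radix, prod_range_succ, prod_range_succ, prod_mul_distrib, prod_const, card_range]
    push_cast; ring
  obtain ⟨S, hS⟩ : ∃ S, S = 2 * Δ * Δ * x := ⟨_, rfl⟩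
  have S1 : ∀ i < k + 2, ∀ j < k + 2, 2 * (d i * d j * x) ≤ S := fun i hi j hj => by
    have := dΔ i hi
    have := dΔ j hj
    rw [hS, show 2 * Δ * Δ * x = 2 * (Δ * Δ * x) by ring]
    gcongr
  have S2 : ∀ i < k + 2, d i * x ≤ S := fun i hi => by
    have := S1 i hi i hi
    have := Nat.mul_le_mul_left (d i * x) (hd i)
    nlinarith
  have S3 : x ≤ S := (Nat.le_mul_of_pos_left _ (hd 0)).trans (S2 0 (by omega))
  obtain ⟨R, hR⟩ := Int.eq_ofNat_of_zero_le (sub_nonneg.2 t6)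
  obtain ⟨u, c, u1, c1, e1⟩ := digits hd t0 t3 (hd (k + 1)) t2 S3 k
    (fun j hj => by have := S1 (k + 1) (by omega) j (by omega); omega) R (by
      have b1 : (R : ℤ) ≤ 2 * x * (d (k + 1) * d k * radix d τ k) := by rw [← hA]; linarith
      have b2 : R ≤ 2 * (d (k + 1) * d k * x) * radix d τ k := by
        have : R ≤ 2 * x * (d (k + 1) * d k * radix d τ k) := by exact_mod_cast b1
        linarith
      exact b2.trans (Nat.mul_le_mul_right _ (S1 _ (by omega) _ (by omega))))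
  let Y : ℤ := d k * (τ - x) * radix d τ k + ∑ j ∈ range k, (d j : ℤ) * c j * radix d τ j + β
  let U : ℕ → ℤ := fun j => u j - if j = 0 then (0 : ℤ) else (d (k + 1) : ℤ) * c (j - 1)
  let V : ℕ → ℤ := fun j => (if j = k then (d k : ℤ) * (τ - x) else (d j : ℤ) * c j) +
    if j = 0 then (β : ℤ) else 0
  have r0 : (radix d τ 0 : ℤ) = 1 := by simp [radix]
  have hU : ∑ j ∈ range (k + 1), (radix d τ j : ℤ) * U j + Y * (d (k + 1) * (τ + x)) = n := by
    have b1 : ∑ j ∈ range (k + 1), (radix d τ j : ℤ) * U j =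
        ∑ j ∈ range (k + 1), (u j : ℤ) * radix d τ j -
          ∑ j ∈ range k, (d (k + 1) * τ) * (d j * c j * radix d τ j : ℤ) := by
      simp only [U, mul_sub, sum_sub_distrib]
      congr 1
      · exact sum_congr rfl fun j _ => mul_comm _ _
      · rw [sum_range_succ', if_pos rfl, mul_zero, add_zero]
        refine sum_congr rfl fun j _ => ?_
        rw [if_neg (by omega), radix_succ, Nat.add_sub_cancel]
        push_cast; ring
    have b2 : (R : ℤ) = ∑ j ∈ range (k + 1), (u j : ℤ) * radix d τ j +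
        ∑ j ∈ range k, (d (k + 1) * x) * (d j * c j * radix d τ j : ℤ) := by
      rw [e1]; push_cast
      congr 1
      exact sum_congr rfl fun j _ => by ring
    rw [← mul_sum] at b1 b2
    rw [b1]
    simp only [Y]
    rw [hA] at hR
    linear_combination -b2 - hR
  have hV : ∑ j ∈ range (k + 1), (radix d τ j : ℤ) * V j = Y := by
    simp only [V, mul_add, sum_add_distrib, Y]
    congr 1
    · rw [sum_range_succ, if_pos rfl, add_comm]
      congr 1
      · ring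
      · exact sum_congr rfl fun j hj => by rw [if_neg (mem_range.1 hj).ne]; ring
    · rw [sum_range_succ', if_pos rfl, r0, one_mul, sum_eq_zero fun j _ => by simp, zero_add]
  refine ⟨τ, s, fun i => if i ≤ k then radix d τ i else Y, t1, by rw [← hΔ]; exact t5,
    by simp [r0], fun i i0 ik => ?_, ?_, fun w hw => ?_⟩
  · obtain ⟨j, rfl⟩ : ∃ j, i = j + 1 := ⟨i - 1, by omega⟩
    simp only [if_pos ik, radix_succ]
    push_cast
    exact (((Int.even_coe_nat _).2 (hev j)).mul_right _).mul_left _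
  · simp only [if_neg (show ¬ k + 1 ≤ k by omega), Y, add_sub_cancel_right]
    refine ((((Int.even_coe_nat _).2 (hev k)).mul_right _).mul_right _).add
      (Finset.even_sum _ fun j _ => ?_)
    exact (((Int.even_coe_nat _).2 (hev j)).mul_right _).mul_right _
  obtain ⟨q, hq⟩ := hw
  beta_reduce at hq
  rw [sum_range_succ, if_neg (show ¬ k + 1 ≤ k by omega),
    sum_congr rfl fun j hj => by rw [if_pos (Nat.lt_succ_iff.1 (mem_range.1 hj))]] at hq
  obtain ⟨p, hp⟩ : ∃ p, p = q * (d (k + 1) * (τ + x)) - w (k + 1) := ⟨_, rfl⟩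
  obtain ⟨y, y0, y1, y2⟩ := chain d τ k (fun i => w i - q * U i - p * V i) (by
    simp only [mul_sub, sum_sub_distrib, mul_left_comm _ q, mul_left_comm _ p, ← mul_sum]
    rw [hV, hp]
    linear_combination hq - q * hU)
  let z : ℕ → ℤ := fun j => if j < k then y (j + 1) else if j = k then p else q
  have z1 : |p| ≤ ∑ j ∈ range (k + 2), |z j| := by
    simpa [z] using abs_le_sum (z := z) (show k < k + 2 by omega)
  have z2 : |q| ≤ ∑ j ∈ range (k + 2), |z j| := by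
    simpa [z] using abs_le_sum (z := z) (show k + 1 < k + 2 by omega)
  have z3 : ∀ i ≤ k, |y i| ≤ ∑ j ∈ range (k + 2), |z j| := fun i hi => by
    cases i with
    | zero => rw [y0, abs_zero]; positivity
    | succ i =>
      simpa [z, show i < k by omega] using abs_le_sum (z := z) (show i < k + 2 by omega)
  have S0 : (1 : ℤ) ≤ S := by omega
  have D0 : (1 : ℤ) ≤ Δ := by omega
  have dc : ∀ i < k + 2, ∀ j, (0 : ℤ) ≤ d i * c j ∧ (d i : ℤ) * c j ≤ Δ * S := fun i hi j =>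
    ⟨by positivity, by exact_mod_cast Nat.mul_le_mul (dΔ i hi) (c1 j)⟩
  have dx : ∀ i < k + 2, (0 : ℤ) ≤ d i * x ∧ (d i : ℤ) * x ≤ S := fun i hi =>
    ⟨by positivity, by exact_mod_cast S2 i hi⟩
  have ΔS : (S : ℤ) ≤ Δ * S := by nlinarith
  have hβ' : (β : ℤ) ≤ 1 := by omega
  have bU : ∀ j, |U j| ≤ 3 * Δ * S := fun j => by
    have a1 : (u j : ℤ) ≤ S := by exact_mod_cast u1 j
    have a2 := dc (k + 1) (by omega) (j - 1)
    have a3 : (0 : ℤ) ≤ u j := by positivity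
    simp only [U]
    rw [abs_le]
    split_ifs <;> constructor <;> linarith
  have b1 : |(-1 : ℤ)| ≤ 3 * Δ * S := by rw [abs_neg, abs_one]; linarith
  refine ⟨z, fun i hi => ?_⟩
  have fin : 3 * (3 * (Δ : ℤ) * S) * ∑ j ∈ range (k + 2), |z j| ≤
      ((3 * (3 * Δ * (2 * Δ * Δ * (2 * k + 6))) : ℕ) : ℤ) * (s + 1) *
        ∑ j ∈ range (k + 2), |z j| := by
    have : (x : ℤ) ≤ (2 * k + 6) * (s + 1) := by exact_mod_cast t4
    rw [hS]
    push_cast
    refine mul_le_mul_of_nonneg_right ?_ (by positivity)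
    calc 3 * (3 * (Δ : ℤ) * (2 * Δ * Δ * x)) ≤ 3 * (3 * Δ * (2 * Δ * Δ * ((2 * k + 6) * (s + 1)))) := by
          gcongr
      _ = _ := by ring
  refine le_trans ?_ fin
  rcases lt_trichotomy i k with h | h | h
  · have e : w i - τ * (d i * z i) = U i * q + V i * p + (-1) * y i := by
      have := y1 i h
      simp only [z, if_pos h]
      linear_combination this
    rw [e]
    refine three_terms (bU i) ?_ b1 z2 z1 (z3 i h.le)
    have := dc i hi i
    have : (0 : ℤ) ≤ β := by positivity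
    simp only [V, if_neg h.ne]
    rw [abs_le]
    split_ifs <;> constructor <;> linarith
  · subst h
    have e : w i - τ * (d i * z i) = U i * q + (V i - τ * d i) * p + (-1) * y i := by
      simp only [z, lt_irrefl, if_false, if_true]
      linear_combination y2
    rw [e]
    refine three_terms (bU i) ?_ b1 z2 z1 (z3 i le_rfl)
    have := dx i hi
    have : (0 : ℤ) ≤ β := by positivity
    simp only [V, if_true]
    rw [abs_le]
    split_ifs <;> constructor <;> linarith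
  · obtain rfl : i = k + 1 := by omega
    have e : w (k + 1) - τ * (d (k + 1) * z (k + 1)) =
        (d (k + 1) * x) * q + (-1) * p + (-1) * y 0 := by
      simp only [z, if_neg (show ¬ k + 1 < k by omega), if_neg (show k + 1 ≠ k by omega)]
      rw [hp, y0]; ring
    rw [e]
    refine three_terms ?_ b1 b1 z2 z1 (z3 0 (by omega))
    have := dx (k + 1) hi
    rw [abs_le]
    constructor <;> linarith

end Pool.Agent.P.MP_c862d8_co
end

-- part Pool.Agent.P.MP_c862d8_co.LatInt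
section

/-! From a diagonal lattice to an arbitrary integer lattice inside the even sublattice. -/

namespace Pool.Agent.P.MP_c862d8_co

open Finset Matrix Module

/-- `l1` norm -/
def nrm {m : ℕ} (w : Fin m → ℤ) : ℤ := ∑ i, |w i|

lemma nrm_nonneg {m : ℕ} (w : Fin m → ℤ) : 0 ≤ nrm w := sum_nonneg fun _ _ => abs_nonneg _

lemma le_nrm {m : ℕ} (w : Fin m → ℤ) (i : Fin m) : |w i| ≤ nrm w :=
  single_le_sum (f := fun i => |w i|) (fun _ _ => abs_nonneg _) (mem_univ i)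

lemma nrm_smul {m : ℕ} (c : ℕ) (w : Fin m → ℤ) : nrm ((c : ℤ) • w) = c * nrm w := by
  simp [nrm, abs_mul, mul_sum]

lemma nrm_sub_le {m : ℕ} (v w : Fin m → ℤ) : nrm (v - w) ≤ nrm v + nrm w := by
  unfold nrm
  rw [← sum_add_distrib]
  exact sum_le_sum fun i _ => abs_sub _ _

lemma lin_bound {m : ℕ} (f : (Fin m → ℤ) →ₗ[ℤ] (Fin m → ℤ)) :
    ∃ C : ℕ, ∀ x, nrm (f x) ≤ C * nrm x := by
  obtain ⟨C, hC⟩ := Int.eq_ofNat_of_zero_le
    (sum_nonneg fun j (_ : j ∈ univ) => nrm_nonneg (f (Pi.single j 1)))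
  refine ⟨C, fun x => ?_⟩
  have e : f x = ∑ j, x j • f (Pi.single j 1) := by
    conv_lhs => rw [pi_eq_sum_univ' x]
    simp only [map_sum, map_smul]
  rw [← hC, sum_mul, e]
  unfold nrm
  simp only [Finset.sum_apply, Pi.smul_apply, smul_eq_mul]
  refine (sum_le_sum fun i _ => abs_sum_le_sum_abs _ _).trans ?_
  rw [sum_comm]
  refine sum_le_sum fun j _ => ?_
  simp only [abs_mul, ← mul_sum]
  rw [mul_comm]
  exact mul_le_mul_of_nonneg_left (le_nrm x j) (by positivity)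

/-- twice the coordinates in a basis of the even sublattice -/
def Gp (k : ℕ) : Matrix (Fin (k + 1)) (Fin (k + 1)) ℤ :=
  Matrix.of fun i j => if i = 0 then 1 else if i = j then 2 else 0

/-- a basis of the even sublattice -/
def Gm (k : ℕ) : Matrix (Fin (k + 1)) (Fin (k + 1)) ℤ :=
  Matrix.of fun i j => if i = 0 then (if j = 0 then 2 else -1) else if i = j then 1 else 0

lemma Gp_zero {k : ℕ} (w : Fin (k + 1) → ℤ) : (Gp k *ᵥ w) 0 = ∑ j, w j := by
  simp [Gp, mulVec, dotProduct]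

lemma Gp_succ {k : ℕ} (w : Fin (k + 1) → ℤ) (i : Fin k) : (Gp k *ᵥ w) i.succ = 2 * w i.succ := by
  simp [Gp, mulVec, dotProduct]

lemma Gm_zero {k : ℕ} (w : Fin (k + 1) → ℤ) :
    (Gm k *ᵥ w) 0 = 2 * w 0 - ∑ j : Fin k, w j.succ := by
  simp [Gm, mulVec, dotProduct, Fin.sum_univ_succ, sub_eq_add_neg]

lemma Gm_succ {k : ℕ} (w : Fin (k + 1) → ℤ) (i : Fin k) : (Gm k *ᵥ w) i.succ = w i.succ := by
  simp [Gm, mulVec, dotProduct]

lemma Gp_Gm {k : ℕ} (w : Fin (k + 1) → ℤ) : Gp k *ᵥ (Gm k *ᵥ w) = (2 : ℤ) • w := by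
  funext i
  refine Fin.cases ?_ (fun i => ?_) i
  · rw [Gp_zero, Fin.sum_univ_succ, Gm_zero]
    simp only [Gm_succ]
    simp
  · rw [Gp_succ, Gm_succ]; rfl

lemma Gm_Gp {k : ℕ} (w : Fin (k + 1) → ℤ) : Gm k *ᵥ (Gp k *ᵥ w) = (2 : ℤ) • w := by
  funext i
  refine Fin.cases ?_ (fun i => ?_) i
  · rw [Gm_zero, Gp_zero, Fin.sum_univ_succ]
    simp only [Gp_succ, ← mul_sum, Pi.smul_apply, smul_eq_mul]
    ring
  · rw [Gm_succ, Gp_succ]; rfl

lemma det_Gp (k : ℕ) : (Gp k).det = 2 ^ k := by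
  rw [Matrix.det_of_isUpperTriangular]
  · simp [Gp, Fin.prod_univ_succ]
  · intro i j h
    have h' : j < i := h
    simp [Gp, h'.ne', (Fin.pos_iff_ne_zero.1 ((Fin.zero_le j).trans_lt h'))]

/-- Smith normal form with a parity condition on the coordinates of a given vector -/
lemma smith {k : ℕ} (B : Matrix (Fin (k + 2)) (Fin (k + 2)) ℤ) (hB : B.det ≠ 0)
    (g : Fin (k + 2) → ℤ) :
    ∃ (b : Basis (Fin (k + 2)) ℤ (Fin (k + 2) → ℤ)) (a : Fin (k + 2) → ℕ), (∀ i, 0 < a i) ∧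
      ∏ i, a i = B.det.natAbs ∧ (∀ i, ∃ z, (a i : ℤ) • b i = B *ᵥ z) ∧
      (Even (b.equivFun g 0) ∨ Odd (b.equivFun g (Fin.last _))) := by
  have hinj : Function.Injective B.mulVecLin := by
    rw [← LinearMap.ker_eq_bot, LinearMap.ker_eq_bot']
    exact fun v hv => eq_zero_of_mulVec_eq_zero hB hv
  obtain ⟨b, a, ab, h⟩ := Submodule.exists_smith_normal_form_of_rank_eq
    (Pi.basisFun ℤ (Fin (k + 2))) (LinearMap.finrank_range_of_inj hinj)
  have h1 := Submodule.natAbs_det_basis_change b _ ab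
  have h2 := Submodule.natAbs_det_equiv _ (LinearEquiv.ofInjective _ hinj)
  have h3 : ((↑) ∘ ab : Fin (k + 2) → Fin (k + 2) → ℤ) = fun i => a i • b i := funext h
  rw [h3, AlternatingMap.map_smul_univ, Basis.det_self, smul_eq_mul, mul_one, ← h2] at h1
  have h4 : ∏ i, (a i).natAbs = B.det.natAbs := by
    rw [← LinearMap.det_toLin' B]
    exact (map_prod Int.natAbsHom a univ).symm.trans h1
  have h5 : ∀ i, 0 < (a i).natAbs := fun i => Int.natAbs_pos.2 fun h0 =>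
    ab.ne_zero i (Subtype.ext (by rw [h i, h0, zero_smul]; rfl))
  have h6 : ∀ i, ∃ z, ((a i).natAbs : ℤ) • b i = B *ᵥ z := fun i => by
    obtain ⟨z, hz⟩ := (ab i).2
    rw [h i] at hz
    rcases Int.natAbs_eq (a i) with e | e
    · exact ⟨z, by rw [← e]; exact hz.symm⟩
    · refine ⟨-z, ?_⟩
      rw [mulVec_neg, show B *ᵥ z = a i • b i from hz, ← neg_smul]
      congr 1
      omega
  by_cases hc : Even (b.equivFun g 0) ∨ Odd (b.equivFun g (Fin.last _))
  · exact ⟨b, _, h5, h4, h6, hc⟩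
  · refine ⟨b.reindex (Equiv.swap 0 (Fin.last _)),
      fun i => (a ((Equiv.swap 0 (Fin.last _)).symm i)).natAbs, fun i => h5 _, ?_, fun i => ?_,
      Or.inl ?_⟩
    · rw [← h4]
      exact Equiv.prod_comp (Equiv.swap 0 (Fin.last _)).symm fun i => (a i).natAbs
    · rw [Basis.reindex_apply]
      exact h6 _
    · simpa using Int.not_odd_iff_even.1 (not_or.1 hc).2

theorem int_lattice {k : ℕ} (B : Matrix (Fin (k + 2)) (Fin (k + 2)) ℤ) (hB : B.det ≠ 0) :
    ∃ C : ℕ, ∀ n : ℕ, 0 < n → ∃ (τ s : ℕ) (a : Fin (k + 2) → ℤ), s * s ≤ τ ∧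
      n ≤ 2 ^ (k + 2) * (2 ^ (k + 1) * B.det.natAbs) * τ ^ (k + 2) ∧
      ∀ w : Fin (k + 2) → ℤ, w ≠ 0 → Even (∑ i, w i) → (n : ℤ) ∣ ∑ i, a i * w i →
        ∃ z, z ≠ 0 ∧ 4 * nrm (B *ᵥ z) * (τ - C * (s + 1)) ≤ nrm w := by
  obtain ⟨b, α, α0, α1, α2, α3⟩ := smith (Gp (k + 1) * B)
    (by rw [det_mul, det_Gp]; positivity) (Pi.single 0 1)
  let d : ℕ → ℕ := fun i => if h : i < k + 2 then 2 * α ⟨i, h⟩ else 2
  have hd : ∀ i : Fin (k + 2), d i = 2 * α i := fun i => dif_pos i.2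
  obtain ⟨β, hβ, hβ'⟩ : ∃ β : ℕ, β ≤ 1 ∧ Even (b.equivFun (Pi.single 0 1) 0 +
      β * b.equivFun (Pi.single 0 1) (Fin.last _)) := by
    by_cases h : Even (b.equivFun (Pi.single 0 1) 0)
    · exact ⟨0, by omega, by simpa using h⟩
    · exact ⟨1, le_rfl, by
        rw [Nat.cast_one, one_mul]
        exact (Int.not_even_iff_odd.1 h).add_odd (α3.resolve_left h)⟩
  obtain ⟨C, hC⟩ := core k d (fun i => by
      simp only [d]; split_ifs
      · have := α0 ⟨i, ‹_›⟩; omega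
      · omega)
    (fun i => by simp only [d]; split_ifs <;> simp) β hβ
  let Ψ : (Fin (k + 2) → ℤ) →ₗ[ℤ] (Fin (k + 2) → ℤ) :=
    (Gm (k + 1)).mulVecLin ∘ₗ b.equivFun.symm.toLinearMap
  let H : (Fin (k + 2) → ℤ) →ₗ[ℤ] (Fin (k + 2) → ℤ) :=
    b.equivFun.toLinearMap ∘ₗ (Gp (k + 1)).mulVecLin
  have HΨ : ∀ t, H (Ψ t) = (2 : ℤ) • t := fun t => by
    change b.equivFun (Gp _ *ᵥ (Gm _ *ᵥ b.equivFun.symm t)) = _
    rw [Gp_Gm, map_smul, LinearEquiv.apply_symm_apply]
  obtain ⟨C1, h1⟩ := lin_bound Ψ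
  obtain ⟨C2, h2⟩ := lin_bound H
  refine ⟨C1 * ((k + 2) * C) * C2, fun n hn => ?_⟩
  obtain ⟨τ, s, a, t1, t2, a0, a1, a2, a3⟩ := hC n hn
  have hev : ∀ j, Even (∑ i : Fin (k + 2), a i * H (Pi.single j 1) i) := fun j => by
    have e0 : Even (∑ i : Fin (k + 2), a i * b.equivFun (Pi.single 0 1) i) := by
      rw [Fin.sum_univ_succ, Fin.sum_univ_castSucc]
      have b1 : Even (∑ i : Fin k, a (i.castSucc.succ : Fin (k + 2)) *
          b.equivFun (Pi.single 0 1) i.castSucc.succ) :=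
        Finset.even_sum _ fun i _ => (a1 _ (by simp) (by simp)).mul_right _
      have b2 := a2.mul_right (b.equivFun (Pi.single 0 1) (Fin.last _))
      have b3 := (hβ'.add b1).add b2
      have e : a ((0 : Fin (k + 2)) : ℕ) = 1 := a0
      have e' : a (((Fin.last k).succ : Fin (k + 2)) : ℕ) = a (k + 1) := rfl
      rw [e, e', Fin.succ_last]
      obtain ⟨r, hr⟩ := b3
      exact ⟨r, by linear_combination hr⟩
    obtain ⟨v, hv⟩ : ∃ v, Gp (k + 1) *ᵥ Pi.single j 1 = Pi.single 0 1 + (2 : ℤ) • v := by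
      refine ⟨fun i => if i = 0 then 0 else (Pi.single j 1 : Fin (k + 2) → ℤ) i, funext fun i => ?_⟩
      refine Fin.cases ?_ (fun i => ?_) i
      · rw [Gp_zero]; simp
      · rw [Gp_succ]; simp
    have : H (Pi.single j 1) = b.equivFun (Pi.single 0 1) + (2 : ℤ) • b.equivFun v := by
      change b.equivFun (Gp _ *ᵥ _) = _
      rw [hv, map_add, map_smul]
    rw [this]
    simp only [Pi.add_apply, Pi.smul_apply, smul_eq_mul, mul_add, sum_add_distrib]
    exact e0.add (Finset.even_sum _ fun i _ => (even_two_mul _).mul_left _)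
  choose a' ha' using hev
  refine ⟨τ, s, a', t1, ?_, fun w w0 hw hdvd => ?_⟩
  · rw [← Fin.prod_univ_eq_prod_range] at t2
    simp only [hd, prod_mul_distrib, prod_const, card_univ, Fintype.card_fin, α1, det_mul, det_Gp,
      Int.natAbs_mul, Int.natAbs_pow] at t2
    exact t2
  obtain ⟨r, hr⟩ := hw
  obtain ⟨y, hy⟩ : ∃ y, Gp (k + 1) *ᵥ w = (2 : ℤ) • y := by
    refine ⟨Fin.cons r fun i => w i.succ, funext fun i => ?_⟩
    refine Fin.cases ?_ (fun i => ?_) i
    · rw [Gp_zero, hr]; simp [two_mul]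
    · rw [Gp_succ]; simp
  have hH : H w = (2 : ℤ) • b.equivFun y := by
    change b.equivFun (Gp _ *ᵥ _) = _
    rw [hy, map_smul]
  have hΨ : Ψ (b.equivFun y) = w := by
    change Gm _ *ᵥ b.equivFun.symm (b.equivFun y) = _
    have := Gm_Gp w
    rw [hy, mulVec_smul] at this
    rw [LinearEquiv.symm_apply_apply]
    exact smul_right_injective _ two_ne_zero this
  have hs : ∑ i : Fin (k + 2), a i * b.equivFun y i = ∑ j, a' j * w j := by
    have e : H w = ∑ j, w j • H (Pi.single j 1) := by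
      conv_lhs => rw [pi_eq_sum_univ' w]
      simp only [map_sum, map_smul]
    have e1 : ∑ i : Fin (k + 2), a i * H w i = 2 * ∑ j, a' j * w j := by
      rw [e]
      simp only [Finset.sum_apply, Pi.smul_apply, smul_eq_mul, mul_sum]
      rw [sum_comm]
      refine sum_congr rfl fun j _ => ?_
      simp only [mul_left_comm _ (w j), ← mul_sum, ha']
      ring
    rw [hH] at e1
    simp only [Pi.smul_apply, smul_eq_mul, mul_left_comm _ (2 : ℤ), ← mul_sum] at e1
    omega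
  obtain ⟨z, hz⟩ := a3 (fun i => if h : i < k + 2 then b.equivFun y ⟨i, h⟩ else 0) (by
    rw [← Fin.sum_univ_eq_sum_range (fun i => a i * if h : i < k + 2 then b.equivFun y ⟨i, h⟩ else 0)]
    simp only [Fin.is_lt, dif_pos, Fin.eta]
    rw [hs]; exact hdvd)
  let z' : Fin (k + 2) → ℤ := fun i => z i
  let P : Fin (k + 2) → ℤ := fun i => α i * z' i
  have hz' : ∀ i : Fin (k + 2), |((τ : ℤ) • ((2 : ℤ) • P) - b.equivFun y) i| ≤
      C * (s + 1) * nrm z' := fun i => by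
    have := hz i i.2
    rw [← Fin.sum_univ_eq_sum_range (fun j => |z j|), dif_pos i.2, hd, abs_sub_comm] at this
    simpa [P, z', nrm, mul_assoc] using this
  have hE : nrm ((τ : ℤ) • ((2 : ℤ) • P) - b.equivFun y) ≤ (k + 2) * (C * (s + 1) * nrm z') := by
    have := sum_le_card_nsmul univ _ _ fun i _ => hz' i
    simpa [nrm] using this
  obtain ⟨ζ, hζ⟩ : ∃ ζ, b.equivFun.symm P = (Gp (k + 1) * B) *ᵥ ζ := by
    choose f hf using α2
    refine ⟨∑ i, z' i • f i, ?_⟩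
    rw [Basis.equivFun_symm_apply, mulVec_sum]
    refine sum_congr rfl fun i _ => ?_
    rw [mulVec_smul, ← hf, smul_smul, mul_comm]
  have hP : Ψ P = (2 : ℤ) • (B *ᵥ ζ) := by
    change Gm _ *ᵥ b.equivFun.symm P = _
    rw [hζ, ← mulVec_mulVec, Gm_Gp]
  have hN : nrm z' ≤ C2 * nrm (B *ᵥ ζ) := by
    have b1 := h2 (Ψ P)
    rw [HΨ, hP] at b1
    have b2 := nrm_smul 2 P
    have b3 := nrm_smul 2 (B *ᵥ ζ)
    have b4 : nrm z' ≤ nrm P := sum_le_sum fun i _ => by
      have : (1 : ℤ) ≤ α i := by exact_mod_cast α0 i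
      simp only [P, abs_mul, Nat.abs_cast]
      nlinarith [abs_nonneg (z' i)]
    push_cast at b2 b3
    rw [b2, b3] at b1
    linarith
  have key : 4 * τ * nrm (B *ᵥ ζ) ≤ nrm w + C1 * ((k + 2) * (C * (s + 1) * nrm z')) := by
    have b1 : ((4 * τ : ℕ) : ℤ) • (B *ᵥ ζ) =
        w - -Ψ ((τ : ℤ) • ((2 : ℤ) • P) - b.equivFun y) := by
      rw [map_sub, map_smul, map_smul, hP, hΨ]
      push_cast
      module
    have b2 := nrm_smul (4 * τ) (B *ᵥ ζ)
    have b3 := nrm_sub_le w (-Ψ ((τ : ℤ) • ((2 : ℤ) • P) - b.equivFun y))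
    have b4 := h1 ((τ : ℤ) • ((2 : ℤ) • P) - b.equivFun y)
    have b5 : ∀ v : Fin (k + 2) → ℤ, nrm (-v) = nrm v := fun v => by simp [nrm]
    rw [← b1, b2, b5] at b3
    have b6 := mul_le_mul_of_nonneg_left hE (show (0 : ℤ) ≤ C1 by positivity)
    push_cast at b3
    linarith
  refine ⟨ζ, fun h0 => w0 ?_, ?_⟩
  · have b1 : nrm z' = 0 := le_antisymm (by simpa [h0, nrm] using hN) (nrm_nonneg _)
    have b2 : (τ : ℤ) • ((2 : ℤ) • P) - b.equivFun y = 0 := funext fun i => by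
      have := hz' i
      rw [b1, mul_zero] at this
      exact abs_nonpos_iff.1 this
    rw [← hΨ, ← sub_eq_zero.1 b2, map_smul, map_smul, hP, h0]
    simp
  · have b1 := mul_le_mul_of_nonneg_left hN
      (show (0 : ℤ) ≤ C1 * ((k + 2) * (C * (s + 1))) by positivity)
    have b2 : (0 : ℤ) ≤ C1 * ((k + 2) * (C * (s + 1))) * (C2 * nrm (B *ᵥ ζ)) := by
      have := nrm_nonneg (B *ᵥ ζ)
      positivity
    push_cast
    linarith

end Pool.Agent.P.MP_c862d8_co
end

-- part Pool.Agent.P.MP_c862d8_co.LatMain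
section

/-! The threshold `2^(m-1) * critDet m * h^m`. -/

namespace Pool.Agent.P.MP_c862d8_co

open Finset Matrix Module Filter Topology

lemma crit_bdd (m : ℕ) :
    BddBelow {t : ℝ | ∃ B : Matrix (Fin m) (Fin m) ℝ, Admissible B ∧ t = |B.det|} :=
  ⟨0, by rintro t ⟨B, -, rfl⟩; exact abs_nonneg _⟩

lemma critDet_le {m : ℕ} {B : Matrix (Fin m) (Fin m) ℝ} (h : Admissible B) :
    critDet m ≤ |B.det| := csInf_le (crit_bdd m) ⟨B, h, rfl⟩

lemma critDet_nonneg (m : ℕ) : 0 ≤ critDet m :=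
  Real.sInf_nonneg (by rintro t ⟨B, -, rfl⟩; exact abs_nonneg _)

lemma nrm_natAbs {m : ℕ} (w : Fin m → ℤ) : nrm w = (∑ i, (w i).natAbs : ℕ) := by
  simp [nrm]

lemma one_le_nrm {m : ℕ} {w : Fin m → ℤ} (h : w ≠ 0) : 1 ≤ nrm w := by
  obtain ⟨i, hi⟩ := Function.ne_iff.1 h
  exact (Int.one_le_abs hi).trans (le_nrm w i)

lemma nrm_cast {m : ℕ} (B : Matrix (Fin m) (Fin m) ℤ) (z : Fin m → ℤ) :
    (nrm (B *ᵥ z) : ℝ) = ∑ i, |∑ j, (B i j : ℝ) * z j| := by
  simp [nrm, mulVec, dotProduct]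

lemma exists_admissible {m : ℕ} {t : ℝ} (ht : critDet m < t) :
    ∃ B : Matrix (Fin m) (Fin m) ℝ, Admissible B ∧ |B.det| < t := by
  obtain ⟨_, ⟨B, hB, rfl⟩, h⟩ := exists_lt_of_csInf_lt (s := {t : ℝ |
      ∃ B : Matrix (Fin m) (Fin m) ℝ, Admissible B ∧ t = |B.det|}) ⟨_, 1, ⟨by simp, fun z hz => by
    have : (1 : ℝ) ≤ (nrm z : ℝ) := by exact_mod_cast one_le_nrm hz
    simpa [nrm, one_apply] using this⟩, rfl⟩ ht
  exact ⟨B, hB, h⟩

lemma even_nrm_sub {m : ℕ} (w : Fin m → ℤ) : Even (nrm w - ∑ i, w i) := by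
  rw [nrm, ← sum_sub_distrib]
  refine Finset.even_sum _ fun i _ => ?_
  rcases abs_choice (w i) with h | h <;> rw [h]
  · simp
  · exact ⟨-w i, by ring⟩

/-- lower bound: a set whose signed sums are distinct gives an admissible lattice -/
theorem crit_le {n m h : ℕ} [NeZero n] (hm : 2 ≤ m) (a : Fin m → ZMod n)
    (H : Set.InjOn (lin a) (sphere m h)) : 2 ^ (m - 1) * critDet m * (h + 1) ^ m ≤ n := by
  let f : (Fin m → ℤ) →ₗ[ℤ] ZMod n × ZMod 2 :=
    (Fintype.linearCombination ℤ a).prod (Fintype.linearCombination ℤ fun _ => (1 : ZMod 2))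
  have hc := Nat.card_congr f.quotKerEquivRange.toEquiv
  have hfin : Finite ((Fin m → ℤ) ⧸ LinearMap.ker f) :=
    Finite.of_equiv _ f.quotKerEquivRange.toEquiv.symm
  have h1 : Nat.card ((Fin m → ℤ) ⧸ LinearMap.ker f) ≤ n * 2 := by
    rw [hc]
    refine (Nat.card_le_card_of_injective _ Subtype.val_injective).trans ?_
    simp
  have h2 : 0 < Nat.card ((Fin m → ℤ) ⧸ LinearMap.ker f) := Nat.card_pos
  have hr : finrank ℤ (LinearMap.ker f) = m := by
    rw [(Submodule.finiteQuotient_iff _).1 hfin, finrank_fin_fun]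
  let b := finBasisOfFinrankEq ℤ (LinearMap.ker f) hr
  let M : Matrix (Fin m) (Fin m) ℤ := Matrix.of fun i j => (b j : Fin m → ℤ) i
  have h3 : M.det.natAbs = Nat.card ((Fin m → ℤ) ⧸ LinearMap.ker f) := by
    rw [← Submodule.natAbs_det_basis_change (Pi.basisFun ℤ (Fin m)) _ b, Basis.det_apply]
    congr 2
  have h4 : ∀ z : Fin m → ℤ, z ≠ 0 → 2 * (h + 1 : ℤ) ≤ nrm (M *ᵥ z) := fun z hz => by
    have e : M *ᵥ z = (b.equivFun.symm z : LinearMap.ker f) := by
      funext i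
      simp [M, mulVec, dotProduct, mul_comm]
    have w0 : M *ᵥ z ≠ 0 := fun h0 => hz (by
      rw [e] at h0
      exact b.equivFun.symm.map_eq_zero_iff.1 (Subtype.ext h0))
    have hk : f (M *ᵥ z) = 0 := by rw [e]; exact (b.equivFun.symm z).2
    have k1 : lin a (M *ᵥ z) = 0 := congrArg Prod.fst hk
    have k2 : Even (∑ i, (M *ᵥ z) i) := by
      have := congrArg Prod.snd hk
      rw [← ZMod.intCast_eq_zero_iff_even]
      simpa [f, Fintype.linearCombination_apply] using this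
    obtain ⟨r, hr⟩ := (even_nrm_sub (M *ᵥ z)).add k2
    have k3 := nrm_natAbs (M *ᵥ z)
    by_contra hlt
    exact w0 (eq_zero_of_injOn hm a H _ r.toNat (by omega) (by omega) k1)
  have hpos : (0 : ℝ) < 2 * (h + 1) := by positivity
  have hdet : (((2 * (h + 1) : ℝ))⁻¹ • M.map (Int.cast : ℤ → ℝ)).det =
      ((2 * (h + 1) : ℝ))⁻¹ ^ m * M.det := by
    rw [det_smul, Fintype.card_fin, Int.cast_det]
  have hM : (M.det : ℝ) ≠ 0 := by
    have : M.det ≠ 0 := Int.natAbs_pos.1 (by omega)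
    exact_mod_cast this
  have h5 := critDet_le (B := ((2 * (h + 1) : ℝ))⁻¹ • M.map (Int.cast : ℤ → ℝ))
    ⟨by rw [hdet]; positivity, fun z hz => by
      have b1 : (2 * (h + 1) : ℝ) ≤ nrm (M *ᵥ z) := by exact_mod_cast h4 z hz
      rw [nrm_cast] at b1
      simp only [Matrix.smul_apply, Matrix.map_apply, smul_eq_mul, mul_assoc, ← mul_sum, abs_mul,
        abs_of_pos (inv_pos.2 hpos)]
      rwa [← div_eq_inv_mul, le_div_iff₀ hpos, one_mul]⟩
  have h6 : |(M.det : ℝ)| ≤ n * 2 := by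
    rw [← Int.cast_abs, ← Nat.cast_natAbs, h3]
    exact_mod_cast h1
  rw [hdet, abs_mul, abs_of_pos (by positivity), inv_pow, ← div_eq_inv_mul,
    le_div_iff₀ (by positivity), mul_pow] at h5
  obtain ⟨k, rfl⟩ : ∃ k, m = k + 1 := ⟨m - 1, by omega⟩
  rw [Nat.add_sub_cancel]
  rw [pow_succ (2 : ℝ)] at h5
  linarith

/-- integer approximation of an admissible lattice -/
lemma approx {m : ℕ} {B : Matrix (Fin m) (Fin m) ℝ} (hB : Admissible B) {t : ℝ}
    (ht : |B.det| < t) : ∃ (M : Matrix (Fin m) (Fin m) ℤ) (μ : ℝ), 0 < μ ∧ M.det ≠ 0 ∧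
      (∀ z, z ≠ 0 → μ ≤ nrm (M *ᵥ z)) ∧ |(M.det : ℝ)| < t * μ ^ m := by
  obtain ⟨C, C0, hC⟩ : ∃ C : ℝ, 0 ≤ C ∧ ∀ z : Fin m → ℝ, ∀ j,
      |z j| ≤ C * ∑ i, |∑ j, B i j * z j| := by
    refine ⟨∑ j, ∑ i, |B⁻¹ j i|, by positivity, fun z j => ?_⟩
    have e : z = B⁻¹ *ᵥ (B *ᵥ z) := by
      rw [mulVec_mulVec, nonsing_inv_mul _ (Ne.isUnit hB.1), one_mulVec]
    have b1 : |z j| ≤ ∑ i, |B⁻¹ j i| * ∑ i, |∑ j, B i j * z j| := by
      rw [show z j = ∑ i, B⁻¹ j i * ∑ j, B i j * z j from congrFun e j]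
      refine (abs_sum_le_sum_abs _ _).trans (sum_le_sum fun i _ => ?_)
      rw [abs_mul]
      exact mul_le_mul_of_nonneg_left
        (single_le_sum (f := fun i => |∑ j, B i j * z j|) (fun _ _ => abs_nonneg _) (mem_univ i))
        (abs_nonneg _)
    rw [← sum_mul] at b1
    exact b1.trans (mul_le_mul_of_nonneg_right
      (single_le_sum (f := fun j => ∑ i, |B⁻¹ j i|) (fun _ _ => by positivity) (mem_univ j))
      (by positivity))
  let M : ℕ → Matrix (Fin m) (Fin m) ℤ := fun L => Matrix.of fun i j => round (L * B i j)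
  have hmin : ∀ (L : ℕ) (z : Fin m → ℤ), z ≠ 0 → m * m * C ≤ L → L - m * m * C ≤ nrm (M L *ᵥ z) :=
    fun L z hz hL => by
    have b1 : ∀ i, L * |∑ j, B i j * z j| ≤ |∑ j, (M L i j : ℝ) * z j| +
        m * (C * ∑ i, |∑ j, B i j * (z j : ℝ)|) := fun i => by
      have e : (L : ℝ) * ∑ j, B i j * z j =
          ∑ j, (M L i j : ℝ) * z j + ∑ j, (L * B i j - M L i j) * z j := by
        rw [mul_sum, ← sum_add_distrib]
        exact sum_congr rfl fun j _ => by ring
      rw [← Nat.abs_cast (R := ℝ) L, ← abs_mul, e]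
      refine (abs_add_le _ _).trans (add_le_add le_rfl ((abs_sum_le_sum_abs _ _).trans ?_))
      have := sum_le_card_nsmul univ (fun j => |(L * B i j - M L i j) * (z j : ℝ)|)
        (C * ∑ i, |∑ j, B i j * (z j : ℝ)|) fun j _ => by
          rw [abs_mul]
          have c1 := abs_sub_round ((L : ℝ) * B i j)
          have c2 := hC (fun j => z j) j
          have c3 := abs_nonneg (z j : ℝ)
          change |(L : ℝ) * B i j - round ((L : ℝ) * B i j)| * _ ≤ _
          nlinarith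
      simpa using this
    have b2 := sum_le_sum fun i (_ : i ∈ univ) => b1 i
    rw [← mul_sum, sum_add_distrib, ← nrm_cast, sum_const, card_univ, Fintype.card_fin,
      nsmul_eq_mul] at b2
    have b3 := hB.2 z hz
    nlinarith
  have inv0 : Tendsto (fun L : ℕ => (L : ℝ)⁻¹) atTop (𝓝 0) := tendsto_inv_atTop_nhds_zero_nat
  have t1 : Tendsto (fun L : ℕ => (L : ℝ)⁻¹ • (M L).map (Int.cast : ℤ → ℝ)) atTop (𝓝 B) := by
    refine tendsto_pi_nhds.2 fun i => tendsto_pi_nhds.2 fun j => ?_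
    rw [tendsto_iff_dist_tendsto_zero]
    refine squeeze_zero' (Eventually.of_forall fun _ => dist_nonneg) ?_ inv0
    filter_upwards [eventually_gt_atTop 0] with L hL
    have L0 : (0 : ℝ) < L := by exact_mod_cast hL
    have c1 := abs_sub_round ((L : ℝ) * B i j)
    change |(L : ℝ)⁻¹ * round ((L : ℝ) * B i j) - B i j| ≤ _
    rw [show (L : ℝ)⁻¹ * round ((L : ℝ) * B i j) - B i j =
      (L : ℝ)⁻¹ * -(L * B i j - round ((L : ℝ) * B i j)) by field_simp; ring, abs_mul, abs_neg,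
      abs_of_pos (inv_pos.2 L0)]
    have := inv_pos.2 L0
    nlinarith
  have t2 := ((continuous_id.matrix_det).tendsto B).comp t1
  have t3 : Tendsto (fun L : ℕ => t * (1 - m * m * C * (L : ℝ)⁻¹) ^ m) atTop
      (𝓝 (t * (1 - m * m * C * 0) ^ m)) := (((inv0.const_mul _).const_sub 1).pow m).const_mul t
  simp only [mul_zero, sub_zero, one_pow, mul_one] at t3
  obtain ⟨L, ⟨l1, l2⟩, l3⟩ := (((t2.abs.eventually_lt t3 ht).and (t2.eventually_ne hB.1)).and
    (tendsto_natCast_atTop_atTop.eventually_gt_atTop (m * m * C : ℝ))).exists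
  have L0 : (0 : ℝ) < L := lt_of_le_of_lt (by positivity) l3
  simp only [Function.comp, id, det_smul, Fintype.card_fin, ← Int.cast_det] at l1 l2
  refine ⟨M L, L - m * m * C, by linarith, fun h0 => l2 (by simp [h0]),
    fun z hz => hmin L z hz l3.le, ?_⟩
  rw [abs_mul, abs_of_pos (by positivity), inv_pow, ← div_eq_inv_mul,
    div_lt_iff₀ (by positivity), mul_assoc, ← mul_pow] at l1
  rwa [show (1 - m * m * C * (L : ℝ)⁻¹) * L = L - m * m * C by field_simp] at l1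

/-- upper bound: no short even vector in the kernel -/
theorem exists_good {k : ℕ} {ε : ℝ} (hε : 0 < ε) : ∃ h0 : ℕ, ∀ h ≥ h0, ∀ n : ℕ,
    (2 ^ (k + 1) * critDet (k + 2) + ε) * (h : ℝ) ^ (k + 2) ≤ n → 0 < n ∧
      ∃ a : Fin (k + 2) → ℤ, ∀ w : Fin (k + 2) → ℤ, w ≠ 0 → Even (∑ i, w i) →
        (n : ℤ) ∣ ∑ i, a i * w i → 2 * h < nrm w := by
  obtain ⟨κ, hκ⟩ : ∃ κ, κ = 2 ^ (k + 1) * critDet (k + 2) + ε := ⟨_, rfl⟩
  have κ0 : 0 < κ := by have := critDet_nonneg (k + 2); rw [hκ]; positivity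
  rw [← hκ]
  obtain ⟨B, hB, b1⟩ := exists_admissible (m := k + 2) (t := κ / 2 ^ (k + 1)) (by
    rw [lt_div_iff₀ (by positivity)]; linarith)
  obtain ⟨M, μ, μ0, M0, M1, M2⟩ := approx hB b1
  obtain ⟨C, hC⟩ := int_lattice M M0
  obtain ⟨η, η0, η1, η2⟩ : ∃ η : ℝ, 0 < η ∧ η < 1 ∧
      |(M.det : ℝ)| < κ / 2 ^ (k + 1) * (μ * η) ^ (k + 2) := by
    have c1 : Continuous fun η : ℝ => κ / 2 ^ (k + 1) * (μ * η) ^ (k + 2) := by fun_prop
    have c2 := (c1.tendsto 1).eventually_const_lt (u := |(M.det : ℝ)|) (by simpa using M2)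
    obtain ⟨η, a1, a2⟩ := ((c2.filter_mono nhdsWithin_le_nhds).and
      (Ioo_mem_nhdsLT (show (0 : ℝ) < 1 by norm_num))).exists
    exact ⟨η, a2.1, a2.2, a1⟩
  obtain ⟨h0, hh0⟩ := exists_nat_gt
    (2 * μ * η * ((2 * C + C ^ 2 / (1 - η)) / (1 - η)))
  refine ⟨h0 + 1, fun h hh n hn => ?_⟩
  have h1 : (h0 : ℝ) + 1 ≤ h := by exact_mod_cast hh
  have hpos : (0 : ℝ) < h := by have : (0 : ℝ) ≤ h0 := by positivity
                                linarith
  have n0 : 0 < n := by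
    have : (0 : ℝ) < n := lt_of_lt_of_le (by positivity) hn
    exact_mod_cast this
  obtain ⟨τ, s, a, t1, t2, t3⟩ := hC n n0
  refine ⟨n0, a, fun w w0 w1 w2 => ?_⟩
  obtain ⟨z, z0, z1⟩ := t3 w w0 w1 w2
  have u1 : (s : ℝ) * s ≤ τ := by exact_mod_cast t1
  have u2 : (n : ℝ) ≤ 2 ^ (k + 2) * (2 ^ (k + 1) * |(M.det : ℝ)|) * τ ^ (k + 2) := by
    rw [← Int.cast_abs, ← Nat.cast_natAbs]
    exact_mod_cast t2
  have u3 : (h : ℝ) ≤ 2 * μ * η * τ := by
    refine le_of_pow_le_pow_left₀ (n := k + 2) (by omega) (by positivity)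
      (le_of_mul_le_mul_left (hn.trans (u2.trans ?_)) κ0)
    rw [div_mul_eq_mul_div, lt_div_iff₀ (by positivity), mul_comm] at η2
    calc _ ≤ 2 ^ (k + 2) * (κ * (μ * η) ^ (k + 2)) * (τ : ℝ) ^ (k + 2) := by gcongr
      _ = _ := by rw [mul_pow, mul_pow, mul_pow, mul_pow]; ring
  have u4 : (2 * C + C ^ 2 / (1 - η)) / (1 - η) < τ :=
    lt_of_mul_lt_mul_left (a := 2 * μ * η) (by linarith) (by positivity)
  have e0 : 0 < 1 - η := by linarith
  rw [div_lt_iff₀ e0] at u4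
  have u5 : (C : ℝ) * (s + 1) < (1 - η) * τ := by
    have v1 : 2 * C * (s : ℝ) ≤ (1 - η) * (s * s) + C ^ 2 / (1 - η) := by
      have : (1 - η) * (s * s) + C ^ 2 / (1 - η) - 2 * C * (s : ℝ) =
          ((1 - η) * s - C) ^ 2 / (1 - η) := by field_simp; ring
      have : 0 ≤ ((1 - η) * s - C) ^ 2 / (1 - η) := by positivity
      linarith
    have v2 := mul_le_mul_of_nonneg_left u1 e0.le
    linarith
  have u6 : 4 * (nrm (M *ᵥ z) : ℝ) * (τ - C * (s + 1)) ≤ nrm w := by exact_mod_cast z1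
  have u7 := M1 z z0
  have u8 : η * τ < τ - C * (s + 1) := by linarith
  have u9 : 4 * μ * (η * τ) < 4 * (nrm (M *ᵥ z) : ℝ) * (τ - C * (s + 1)) :=
    mul_lt_mul' (by linarith) u8 (by positivity) (by linarith)
  have : (2 * h : ℝ) < nrm w := by linarith
  exact_mod_cast this

theorem below (n m h : ℕ) (hm : 2 ≤ m) (hh : 1 ≤ h) (h1 : c h m ≤ n)
    (h2 : (n : ℝ) < 2 ^ (m - 1) * critDet m * (h + 1) ^ m) :
    m ≤ n ∧ nu n m h < min n (c h m) := by
  have h3 := two_mul_le_c (m := m) (h := h) (by omega) hh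
  have : NeZero n := ⟨by omega⟩
  refine ⟨by omega, ?_⟩
  rw [min_eq_right h1, nu_lt_iff (by omega)]
  exact fun a _ => image_card_lt hh a fun H => absurd (crit_le hm a H) (not_le.2 h2)

theorem above (m : ℕ) (hm : 2 ≤ m) (ε : ℝ) (hε : 0 < ε) : ∃ h0 : ℕ, ∀ h ≥ h0, ∀ n : ℕ,
    (2 ^ (m - 1) * critDet m + ε) * (h : ℝ) ^ m ≤ n → ¬ nu n m h < min n (c h m) := by
  obtain ⟨k, rfl⟩ : ∃ k, m = k + 2 := ⟨m - 2, by omega⟩
  obtain ⟨h0, H⟩ := exists_good (k := k) hε
  refine ⟨h0 + 1, fun h hh n hn => ?_⟩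
  obtain ⟨n0, a, ha⟩ := H h (by omega) n hn
  have : NeZero n := ⟨n0.ne'⟩
  have key : ∀ w : Fin (k + 2) → ℤ, Even (nrm w) → nrm w ≤ 2 * h →
      lin (fun i => (a i : ZMod n)) w = 0 → w = 0 := fun w w1 w2 w3 => by
    by_contra w0
    refine absurd (ha w w0 (by simpa using w1.sub (even_nrm_sub w)) ?_) (not_lt.2 w2)
    rw [← ZMod.intCast_zmod_eq_zero_iff_dvd]
    simpa [lin, mul_comm] using w3
  have hinj : Set.InjOn (lin fun i => (a i : ZMod n)) (sphere (k + 2) h) := fun l hl l' hl' e => by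
    rw [mem_coe, mem_sphere] at hl hl'
    have p1 := natAbs_sum_parity l l'
    have p2 := natAbs_sum_le l l'
    have p3 := nrm_natAbs (l - l')
    exact sub_eq_zero.1 (key _ (Int.even_iff.2 (by omega)) (by omega)
      (by rw [lin_sub, e, sub_self]))
  have hinj' : Function.Injective fun i => (a i : ZMod n) := fun i j e => by
    have p1 := natAbs_sum_parity (Pi.single i 1) (Pi.single j (1 : ℤ))
    have p2 := natAbs_sum_le (Pi.single i 1) (Pi.single j (1 : ℤ))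
    have p3 := nrm_natAbs (Pi.single i 1 - Pi.single j (1 : ℤ))
    have p4 : ∀ i : Fin (k + 2), ∑ j, ((Pi.single i 1 : Fin (k + 2) → ℤ) j).natAbs = 1 :=
      fun i => by simp [Pi.single_apply, apply_ite Int.natAbs]
    rw [p4, p4] at p1 p2
    have := key _ (Int.even_iff.2 (by omega)) (by omega) (show lin _
      (Pi.single i 1 - Pi.single j (1 : ℤ)) = 0 by
        rw [lin_sub]; simpa [lin, Pi.single_apply, sub_eq_zero] using e)
    by_contra hne
    simpa [hne] using congrFun this i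
  have hmn : k + 2 ≤ n := by simpa using Fintype.card_le_of_injective _ hinj'
  rw [nu_lt_iff hmn]
  intro hlt
  have := hlt _ hinj'
  rw [card_image_of_injOn hinj, card_sphere _ _ (by omega)] at this
  exact absurd (this.trans_le (min_le_right _ _)) (lt_irrefl _)

end Pool.Agent.P.MP_c862d8_co
end
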