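import Mathlib
import Pool.Agent.K.MP_c862d8_co.C0

-- part Pool.Agent.P.MP_c862d8_co.WinA
section

/-! Lattices that avoid two parity boxes. -/

namespace Pool.Agent.P.MP_c862d8_co

/-- odd numbers of size below `X` and even numbers of size below `X'` -/
def Gap (X X' w : ℤ) : Prop :=
  (w % 2 = 1 ∧ -X < w ∧ w < X) ∨ (w % 2 = 0 ∧ -X' < w ∧ w < X')

/-- the two families -/
def Fam (n t : ℤ) : Prop :=
  ∃ p q k : ℤ, 0 < p ∧ 0 < q ∧ p % 2 = 0 ∧ q % 2 = 1 ∧ IsCoprime p t ∧ IsCoprime q t ∧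
    ((0 ≤ k ∧ n = 2 * k * p * q + (p + q) * t) ∨
      (0 < k ∧ t ≤ q ∧ n = 2 * k * p * q + (q - p) * t))

lemma level (c j0 ε : ℤ) (hc : 0 < c) :
    ∃ i j : ℤ, i % 2 = ε % 2 ∧ c * i = j0 + j ∧ -c < j ∧ j ≤ c := by
  have h2 : (0 : ℤ) < 2 * c := by omega
  have f1 := Int.emod_nonneg (c * ε - j0 + c - 1) h2.ne'
  have f2 := Int.emod_lt_of_pos (c * ε - j0 + c - 1) h2
  have f3 := Int.emod_add_mul_ediv (c * ε - j0 + c - 1) (2 * c)
  generalize (c * ε - j0 + c - 1) % (2 * c) = r at *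
  generalize (c * ε - j0 + c - 1) / (2 * c) = m at *
  exact ⟨ε - 2 * m, r - c + 1, by omega, by linear_combination -f3, by omega, by omega⟩

lemma par_mul (a b : ℤ) : (a * b) % 2 = 1 ↔ a % 2 = 1 ∧ b % 2 = 1 := by
  rw [Int.mul_emod]
  rcases Int.emod_two_eq_zero_or_one a with h | h <;>
    rcases Int.emod_two_eq_zero_or_one b with h' | h' <;> simp [h, h']

lemma cop_shift {r v t : ℤ} (h : IsCoprime r v) (m : ℤ) (e : v = t + m * r ∨ v = -t + m * r) :
    IsCoprime r t := by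
  obtain ⟨a, b, hab⟩ := h
  rcases e with e | e
  · exact ⟨a + b * m, b, by rw [e] at hab; linear_combination hab⟩
  · exact ⟨a + b * m, -b, by rw [e] at hab; linear_combination hab⟩

lemma cop_pos {r t : ℤ} (h : IsCoprime r t) (ht : 3 ≤ t) (hr : 0 ≤ r) : 0 < r := by
  rcases hr.eq_or_lt with rfl | hr
  · rcases Int.isUnit_iff.1 (isCoprime_zero_left.1 h) with h | h <;> omega
  · exact hr

lemma box {c z X e : ℤ} (hc : 0 < c) (h : c * z = e) (h1 : -(c * X) < e) (h2 : e < c * X) :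
    -X < z ∧ z < X :=
  ⟨lt_of_mul_lt_mul_left (a := c) (by linarith) hc.le,
    lt_of_mul_lt_mul_left (a := c) (by linarith) hc.le⟩

lemma fam_one {n t r s k : ℤ} (hn : n % 2 = 1) (ht : 3 ≤ t) (hr : 0 ≤ r) (hs : 0 ≤ s) (hk : 0 ≤ k)
    (c1 : IsCoprime r t) (c2 : IsCoprime s t) (e : n = 2 * k * r * s + (r + s) * t) : Fam n t := by
  have h1 := cop_pos c1 ht hr
  have h2 := cop_pos c2 ht hs
  have h3 := par_mul (r + s) t
  have h4 : n = 2 * (k * r * s) + (r + s) * t := by linear_combination e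
  by_cases hp : r % 2 = 0
  · exact ⟨r, s, k, h1, h2, hp, by omega, c1, c2, Or.inl ⟨hk, e⟩⟩
  · exact ⟨s, r, k, h2, h1, by omega, by omega, c2, c1, Or.inl ⟨hk, by linear_combination e⟩⟩

lemma bnd {m j r : ℤ} (hr : 0 ≤ r) (h1 : -m ≤ j) (h2 : j ≤ m) :
    -(m * r) ≤ j * r ∧ j * r ≤ m * r :=
  ⟨by nlinarith, mul_le_mul_of_nonneg_right h2 hr⟩

lemma box' {c z X j r : ℤ} (hc : 2 ≤ c) (hr : 0 ≤ r) (hX : r < X) (h1 : -(c - 1) ≤ j)
    (h2 : j ≤ c - 1) (h : c * z = X + j * r) : -X < z ∧ z < X := by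
  have b := bnd hr h1 h2
  have d : (c - 1) * r < (c - 1) * X := mul_lt_mul_of_pos_left hX (by omega)
  exact box (by omega) h (by linarith [b.1]) (by linarith [b.2])

lemma odd_rep {c : ℤ} (h : c % 2 = 1) : ∃ d, c = 2 * d + 1 := ⟨c / 2, by omega⟩

lemma even_rep {c : ℤ} (h : c % 2 = 0) : ∃ d, c = 2 * d := ⟨c / 2, by omega⟩

/-- the corner of the box is a lattice point -/
lemma case_one {n t r s k v1 v2 c j0 : ℤ} (n0 : 0 < n) (hn : n % 2 = 1) (ht : 3 ≤ t)
    (hr : 0 ≤ r) (hs : 0 ≤ s) (hk : 0 < k) (hd : r * v2 + s * v1 = n) (c1 : IsCoprime r v1)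
    (c2 : IsCoprime s v2) (z1 : t + k * r = j0 * r + c * v1) (z2 : t + k * s = -(j0 * s) + c * v2)
    (ho : (t + k * r) % 2 = 1)
    (fr : ∀ i j : ℤ, (i * r + j * v1) % 2 = 1 → (-(i * s) + j * v2) % 2 = (t + k * s) % 2 →
      -(t + k * r) < i * r + j * v1 → i * r + j * v1 < t + k * r →
      -(t + k * s) < -(i * s) + j * v2 → -(i * s) + j * v2 < t + k * s → False) : Fam n t := by
  have e : c * n = 2 * k * r * s + (r + s) * t := by
    linear_combination -c * hd - r * z2 - s * z1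
  have a1 : r ≤ k * r := le_mul_of_one_le_left hr hk
  have a2 : s ≤ k * s := le_mul_of_one_le_left hs hk
  have a3 : 0 < r + s := by
    by_contra a
    obtain rfl : r = 0 := by omega
    obtain rfl : s = 0 := by omega
    omega
  have a4 : 0 < c := by
    have b1 : 0 ≤ 2 * k * r * s := by positivity
    have b2 : 0 < (r + s) * t := by positivity
    exact pos_of_mul_pos_left (b := n) (by linarith) n0.le
  have a5 : c % 2 = 1 := by
    by_contra hc
    obtain ⟨d, rfl⟩ := even_rep (c := c) (by omega)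
    have p0 : (j0 * r) % 2 = 1 := by
      have : j0 * r = t + k * r - 2 * (d * v1) := by linear_combination -z1
      omega
    obtain ⟨p1, p2⟩ := (par_mul j0 r).1 p0
    obtain ⟨m, rfl⟩ := odd_rep p1
    have : t + k * s = -s + 2 * (d * v2 - m * s) := by linear_combination z2
    exact fr 1 0 (by omega) (by omega) (by omega) (by omega) (by omega) (by omega)
  by_cases h1 : c = 1
  · subst h1
    exact fam_one hn ht hr hs hk.le (cop_shift c1 (k - j0) (Or.inl (by linear_combination -z1)))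
      (cop_shift c2 (k + j0) (Or.inl (by linear_combination -z2))) (by linear_combination e)
  exfalso
  obtain ⟨i, j, g1, g2, g3, g4⟩ := level c j0 j0 a4
  obtain ⟨m, rfl⟩ : ∃ m, i = j0 + 2 * m := ⟨(i - j0) / 2, by omega⟩
  obtain ⟨d, hc⟩ := odd_rep a5
  have g5 : j = 2 * (d * j0 + c * m) := by rw [hc] at g2 ⊢; linear_combination -g2
  have b1 := box' (z := (j0 + 2 * m) * r + 1 * v1) (X := t + k * r) (j := j) (r := r) (c := c)
    (by omega) hr (by omega) (by omega) (by omega) (by linear_combination -z1 + r * g2)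
  have b2 := box' (z := -((j0 + 2 * m) * s) + 1 * v2) (X := t + k * s) (j := -j) (r := s) (c := c)
    (by omega) hs (by omega) (by omega) (by omega) (by linear_combination -z2 - s * g2)
  have q1 : (j0 + 2 * m) * r + 1 * v1 = t + k * r + 2 * (m * r - d * v1) := by
    rw [hc] at z1; linear_combination -z1
  have q2 : -((j0 + 2 * m) * s) + 1 * v2 = t + k * s + 2 * (-(m * s) - d * v2) := by
    rw [hc] at z2; linear_combination -z2
  exact fr _ 1 (by omega) (by omega) b1.1 b1.2 b2.1 b2.2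

/-- the lattice contains the diagonal corner -/
lemma case_zero {n t r k v1 v2 : ℤ} (n0 : 0 < n) (hn : n % 2 = 1) (ht : 3 ≤ t) (tod : t % 2 = 1)
    (hk : 0 < k) (e : t = k * r) (hd : r * v2 - r * v1 = n) (c1 : IsCoprime r v1)
    (c2 : IsCoprime r v2)
    (fr : ∀ i j : ℤ, Gap t 0 (i * r + j * v1) → Gap t 0 (i * r + j * v2) → False) : Fam n t := by
  have r0 : 0 < r := pos_of_mul_pos_right (a := k) (by omega) hk.le
  have r1 := ((par_mul k r).1 (by omega)).2
  have k1 : k = 1 := by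
    by_contra a
    have : 2 * r ≤ k * r := mul_le_mul_of_nonneg_right (by omega) r0.le
    exact fr 1 0 (Or.inl (by omega)) (Or.inl (by omega))
  subst k1
  obtain rfl : r = t := by omega
  have f1 := Int.emod_nonneg (-v1) r0.ne'
  have f2 := Int.emod_lt_of_pos (-v1) r0
  have f3 := Int.emod_add_mul_ediv (-v1) r
  generalize -v1 % r = a at *
  generalize -v1 / r = m at *
  have d1 : IsCoprime a r := by
    obtain ⟨x, y, hxy⟩ := c1
    exact ⟨-y, x - y * m, by linear_combination hxy - y * f3⟩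
  have d2 : IsCoprime (v2 + m * r) r := by
    obtain ⟨x, y, hxy⟩ := c2
    exact ⟨y, x - y * m, by linear_combination hxy⟩
  have a0 := cop_pos d1 ht f1
  have a1 : 0 < v2 - v1 := pos_of_mul_pos_right (a := r) (by linarith) r0.le
  have a2 : 0 ≤ v2 + m * r := by
    by_contra a2
    have q1 : (2 * m + 1) * r + 2 * v1 = r - 2 * a := by linear_combination 2 * f3
    have q2 : (2 * m + 1) * r + 2 * v2 = r + 2 * (v2 + m * r) := by ring
    have q3 : v2 + m * r = v2 - v1 - a := by linear_combination f3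
    exact fr (2 * m + 1) 2 (Or.inl (by omega)) (Or.inl (by omega))
  exact fam_one (k := 0) hn ht f1 a2 le_rfl d1 d2 (by linear_combination -hd - r * f3)

/-- both short vectors point into the same quadrant -/
lemma case_two {n t p q k v1 v2 c j0 : ℤ} (n0 : 0 < n) (hn : n % 2 = 1) (tod : t % 2 = 1)
    (ht : 3 ≤ t) (hp : 0 < p) (hq : 0 < q) (hk : 2 ≤ k) (ke : k % 2 = 0)
    (hd : q * v1 - p * v2 = n) (c1 : IsCoprime p v1) (c2 : IsCoprime q v2)
    (z1 : t + k * p = j0 * p + c * v1) (z2 : t - k * q = j0 * q + c * v2)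
    (fr : ∀ i j : ℤ, Gap (t + k * p) (-(k * p)) (i * p + j * v1) →
      Gap (t - k * q) (k * q) (i * q + j * v2) → False) : Fam n t := by
  have e : c * n = 2 * k * p * q + (q - p) * t := by
    linear_combination -c * hd - q * z1 + p * z2
  have a1 : 2 * p ≤ k * p := mul_le_mul_of_nonneg_right hk hp.le
  have a2 : 2 * q ≤ k * q := mul_le_mul_of_nonneg_right hk hq.le
  obtain ⟨l, hl⟩ := even_rep ke
  have a3 : k * p = 2 * (l * p) := by rw [hl]; ring
  have a4 : k * q = 2 * (l * q) := by rw [hl]; ring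
  have qo : q % 2 = 1 := by
    by_contra a
    obtain ⟨m, hm⟩ := even_rep (c := q) (by omega)
    have b : p * v2 = 2 * (m * v1) - n := by rw [hm] at hd; linear_combination -hd
    have := ((par_mul p v2).1 (by omega)).1
    exact fr 1 0 (Or.inl (by omega)) (Or.inr (by omega))
  have a5 : p % 2 = 0 → t ≤ q := fun pe => by
    by_contra a
    have q1 : (j0 - 1) * p + c * v1 = t + k * p - p := by linear_combination -z1
    have q2 : (j0 - 1) * q + c * v2 = t - k * q - q := by linear_combination -z2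
    have q3 : (j0 - k) * p + c * v1 = t := by linear_combination -z1
    have q4 : (j0 - k) * q + c * v2 = t - 2 * (k * q) := by linear_combination -z2
    by_cases b : t - k * q - q < k * q
    · exact fr (j0 - 1) c (Or.inl (by omega)) (Or.inr (by omega))
    · exact fr (j0 - k) c (Or.inl (by omega)) (Or.inl (by omega))
  have a6 : t - k * q ≤ q := by
    by_contra a
    exact fr 1 0 (Or.inl (by omega)) (Or.inl (by omega))
  have a7 : 0 < c := by
    have b1 : p * (t - k * q) ≤ p * q := mul_le_mul_of_nonneg_left a6 hp.le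
    have b2 : q * (2 * p) ≤ q * (k * p) := mul_le_mul_of_nonneg_left a1 hq.le
    have b3 : 0 < q * t := by positivity
    have b4 : 0 < p * q := by positivity
    exact pos_of_mul_pos_left (b := n) (by linarith) n0.le
  by_cases h1 : c = 1
  · subst h1
    have b : (q - p) * t = n - 2 * (k * p * q) := by linear_combination -e
    have pe : p % 2 = 0 := by
      have := ((par_mul (q - p) t).1 (by omega)).1
      omega
    exact ⟨p, q, k, hp, hq, pe, qo, cop_shift c1 (k - j0) (Or.inl (by linear_combination -z1)),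
      cop_shift c2 (-k - j0) (Or.inl (by linear_combination -z2)),
      Or.inr ⟨by omega, a5 pe, by linear_combination e⟩⟩
  exfalso
  obtain ⟨i, j, g1, g2, g3, g4⟩ := level c j0 v2 a7
  have p2 : (i * q + 1 * v2) % 2 = 0 := by
    have := par_mul i q
    omega
  have p1 : (i * p + 1 * v1) % 2 = 1 := by
    obtain ⟨m, hm⟩ := even_rep p2
    have b : (i * p + 1 * v1) * q = n + 2 * (m * p) := by linear_combination hd + p * hm
    exact ((par_mul _ q).1 (by omega)).1
  have c2 : 2 ≤ c := by omega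
  have u1 := bnd hp.le g3.le g4
  have u2 := bnd hq.le g3.le g4
  have u3 : 0 ≤ (c - 2) * p := mul_nonneg (by omega) hp.le
  have u4 : (c - 1) * (2 * p + 1) ≤ (c - 1) * (t + k * p) :=
    mul_le_mul_of_nonneg_left (by omega) (by omega)
  have b1 := box (z := i * p + 1 * v1) (X := t + k * p) (e := t + k * p + j * p) a7
    (by linear_combination -z1 + p * g2) (by linarith [u1.1]) (by linarith [u1.2])
  have u5 : c * (2 * q) ≤ c * (k * q) := mul_le_mul_of_nonneg_left a2 a7.le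
  have u6 : 2 * q ≤ c * q := mul_le_mul_of_nonneg_right c2 hq.le
  have u7 : (c - 1) * (2 * q) ≤ (c - 1) * (k * q) := mul_le_mul_of_nonneg_left a2 (by omega)
  have b2 := box (z := i * q + 1 * v2) (X := k * q) (e := t - k * q + j * q) a7
    (by linear_combination -z2 + q * g2) (by linarith [u2.1]) (by linarith [u2.2])
  exact fr i 1 (Or.inl ⟨p1, b1⟩) (Or.inr ⟨p2, b2⟩)

/-- a multiple of a short vector lies on the side of the box -/
lemma case_three {n t p q k v1 v2 c j0 : ℤ} (n0 : 0 < n) (hn : n % 2 = 1) (tod : t % 2 = 1)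
    (ht : 3 ≤ t) (hp : 0 < p) (hq : 0 < q) (hk : 0 < k) (ho : (k * q) % 2 = 1)
    (he : (k * p) % 2 = 0) (ha : t < k * q)
    (hd : q * v2 + p * v1 = n) (c1 : IsCoprime q v1) (c2 : IsCoprime p v2)
    (z1 : k * q - t = j0 * q + c * v1) (z2 : t + k * p = -(j0 * p) + c * v2)
    (fr : ∀ i j : ℤ, (i * q + j * v1) % 2 = 1 → (-(i * p) + j * v2) % 2 = 1 →
      -(k * q) < i * q + j * v1 → i * q + j * v1 < k * q →
      -(t + k * p) < -(i * p) + j * v2 → -(i * p) + j * v2 < t + k * p → False) : Fam n t := by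
  have e : c * n = 2 * k * p * q + (q - p) * t := by
    linear_combination -c * hd - q * z2 - p * z1
  have a1 : p ≤ k * p := le_mul_of_one_le_left hp.le hk
  have a2 : q ≤ k * q := le_mul_of_one_le_left hq.le hk
  obtain ⟨ko, qo⟩ := (par_mul k q).1 ho
  have pe : p % 2 = 0 := by
    have := par_mul k p
    omega
  have a3 : t ≤ q := by
    by_contra a
    have q1 : (j0 + 1) * q + c * v1 = k * q - t + q := by linear_combination -z1
    have q2 : -((j0 + 1) * p) + c * v2 = t + k * p - p := by linear_combination -z2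
    exact fr (j0 + 1) c (by omega) (by omega) (by omega) (by omega) (by omega) (by omega)
  have a4 : 0 < c := by
    have b1 : 0 < p * (k * q - t) := mul_pos hp (by omega)
    have b2 : 0 < q * (t + k * p) := mul_pos hq (by omega)
    exact pos_of_mul_pos_left (b := n) (by linarith) n0.le
  have a5 : c % 2 = 1 := by
    have b1 : c * n = 2 * (k * p * q) + (q - p) * t := by linear_combination e
    have b2 := (par_mul (q - p) t).2 ⟨by omega, tod⟩
    exact ((par_mul c n).1 (by omega)).1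
  by_cases h1 : c = 1
  · subst h1
    exact ⟨p, q, k, hp, hq, pe, qo, cop_shift c2 (k + j0) (Or.inl (by linear_combination -z2)),
      cop_shift c1 (k - j0) (Or.inr (by linear_combination -z1)),
      Or.inr ⟨hk, a3, by linear_combination e⟩⟩
  obtain ⟨i, j, g1, g2, g3, g4⟩ := level c j0 (v1 + 1) a4
  have p1 : (i * q + 1 * v1) % 2 = 1 := by
    have := par_mul i q
    omega
  have p2 : (-(i * p) + 1 * v2) % 2 = 1 := by
    obtain ⟨m, hm⟩ := even_rep pe
    have b : (-(i * p) + 1 * v2) * q = n - 2 * (m * (i * q + v1)) := by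
      rw [hm] at hd ⊢; linear_combination hd
    exact ((par_mul _ q).1 (by omega)).1
  have w1 : c * (i * q + 1 * v1) = k * q - t + j * q := by linear_combination -z1 + q * g2
  have w2 : c * (-(i * p) + 1 * v2) = t + k * p + -j * p := by linear_combination -z2 - p * g2
  have jo : j % 2 = 1 := by
    have b := (par_mul c _).2 ⟨a5, p1⟩
    exact ((par_mul j q).1 (by omega)).1
  have c3 : 3 ≤ c := by omega
  by_cases hj : j ≤ c - 2
  · exfalso
    have u1 := bnd (m := c - 1) (j := j) hq.le (by omega) (by omega)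
    have u2 : (c - 1) * q ≤ (c - 1) * (k * q) := mul_le_mul_of_nonneg_left a2 (by omega)
    have b1 := box (X := k * q) a4 w1 (by linarith [u1.1]) (by linarith [u1.2])
    have b2 := box' (c := c) (by omega) hp.le (by omega) (by omega) (by omega) w2
    exact fr i 1 p1 p2 b1.1 b1.2 b2.1 b2.2
  obtain rfl : j = c := by omega
  have k1 : k = 1 := by
    by_contra a
    have u1 : 3 * q ≤ k * q := mul_le_mul_of_nonneg_right (by omega) hq.le
    have u2 : (j - 1) * (3 * q) ≤ (j - 1) * (k * q) := mul_le_mul_of_nonneg_left u1 (by omega)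
    have u3 : 3 * q ≤ j * q := mul_le_mul_of_nonneg_right c3 hq.le
    have u4 : 0 ≤ j * (k * q) := by positivity
    have u5 : 0 ≤ j * p := by positivity
    have u6 : j * p ≤ j * (t + k * p) := mul_le_mul_of_nonneg_left (by omega) a4.le
    have u7 : 3 * (t + k * p) ≤ j * (t + k * p) := mul_le_mul_of_nonneg_right c3 (by omega)
    have b1 := box (X := k * q) a4 w1 (by linarith) (by linarith)
    have b2 := box (X := t + k * p) a4 w2 (by linarith) (by linarith)
    exact fr i 1 p1 p2 b1.1 b1.2 b2.1 b2.2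
  subst k1
  obtain ⟨p', hp'⟩ : ∃ p', p' = i * q + 1 * v1 - q := ⟨_, rfl⟩
  obtain ⟨q', hq'⟩ : ∃ q', q' = -(i * p) + 1 * v2 + p := ⟨_, rfl⟩
  have y1 : j * p' = q - t := by rw [hp']; linear_combination w1
  have y2 : j * q' = t + p := by rw [hq']; linear_combination w2
  have y3 : 0 < p' := pos_of_mul_pos_right (a := j) (by omega) a4.le
  have y4 : 0 < q' := pos_of_mul_pos_right (a := j) (by omega) a4.le
  have y5 : p' ≤ j * p' := le_mul_of_one_le_left y3.le a4
  have y6 : t ≤ q' := by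
    by_contra a
    have q1 : (2 - i) * q + -1 * v1 = q - p' := by rw [hp']; ring
    have q2 : -((2 - i) * p) + -1 * v2 = -p - q' := by rw [hq']; ring
    exact fr (2 - i) (-1) (by omega) (by omega) (by omega) (by omega) (by omega) (by omega)
  obtain ⟨x, y, hxy⟩ := c1
  obtain ⟨x', y', hxy'⟩ := c2
  refine ⟨p', q', j, y3, y4, by omega, by omega,
    ⟨y + (x + y * (1 - i)) * j, x + y * (1 - i), ?_⟩,
    ⟨y' + (x' + y' * (i - 1)) * j, -(x' + y' * (i - 1)), ?_⟩, Or.inr ⟨a4, y6, ?_⟩⟩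
  · linear_combination hxy + y * hp' + (x + y * (1 - i)) * y1
  · linear_combination hxy' + y' * hq' + (x' + y' * (i - 1)) * y2
  · linear_combination -hd - q * hq' - p * hp' - q' * y1 - p' * y2

end Pool.Agent.P.MP_c862d8_co
end

-- part Pool.Agent.P.MP_c862d8_co.WinB
section

/-! The classification of the lattices that avoid the boxes. -/

namespace Pool.Agent.P.MP_c862d8_co

/-- a basis of determinant `n` with both projections onto -/
structure Bs (n e1 e2 f1 f2 : ℤ) : Prop where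
  det : e1 * f2 - e2 * f1 = n
  c1 : IsCoprime e1 f1
  c2 : IsCoprime e2 f2

/-- membership in the lattice -/
def In (e1 e2 f1 f2 w w' : ℤ) : Prop := ∃ i j : ℤ, w = i * e1 + j * f1 ∧ w' = i * e2 + j * f2

/-- the lattice avoids the boxes -/
def Fr (e1 e2 f1 f2 X X' Y Y' : ℤ) : Prop :=
  ∀ w w', In e1 e2 f1 f2 w w' → Gap X X' w → Gap Y Y' w' → False

variable {n e1 e2 f1 f2 w w' z z' t X X' Y Y' : ℤ}

lemma In.comb (h : In e1 e2 f1 f2 w w') (h' : In e1 e2 f1 f2 z z') (a b : ℤ) {u u' : ℤ}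
    (e : u = a * w + b * z) (e' : u' = a * w' + b * z') : In e1 e2 f1 f2 u u' := by
  obtain ⟨i, j, rfl, rfl⟩ := h
  obtain ⟨i', j', rfl, rfl⟩ := h'
  exact ⟨a * i + b * i', a * j + b * j', by rw [e]; ring, by rw [e']; ring⟩

lemma In.half (B : Bs n e1 e2 f1 f2) (hn : n % 2 = 1) (h : In e1 e2 f1 f2 (2 * w) (2 * w')) :
    In e1 e2 f1 f2 w w' := by
  obtain ⟨i, j, h1, h2⟩ := h
  have a1 : i * n = 2 * (w * f2 - w' * f1) := by linear_combination -i * B.det - f2 * h1 + f1 * h2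
  have a2 : j * n = 2 * (w' * e1 - w * e2) := by linear_combination -j * B.det + e2 * h1 - e1 * h2
  have b1 := par_mul i n
  have b2 := par_mul j n
  obtain ⟨i, rfl⟩ := even_rep (c := i) (by omega)
  obtain ⟨j, rfl⟩ := even_rep (c := j) (by omega)
  exact ⟨i, j, by linarith, by linarith⟩

lemma In.axis1 (B : Bs n e1 e2 f1 f2) (h : In e1 e2 f1 f2 w 0) (h1 : -n < w) (h2 : w < n) :
    w = 0 := by
  obtain ⟨i, j, a1, a2⟩ := h
  obtain ⟨a, b, hab⟩ := B.c2
  refine Int.eq_zero_of_abs_lt_dvd (m := n) ⟨b * i - a * j, ?_⟩ (abs_lt.2 ⟨h1, h2⟩)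
  linear_combination -w * hab + (a * e2 + b * f2) * a1 - (a * e1 + b * f1) * a2 +
    (b * i - a * j) * B.det

lemma Bs.swap (B : Bs n e1 e2 f1 f2) : Bs n f2 f1 e2 e1 :=
  ⟨by linear_combination B.det, B.c2.symm, B.c1.symm⟩

lemma In.swap (h : In e1 e2 f1 f2 w w') : In f2 f1 e2 e1 w' w := by
  obtain ⟨i, j, a1, a2⟩ := h
  exact ⟨j, i, by linear_combination a2, by linear_combination a1⟩

lemma Bs.flip (B : Bs n e1 e2 f1 f2) : Bs n f1 (-f2) e1 (-e2) :=
  ⟨by linear_combination B.det, B.c1.symm, B.c2.symm.neg_neg⟩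

lemma In.flip (h : In e1 e2 f1 f2 w w') : In f1 (-f2) e1 (-e2) w (-w') := by
  obtain ⟨i, j, a1, a2⟩ := h
  exact ⟨j, i, by linear_combination a1, by linear_combination -a2⟩

lemma Gap.neg (h : Gap X X' w) : Gap X X' (-w) := by
  unfold Gap at *
  omega

lemma Fr.swap (h : Fr e1 e2 f1 f2 X X' Y Y') : Fr f2 f1 e2 e1 Y Y' X X' :=
  fun _ _ a b c => h _ _ a.swap c b

lemma Fr.flip (h : Fr e1 e2 f1 f2 X X' Y Y') : Fr f1 (-f2) e1 (-e2) X X' Y Y' :=
  fun _ _ a b c => h _ _ (by simpa only [neg_neg] using a.flip) b c.neg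

lemma In.axis2 (B : Bs n e1 e2 f1 f2) (h : In e1 e2 f1 f2 0 w) (h1 : -n < w) (h2 : w < n) :
    w = 0 := h.swap.axis1 B.swap h1 h2

/-- a basis whose first vector divides a given vector -/
lemma adapt (B : Bs n e1 e2 f1 f2) (h : In e1 e2 f1 f2 z z') (h0 : z ≠ 0 ∨ z' ≠ 0) :
    ∃ k u1 u2 v1 v2 : ℤ, 0 < k ∧ z = k * u1 ∧ z' = k * u2 ∧ Bs n u1 u2 v1 v2 ∧
      ∀ w w', In e1 e2 f1 f2 w w' ↔ In u1 u2 v1 v2 w w' := by
  obtain ⟨i, j, a1, a2⟩ := h
  have g0 : 0 < Int.gcd i j := Int.gcd_pos_iff.2 (by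
    by_contra a
    push Not at a
    rw [a.1, a.2] at a1 a2
    omega)
  obtain ⟨g, i', j', g1, g2, rfl, rfl⟩ := Int.exists_gcd_one' g0
  obtain ⟨a, b, hab⟩ := Int.isCoprime_iff_gcd_eq_one.2 g2
  obtain ⟨x, y, hxy⟩ := B.c1
  obtain ⟨x', y', hxy'⟩ := B.c2
  refine ⟨g, i' * e1 + j' * f1, i' * e2 + j' * f2, -b * e1 + a * f1, -b * e2 + a * f2,
    by exact_mod_cast g1, by linear_combination a1, by linear_combination a2,
    ⟨by linear_combination B.det + (e1 * f2 - e2 * f1) * hab,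
      ⟨x * a + y * b, -x * j' + y * i', by linear_combination hxy + (x * e1 + y * f1) * hab⟩,
      ⟨x' * a + y' * b, -x' * j' + y' * i', by
        linear_combination hxy' + (x' * e2 + y' * f2) * hab⟩⟩, fun w w' => ⟨?_, ?_⟩⟩
  · rintro ⟨c, d, rfl, rfl⟩
    exact ⟨c * a + d * b, -c * j' + d * i', by linear_combination -(c * e1 + d * f1) * hab,
      by linear_combination -(c * e2 + d * f2) * hab⟩
  · rintro ⟨c, d, rfl, rfl⟩
    exact ⟨c * i' - d * b, c * j' + d * a, by ring, by ring⟩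

lemma neg_of_mul {k u : ℤ} (hk : 0 < k) (h : k * u ≤ 0) : 0 ≤ -u := by
  by_contra a
  have := mul_pos hk (show 0 < u by omega)
  omega

lemma pos_of_mul {k u : ℤ} (hk : 0 < k) (h : 0 ≤ k * u) : 0 ≤ u := by
  have := neg_of_mul (u := -u) hk (by linarith)
  omega

lemma core_pos (B : Bs n e1 e2 f1 f2) (n0 : 0 < n) (hn : n % 2 = 1) (ht : 3 ≤ t)
    (tod : t % 2 = 1) (hX : X + X' = t) (hY : Y + Y' = t) (pX : X' % 2 = 0) (pY : Y' % 2 = 0)
    (b1 : X < n) (b2 : Y < n) (b3 : -n < Y) (b4 : Y' < n) (x0 : X' ≤ 0)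
    (h1 : In e1 e2 f1 f2 (X - X') t)
    (h2 : In e1 e2 f1 f2 t (Y - Y') ∨ In e1 e2 f1 f2 t (-(Y - Y')))
    (fr : Fr e1 e2 f1 f2 X X' Y Y') : Fam n t := by
  rcases h2 with h2 | h2
  · have s1 : In e1 e2 f1 f2 X Y := (h1.comb h2 1 1 (by omega) (by omega)).half B hn
    have s2 : In e1 e2 f1 f2 (-X') Y' := (h1.comb h2 1 (-1) (by omega) (by omega)).half B hn
    by_cases z : X' = 0 ∧ Y' = 0
    · obtain ⟨rfl, rfl⟩ := z
      obtain rfl : X = t := by omega
      obtain rfl : Y = X := by omega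
      obtain ⟨k, u1, u2, v1, v2, k0, a1, a2, B', e⟩ := adapt B s1 (Or.inl (by omega))
      obtain rfl : u2 = u1 := mul_left_cancel₀ k0.ne' (a2.symm.trans a1)
      exact case_zero n0 hn ht tod k0 a1 B'.det B'.c1 B'.c2 fun i j =>
        fr _ _ ((e _ _).2 ⟨i, j, rfl, rfl⟩)
    obtain ⟨k, u1, u2, v1, v2, k0, a1, a2, B', e⟩ := adapt B s2 (by omega)
    obtain ⟨j0, c, z1, z2⟩ := (e _ _).1 s1
    have u0 : 0 ≤ u1 := pos_of_mul k0 (by omega)
    have hd := B'.det
    by_cases y0 : Y' ≤ 0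
    · refine case_one (r := u1) (s := -u2) (k := k) (c := c) (j0 := j0) n0 hn ht u0
        (neg_of_mul k0 (by omega)) k0 (by linear_combination hd) B'.c1 B'.c2.neg_left
        (by omega) (by linear_combination z2 - hY + a2) (by omega) fun i j g1 g2 g3 g4 g5 g6 => ?_
      have q1 : k * -u2 = -(k * u2) := by ring
      have q2 : -(i * -u2) = i * u2 := by ring
      exact fr _ _ ((e _ _).2 ⟨i, j, rfl, rfl⟩) (Or.inl (by omega)) (Or.inl (by omega))
    have q0 : 0 < u2 := pos_of_mul_pos_right (a := k) (by omega) k0.le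
    have p0 : 0 < u1 := by
      by_contra a
      obtain rfl : u1 = 0 := by omega
      obtain rfl : X' = 0 := by omega
      have := In.axis2 B (w := Y') (by simpa using s2) (by omega) b4
      omega
    have ke : k % 2 = 0 := by
      by_contra a
      have p1 := par_mul k u1
      have p2 := par_mul k u2
      obtain ⟨m1, rfl⟩ := even_rep (c := u1) (by omega)
      obtain ⟨m2, rfl⟩ := even_rep (c := u2) (by omega)
      have : n = 2 * (m1 * v2 - m2 * v1) := by linear_combination -hd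
      omega
    refine case_two (p := u1) (q := u2) (k := k) (v1 := -v1) (v2 := -v2) (c := -c) (j0 := j0) n0
      hn tod ht p0 q0 (by omega) ke (by linear_combination hd) B'.c1.neg_right B'.c2.neg_right
      (by linear_combination z1 - hX - a1) (by linear_combination z2 - hY + a2)
      fun i j g1 g2 => ?_
    refine fr (i * u1 + j * -v1) (i * u2 + j * -v2) ((e _ _).2 ⟨i, -j, by ring, by ring⟩) ?_ ?_
    · rwa [show X = t + k * u1 by omega, show X' = -(k * u1) by omega]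
    · rwa [show Y = t - k * u2 by omega, a2]
  · have s1 : In e1 e2 f1 f2 X Y' := (h1.comb h2 1 1 (by omega) (by omega)).half B hn
    have s2 : In e1 e2 f1 f2 (-X') Y := (h1.comb h2 1 (-1) (by omega) (by omega)).half B hn
    have x1 : X' < 0 := by
      by_contra a
      obtain rfl : X' = 0 := by omega
      have := In.axis2 B (w := Y) (by simpa using s2) b3 b2
      omega
    by_cases y0 : Y < 0
    · obtain ⟨k, u1, u2, v1, v2, k0, a1, a2, B', e⟩ := adapt B s2 (by omega)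
      obtain ⟨j0, c, z1, z2⟩ := (e _ _).1 s1
      have hd := B'.det
      refine case_one (r := u1) (s := -u2) (k := k) (c := c) (j0 := j0) n0 hn ht
        (pos_of_mul k0 (by omega)) (neg_of_mul k0 (by omega)) k0 (by linear_combination hd) B'.c1
        B'.c2.neg_left (by omega) (by linear_combination z2 - hY + a2) (by omega)
        fun i j g1 g2 g3 g4 g5 g6 => ?_
      have q1 : k * -u2 = -(k * u2) := by ring
      have q2 : -(i * -u2) = i * u2 := by ring
      exact fr _ _ ((e _ _).2 ⟨i, j, rfl, rfl⟩) (Or.inl (by omega)) (Or.inr (by omega))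
    by_cases y1 : 0 < Y'
    · exfalso
      by_cases y2 : Y' < 2 * Y
      · exact fr _ _ h2 (Or.inl (by omega)) (Or.inl (by omega))
      · exact fr _ _ (s1.comb s2 1 (-2) rfl rfl) (Or.inl (by omega)) (Or.inr (by omega))
    have y2 : Y' < 0 := by
      by_contra a
      obtain rfl : Y' = 0 := by omega
      have := In.axis1 B s1 (by omega) b1
      omega
    obtain ⟨k, u1, u2, v1, v2, k0, a1, a2, B', e⟩ := adapt B s1 (by omega)
    obtain ⟨j0, c, z1, z2⟩ := (e _ _).1 s2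
    have hd := B'.det
    have q1 : k * -u2 = -(k * u2) := by ring
    refine case_three (q := u1) (p := -u2) (k := k) (c := c) (j0 := j0) n0 hn tod ht
      (pos_of_mul_pos_right (a := k) (by omega) k0.le)
      (pos_of_mul_pos_right (a := k) (by omega) k0.le) k0 (by omega) (by omega) (by omega)
      (by linear_combination hd) B'.c1 B'.c2.neg_left (by omega)
      (by linear_combination z2 - hY + a2) fun i j g1 g2 g3 g4 g5 g6 => ?_
    have q2 : -(i * -u2) = i * u2 := by ring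
    exact fr _ _ ((e _ _).2 ⟨i, j, rfl, rfl⟩) (Or.inl (by omega)) (Or.inl (by omega))

lemma core_neg (B : Bs n e1 e2 f1 f2) (n0 : 0 < n) (hn : n % 2 = 1) (ht : 3 ≤ t)
    (tod : t % 2 = 1) (hX : X + X' = t) (hY : Y + Y' = t) (pX : X' % 2 = 0) (pY : Y' % 2 = 0)
    (b1 : X < n) (b2 : Y < n) (b3 : -n < Y) (b4 : Y' < n) (x0 : X' ≤ 0)
    (h1 : In e1 e2 f1 f2 (X - X') t ∨ In e1 e2 f1 f2 (X - X') (-t))
    (h2 : In e1 e2 f1 f2 t (Y - Y') ∨ In e1 e2 f1 f2 t (-(Y - Y')))
    (fr : Fr e1 e2 f1 f2 X X' Y Y') : Fam n t := by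
  rcases h1 with h1 | h1
  · exact core_pos B n0 hn ht tod hX hY pX pY b1 b2 b3 b4 x0 h1 h2 fr
  · refine core_pos B.flip n0 hn ht tod hX hY pX pY b1 b2 b3 b4 x0 (by simpa using h1.flip) ?_
      fr.flip
    rcases h2 with h2 | h2
    · exact Or.inr h2.flip
    · exact Or.inl (by simpa only [neg_neg] using h2.flip)

lemma In.pm (h : In e1 e2 f1 f2 w w' ∨ In e1 e2 f1 f2 w (-w')) :
    In f2 f1 e2 e1 w' w ∨ In f2 f1 e2 e1 w' (-w) := by
  rcases h with h | h
  · exact Or.inl h.swap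
  · exact Or.inr (h.comb h (-1) 0 (by ring) (by ring)).swap

/-- a lattice that avoids the boxes belongs to one of the two families -/
theorem core_fam (B : Bs n e1 e2 f1 f2) (n0 : 0 < n) (hn : n % 2 = 1) (ht : 3 ≤ t)
    (tod : t % 2 = 1) (hX : X + X' = t) (hY : Y + Y' = t) (pX : X' % 2 = 0) (pY : Y' % 2 = 0)
    (b1 : X < n) (b2 : Y < n) (b3 : -n < Y) (b4 : Y' < n) (b5 : -n < X) (b6 : X' < n)
    (h1 : In e1 e2 f1 f2 (X - X') t ∨ In e1 e2 f1 f2 (X - X') (-t))
    (h2 : In e1 e2 f1 f2 t (Y - Y') ∨ In e1 e2 f1 f2 t (-(Y - Y')))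
    (fr : Fr e1 e2 f1 f2 X X' Y Y') : Fam n t := by
  by_cases x0 : X' ≤ 0
  · exact core_neg B n0 hn ht tod hX hY pX pY b1 b2 b3 b4 x0 h1 h2 fr
  by_cases y0 : Y' ≤ 0
  · exact core_neg B.swap n0 hn ht tod hY hX pY pX b2 b1 b5 b6 y0 (In.pm h2) (In.pm h1) fr.swap
  · exact (fr 0 0 ⟨0, 0, by ring, by ring⟩ (Or.inr (by omega)) (Or.inr (by omega))).elim

/-- every member of the two families gives a lattice that avoids the boxes -/
theorem exists_fr (n0 : 0 < n) (ht : 3 ≤ t) (tod : t % 2 = 1) (h : Fam n t) :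
    ∃ e1 e2 f1 f2 X X' Y Y' : ℤ, Bs n e1 e2 f1 f2 ∧ X + X' = t ∧ Y + Y' = t ∧ X' % 2 = 0 ∧
      Y' % 2 = 0 ∧ (In e1 e2 f1 f2 (X - X') t ∨ In e1 e2 f1 f2 (X - X') (-t)) ∧
      (In e1 e2 f1 f2 t (Y - Y') ∨ In e1 e2 f1 f2 t (-(Y - Y'))) ∧ Fr e1 e2 f1 f2 X X' Y Y' := by
  obtain ⟨p, q, k, p0, q0, pe, qo, ⟨a, b, hab⟩, ⟨a', b', hab'⟩, h⟩ := h
  have r1 := par_mul k p
  obtain ⟨m, hm⟩ := even_rep pe
  rcases h with ⟨k0, e⟩ | ⟨k0, tq, e⟩
  · have u1 : 0 ≤ k * p := by positivity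
    have u2 : 0 ≤ k * q := by positivity
    have B : Bs n p (-q) (t + k * p) (t + k * q) := ⟨by linear_combination -e,
      ⟨a - b * k, b, by linear_combination hab⟩, ⟨-a' + b' * k, b', by linear_combination hab'⟩⟩
    have F : ∀ w w', In p (-q) (t + k * p) (t + k * q) w w' → Gap (t + k * p) (-(k * p)) w →
        -(t + k * q) < w' → w' < t + k * q → False := by
      rintro w w' ⟨i, c, a1, a2⟩ g1 g2 g3
      have g4 : w % 2 = 1 ∧ -(t + k * p) < w ∧ w < t + k * p := by unfold Gap at g1; omega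
      have d : c * n = p * w' + q * w := by rw [a1, a2, e]; ring
      have d1 := mul_lt_mul_of_pos_left g2 p0
      have d2 := mul_lt_mul_of_pos_left g3 p0
      have d3 := mul_lt_mul_of_pos_left g4.2.1 q0
      have d4 := mul_lt_mul_of_pos_left g4.2.2 q0
      have d5 := box (c := n) (z := c) (X := 1) n0 (mul_comm _ _) (by linarith) (by linarith)
      obtain rfl : c = 0 := by omega
      have : w = 2 * (i * m) := by rw [a1, hm]; ring
      omega
    by_cases ke : (k * q) % 2 = 0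
    · exact ⟨_, _, _, _, t + k * p, -(k * p), t + k * q, -(k * q), B, by ring, by ring, by omega,
        by omega, Or.inl ⟨k, 1, by ring, by ring⟩, Or.inl ⟨-k, 1, by ring, by ring⟩,
        fun w w' g1 g2 g3 => F w w' g1 g2 (by unfold Gap at g3; omega)
          (by unfold Gap at g3; omega)⟩
    · exact ⟨_, _, _, _, t + k * p, -(k * p), -(k * q), t + k * q, B, by ring, by ring, by omega,
        by omega, Or.inl ⟨k, 1, by ring, by ring⟩, Or.inr ⟨-k, 1, by ring, by ring⟩,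
        fun w w' g1 g2 g3 => F w w' g1 g2 (by unfold Gap at g3; omega)
          (by unfold Gap at g3; omega)⟩
  · have u1 : p ≤ k * p := le_mul_of_one_le_left p0.le k0
    have u2 : q ≤ k * q := le_mul_of_one_le_left q0.le k0
    have B : Bs n p (-q) (t + k * p) (k * q - t) := ⟨by linear_combination -e,
      ⟨a - b * k, b, by linear_combination hab⟩, ⟨-a' - b' * k, -b', by linear_combination hab'⟩⟩
    have F : ∀ w w', In p (-q) (t + k * p) (k * q - t) w w' → Gap (t + k * p) (-(k * p)) w →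
        -(k * q) < w' → w' < k * q → False := by
      rintro w w' ⟨i, c, a1, a2⟩ g1 g2 g3
      have g4 : w % 2 = 1 ∧ -(t + k * p) < w ∧ w < t + k * p := by unfold Gap at g1; omega
      have d : c * n = p * w' + q * w := by rw [a1, a2, e]; ring
      have d1 := mul_lt_mul_of_pos_left g2 p0
      have d2 := mul_lt_mul_of_pos_left g3 p0
      have d3 := mul_lt_mul_of_pos_left g4.2.1 q0
      have d4 := mul_lt_mul_of_pos_left g4.2.2 q0
      have d6 := mul_le_mul_of_nonneg_left tq p0.le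
      have d7 := mul_le_mul_of_nonneg_left u2 p0.le
      have d8 : 0 < q * t := by positivity
      have d5 := box (c := n) (z := c) (X := 2) n0 (mul_comm _ _) (by linarith) (by linarith)
      have c0 : c ≠ 0 := by
        rintro rfl
        have : w = 2 * (i * m) := by rw [a1, hm]; ring
        omega
      rcases (show c = 1 ∨ c = -1 by omega) with rfl | rfl
      · have i1 : i < 0 := neg_of_mul_neg_left (b := p) (by linarith [g4.2.2]) p0.le
        have := mul_le_mul_of_nonneg_right (show i ≤ -1 by omega) q0.le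
        linarith
      · have i1 : 0 < i := pos_of_mul_pos_left (b := p) (by linarith [g4.2.1]) p0.le
        have := mul_le_mul_of_nonneg_right (show 1 ≤ i by omega) q0.le
        linarith
    by_cases ke : (k * q) % 2 = 0
    · exact ⟨_, _, _, _, t + k * p, -(k * p), t - k * q, k * q, B, by ring, by ring, by omega,
        by omega, Or.inr ⟨k, 1, by ring, by ring⟩, Or.inr ⟨-k, 1, by ring, by ring⟩,
        fun w w' g1 g2 g3 => F w w' g1 g2 (by unfold Gap at g3; omega)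
          (by unfold Gap at g3; omega)⟩
    · exact ⟨_, _, _, _, t + k * p, -(k * p), k * q, t - k * q, B, by ring, by ring, by omega,
        by omega, Or.inr ⟨k, 1, by ring, by ring⟩, Or.inl ⟨-k, 1, by ring, by ring⟩,
        fun w w' g1 g2 g3 => F w w' g1 g2 (by unfold Gap at g3; omega)
          (by unfold Gap at g3; omega)⟩

end Pool.Agent.P.MP_c862d8_co
end

-- part Pool.Agent.P.MP_c862d8_co.TwoBasic
section

namespace Pool.Agent.P.MP_c862d8_co

open Finset

lemma c_two (h : ℕ) (hh : 2 ≤ h) : c h 2 = 4 * h := by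
  unfold c
  rw [min_eq_left hh]
  have : Icc 1 2 = {1, 2} := rfl
  rw [this, sum_pair (by norm_num)]
  simp; omega

/-- the signed sumset of the pair covers everything -/
def Cov {n : ℕ} (h : ℕ) (a b : ZMod n) : Prop :=
  ∀ z : ZMod n, ∃ u v : ℤ, u.natAbs + v.natAbs = h ∧ (u : ZMod n) * a + (v : ZMod n) * b = z

/-- all signed sums of the pair are distinct -/
def Inj {n : ℕ} (h : ℕ) (a b : ZMod n) : Prop :=
  ∀ u v u' v' : ℤ, u.natAbs + v.natAbs = h → u'.natAbs + v'.natAbs = h →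
    (u : ZMod n) * a + (v : ZMod n) * b = (u' : ZMod n) * a + (v' : ZMod n) * b → u = u' ∧ v = v'

lemma lin_two {n : ℕ} (a : Fin 2 → ZMod n) (l : Fin 2 → ℤ) :
    lin a l = (l 0 : ZMod n) * a 0 + (l 1 : ZMod n) * a 1 := by
  simp [lin, Fin.sum_univ_two]

lemma cov_iff {n h : ℕ} [NeZero n] (a : Fin 2 → ZMod n) :
    ((sphere 2 h).image (lin a)).card < n ↔ ¬ Cov h (a 0) (a 1) := by
  have e : ((sphere 2 h).image (lin a)).card < n ↔ (sphere 2 h).image (lin a) ≠ univ := by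
    rw [← card_lt_iff_ne_univ, ZMod.card]
  rw [e, Ne, eq_univ_iff_forall]
  refine not_congr ⟨fun H z => ?_, fun H z => ?_⟩
  · obtain ⟨l, h1, h2⟩ := mem_image.1 (H z)
    rw [mem_sphere, Fin.sum_univ_two] at h1
    exact ⟨l 0, l 1, h1, by rw [← lin_two, h2]⟩
  · obtain ⟨u, v, h1, h2⟩ := H z
    refine mem_image.2 ⟨![u, v], ?_, ?_⟩
    · rw [mem_sphere, Fin.sum_univ_two]; simpa using h1
    · rw [lin_two]; simpa using h2

lemma inj_iff {n h : ℕ} (a : Fin 2 → ZMod n) :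
    Set.InjOn (lin a) (sphere 2 h) ↔ Inj h (a 0) (a 1) := by
  constructor
  · intro H u v u' v' h1 h2 h3
    have := @H ![u, v] (by rw [mem_coe, mem_sphere, Fin.sum_univ_two]; simpa using h1) ![u', v']
      (by rw [mem_coe, mem_sphere, Fin.sum_univ_two]; simpa using h2)
      (by rw [lin_two, lin_two]; simpa using h3)
    exact ⟨by simpa using congrFun this 0, by simpa using congrFun this 1⟩
  · intro H l hl l' hl' he
    rw [mem_coe, mem_sphere, Fin.sum_univ_two] at hl hl'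
    rw [lin_two, lin_two] at he
    obtain ⟨e0, e1⟩ := H _ _ _ _ hl hl' he
    funext i
    fin_cases i
    · exact e0
    · exact e1

lemma forall_pair {n : ℕ} (P : ZMod n → ZMod n → Prop) :
    (∀ a : Fin 2 → ZMod n, Function.Injective a → P (a 0) (a 1)) ↔ ∀ a b, a ≠ b → P a b := by
  constructor
  · intro H a b hab
    refine H ![a, b] ?_
    intro i j hij
    fin_cases i <;> fin_cases j <;> simp_all [eq_comm]
  · intro H a ha
    exact H _ _ (fun e => by simpa using ha e)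

lemma nu_lt_iff_cov {n h : ℕ} (hn : 2 ≤ n) (hh : 2 ≤ h) (H : n ≤ 4 * h) :
    nu n 2 h < min n (c h 2) ↔ ∀ a b : ZMod n, a ≠ b → ¬ Cov h a b := by
  have : NeZero n := ⟨by omega⟩
  rw [c_two h hh, min_eq_left H, nu_lt_iff hn, ← forall_pair (fun a b => ¬ Cov h a b)]
  simp only [cov_iff]

lemma nu_lt_iff_inj {n h : ℕ} (hh : 2 ≤ h) (H : 4 * h ≤ n) :
    nu n 2 h < min n (c h 2) ↔ ∀ a b : ZMod n, a ≠ b → ¬ Inj h a b := by
  have : NeZero n := ⟨by omega⟩
  rw [min_eq_right (by rw [c_two h hh]; exact H), nu_lt_iff (by omega),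
    ← forall_pair (fun a b => ¬ Inj h a b)]
  refine forall_congr' fun a => forall_congr' fun _ => ?_
  rw [← inj_iff]
  refine ⟨fun h1 h2 => ?_, image_card_lt (by omega) a⟩
  rw [card_image_of_injOn h2, card_sphere 2 h (by omega)] at h1
  exact lt_irrefl _ h1

/-! ### the packing side -/

/-- no short vector in the kernel of `(i,j) ↦ i s + j t` -/
def NoShort {n : ℕ} (h : ℕ) (s t : ZMod n) : Prop :=
  ∀ i j : ℤ, i.natAbs ≤ h → j.natAbs ≤ h → (i : ZMod n) * s + (j : ZMod n) * t = 0 → i = 0 ∧ j = 0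

lemma inj_iff_noShort {n h : ℕ} (a b : ZMod n) : Inj h a b ↔ NoShort h (a + b) (a - b) := by
  constructor
  · intro H i j hi hj he
    have key : ∀ x y x' y' : ℤ, x - x' = i → y - y' = j →
        (x + y - h).natAbs + (x - y).natAbs = h → (x' + y' - h).natAbs + (x' - y').natAbs = h →
        i = 0 ∧ j = 0 := by
      intro x y x' y' e1 e2 h1 h2
      have := H _ _ _ _ h1 h2 (by
        subst e1 e2
        push_cast at he ⊢
        linear_combination he)
      omega
    rcases le_total 0 i with h1 | h1 <;> rcases le_total 0 j with h2 | h2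
    · exact key i h 0 (h - j) (by omega) (by omega) (by omega) (by omega)
    · exact key i 0 0 (-j) (by omega) (by omega) (by omega) (by omega)
    · exact key 0 j (-i) 0 (by omega) (by omega) (by omega) (by omega)
    · exact key 0 (h + j) (-i) h (by omega) (by omega) (by omega) (by omega)
  · intro H u v u' v' h1 h2 he
    obtain ⟨i, hi⟩ : ∃ i : ℤ, u - u' + (v - v') = 2 * i := ⟨(u - u' + (v - v')) / 2, by omega⟩
    have hu : u = u' + i + (u - u' - i) := by ring
    have hv : v = v' + i - (u - u' - i) := by omega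
    generalize u - u' - i = j at hu hv
    have := H i j (by omega) (by omega) (by
      subst hu hv
      push_cast at he ⊢
      linear_combination he)
    omega

lemma card_box (k : ℕ) : ((range k) ×ˢ (range k)).card = k ^ 2 := by
  rw [card_product, card_range]; ring

lemma noShort_injOn {n h : ℕ} {s t : ZMod n} (H : NoShort h s t) :
    Set.InjOn (fun p : ℕ × ℕ => (p.1 : ZMod n) * s + (p.2 : ZMod n) * t)
      ((range (h + 1)) ×ˢ (range (h + 1)) : Finset (ℕ × ℕ)) := by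
  rintro ⟨x, y⟩ hp ⟨x', y'⟩ hp' he
  simp only [coe_product, coe_range, Set.mem_prod, Set.mem_Iio] at hp hp' he
  have := H ((x : ℤ) - x') ((y : ℤ) - y') (by omega) (by omega) (by
    push_cast; linear_combination he)
  ext <;> simp only <;> omega

lemma noShort_sq_le {n h : ℕ} [NeZero n] {s t : ZMod n} (H : NoShort h s t) : (h + 1) ^ 2 ≤ n := by
  have := card_le_card_of_injOn (t := univ) _ (fun _ _ => mem_coe.2 (mem_univ _)) (noShort_injOn H)
  rwa [card_box, card_univ, ZMod.card] at this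

lemma NoShort.symm {n h : ℕ} {s t : ZMod n} (H : NoShort h s t) : NoShort h t s := by
  intro i j hi hj he
  exact (H j i hj hi (by rw [add_comm]; exact he)).symm

lemma noShort_vec {n h : ℕ} [NeZero n] {s t : ZMod n} (H : NoShort h s t)
    (hn : n < (h + 1) ^ 2 + (h + 1)) :
    ∃ c : ℤ, c.natAbs ≤ h ∧ ((h + 1 : ℕ) : ZMod n) * s + (c : ZMod n) * t = 0 := by
  classical
  by_contra hc
  push Not at hc
  have hinj : Set.InjOn (fun p : ℕ × ℕ => (p.1 : ZMod n) * s + (p.2 : ZMod n) * t)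
      ((range (h + 2)) ×ˢ (range (h + 1)) : Finset (ℕ × ℕ)) := by
    rintro ⟨x, y⟩ hp ⟨x', y'⟩ hp' he
    simp only [coe_product, coe_range, Set.mem_prod, Set.mem_Iio] at hp hp' he
    by_cases h1 : x = h + 1 ∧ x' = 0
    · exfalso
      refine hc ((y : ℤ) - y') (by omega) ?_
      obtain ⟨rfl, rfl⟩ := h1
      push_cast at he ⊢; linear_combination he
    by_cases h2 : x' = h + 1 ∧ x = 0
    · exfalso
      refine hc ((y' : ℤ) - y) (by omega) ?_
      obtain ⟨rfl, rfl⟩ := h2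
      push_cast at he ⊢; linear_combination -he
    have := H ((x : ℤ) - x') ((y : ℤ) - y') (by omega) (by omega) (by
      push_cast; linear_combination he)
    ext <;> simp only <;> omega
  have := card_le_card_of_injOn (t := univ) _ (fun _ _ => mem_coe.2 (mem_univ _)) hinj
  rw [card_product, card_range, card_range, card_univ, ZMod.card] at this
  nlinarith

end Pool.Agent.P.MP_c862d8_co
end

-- part Pool.Agent.P.MP_c862d8_co.TwoCov
section

namespace Pool.Agent.P.MP_c862d8_co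

open Finset

/-- the boundary of the box `[0,h]^2` covers all residues under `(x,y) ↦ x s + y t` -/
def CovB (n h : ℕ) (s t : ℤ) : Prop :=
  ∀ z : ℤ, ∃ x y : ℤ, 0 ≤ x ∧ x ≤ h ∧ 0 ≤ y ∧ y ≤ h ∧ (x = 0 ∨ x = h ∨ y = 0 ∨ y = h) ∧
    (n : ℤ) ∣ z - (x * s + y * t)

lemma covB_of_cov {n h : ℕ} (A B : ℤ) (H : Cov h (A : ZMod n) (B : ZMod n)) :
    CovB n h (A + B) (A - B) := by
  intro z
  obtain ⟨u, v, h1, h2⟩ := H ((z - h * A : ℤ) : ZMod n)
  obtain ⟨x, hx⟩ : ∃ x : ℤ, u + v + h = 2 * x := ⟨(u + v + h) / 2, by omega⟩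
  refine ⟨x, x - v, by omega, by omega, by omega, by omega, by omega, ?_⟩
  rw [← ZMod.intCast_zmod_eq_zero_iff_dvd]
  have hu : u = 2 * x - v - h := by omega
  subst hu
  push_cast at h2 ⊢
  linear_combination -h2

lemma CovB.symm {n h : ℕ} {s t : ℤ} (H : CovB n h s t) : CovB n h t s := by
  intro z
  obtain ⟨x, y, h1, h2, h3, h4, h5, h6⟩ := H z
  exact ⟨y, x, h3, h4, h1, h2, by omega, by rw [add_comm]; exact h6⟩

lemma CovB.scale {n h : ℕ} {s t s' : ℤ} (H : CovB n h s t) (hs : (n : ℤ) ∣ s * s' - 1) :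
    CovB n h 1 (t * s') := by
  intro z
  obtain ⟨x, y, h1, h2, h3, h4, h5, e, h6⟩ := H (z * s)
  obtain ⟨k, hk⟩ := hs
  exact ⟨x, y, h1, h2, h3, h4, h5, e * s' - k * (z - x), by
    linear_combination s' * h6 - (z - x) * hk⟩

lemma CovB.congr {n h : ℕ} {s t t' : ℤ} (H : CovB n h s t) (ht : (n : ℤ) ∣ t - t') :
    CovB n h s t' := by
  intro z
  obtain ⟨x, y, h1, h2, h3, h4, h5, e, h6⟩ := H z
  obtain ⟨k, hk⟩ := ht
  exact ⟨x, y, h1, h2, h3, h4, h5, e + y * k, by linear_combination h6 + y * hk⟩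

lemma class_count {n h d n' K : ℕ} {s t : ℤ} (hn : n = d * n') (hd : 0 < d) (_hn' : 0 < n')
    (H : CovB n h s t) (hs : (d : ℤ) ∣ s) (ht : IsCoprime (d : ℤ) t) (y0 : ℕ) (hy0 : y0 < d)
    (h0 : y0 ≠ 0) (hh : ¬ (d : ℤ) ∣ h - y0) (hK : h < y0 + d * K) :
    ((range n').image fun k : ℕ => ((y0 * t + d * k : ℤ) : ZMod n)).card = n' ∧
    ((range n').image fun k : ℕ => ((y0 * t + d * k : ℤ) : ZMod n)) ⊆
      (({0, (h : ℤ)} : Finset ℤ) ×ˢ range K).image
        fun p : ℤ × ℕ => ((p.1 * s + (y0 + d * p.2) * t : ℤ) : ZMod n) := by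
  classical
  constructor
  · rw [card_image_of_injOn, card_range]
    intro k hk k' hk' he
    simp only [coe_range, Set.mem_Iio] at hk hk' he
    rw [ZMod.intCast_eq_intCast_iff_dvd_sub] at he
    have : ((d : ℤ) * n') ∣ d * ((k' : ℤ) - k) := by
      convert he using 1
      · rw [hn]; push_cast; ring
      · ring
    have := Int.eq_zero_of_abs_lt_dvd (Int.dvd_of_mul_dvd_mul_left (by omega) this)
      (by rw [abs_lt]; omega)
    omega
  · intro z hz
    obtain ⟨k, -, rfl⟩ := mem_image.1 hz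
    obtain ⟨x, y, h1, h2, h3, h4, h5, h6⟩ := H (y0 * t + d * k)
    have hdn : (d : ℤ) ∣ n := by rw [hn]; push_cast; exact Dvd.intro _ rfl
    have h7 : (d : ℤ) ∣ (y - y0) * t := by
      obtain ⟨a, ha⟩ := hdn.trans h6
      obtain ⟨b, hb⟩ := hs
      exact ⟨k - a - x * b, by linear_combination -ha - x * hb⟩
    have h8 := ht.dvd_of_dvd_mul_right h7
    have hy1 : y ≠ 0 := by
      rintro rfl
      have := Int.eq_zero_of_abs_lt_dvd h8 (by rw [abs_lt]; omega)
      omega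
    have hy2 : y ≠ h := by rintro rfl; exact hh h8
    obtain ⟨e, he⟩ := h8
    have e0 : 0 ≤ e := by
      by_contra hneg
      have : (d : ℤ) * e ≤ d * (-1) := mul_le_mul_of_nonneg_left (by omega) (by omega)
      omega
    have eK : e < K := by
      by_contra hneg
      have : (d : ℤ) * K ≤ d * e := mul_le_mul_of_nonneg_left (by omega) (by omega)
      have : (h : ℤ) < y0 + d * K := by exact_mod_cast hK
      omega
    obtain ⟨e', rfl⟩ := Int.eq_ofNat_of_zero_le e0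
    refine mem_image.2 ⟨(x, e'), ?_, ?_⟩
    · simp only [mem_product, mem_insert, mem_singleton, mem_range]; omega
    · rw [ZMod.intCast_eq_intCast_iff_dvd_sub]
      convert h6 using 1
      have : y = y0 + d * e' := by omega
      rw [this]

lemma coprime_of_covB {n h : ℕ} {s t : ℤ} (hn : 2 * h + 2 ≤ n) (H : CovB n h s t)
    (hp : n % 2 = 1 ∨ (s % 2 = 1 ∧ t % 2 = 1)) : IsCoprime (n : ℤ) s := by
  classical
  rw [Int.isCoprime_iff_gcd_eq_one]
  set d : ℕ := Int.gcd n s with hd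
  by_contra hne
  have d1 : (d : ℤ) ∣ n := Int.gcd_dvd_left _ _
  have d2 : (d : ℤ) ∣ s := Int.gcd_dvd_right _ _
  have d0 : 0 < d := Int.gcd_pos_of_ne_zero_left _ (by omega)
  have dodd : d % 2 = 1 := by
    by_contra h2
    have h3 : (2 : ℤ) ∣ d := by omega
    have := h3.trans d1
    have := h3.trans d2
    omega
  obtain ⟨n', hn'⟩ := Int.natCast_dvd_natCast.1 d1
  have hn'0 : 0 < n' := Nat.pos_of_ne_zero (by rintro rfl; omega)
  have ht : IsCoprime (d : ℤ) t := by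
    obtain ⟨x, y, -, -, -, -, -, h6⟩ := H 1
    obtain ⟨a, ha⟩ := d1.trans h6
    obtain ⟨b, hb⟩ := d2
    exact ⟨a + x * b, y, by linear_combination -ha - x * hb⟩
  have cardle : ∀ K : ℕ, (({0, (h : ℤ)} : Finset ℤ) ×ˢ range K).card ≤ 2 * K := by
    intro K
    rw [card_product, card_range]
    exact Nat.mul_le_mul_right _ card_le_two
  have hdm := Nat.mod_add_div (h + 1) d
  have hml := Nat.mod_lt (h + 1) d0
  by_cases hdiv : (h + 1) % d = 0
  · obtain ⟨K, hK⟩ : ∃ K, h + 1 = d * K := ⟨(h + 1) / d, by omega⟩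
    obtain ⟨y0, hy0⟩ : ∃ y0, d = 2 * y0 + 1 := ⟨d / 2, by omega⟩
    have hK' : (h : ℤ) + 1 = d * K := by exact_mod_cast hK
    obtain ⟨c1, c2⟩ := class_count (K := K) hn' d0 hn'0 H d2 ht y0 (by omega) (by omega)
      (by
        intro hdv
        have : (d : ℤ) ∣ d * K - (h - y0) := (Dvd.intro _ rfl).sub hdv
        have := Int.eq_zero_of_abs_lt_dvd this (by rw [abs_lt]; omega)
        omega) (by omega)
    have c3 := card_le_card c2
    have c4 := card_image_le (s := (({0, (h : ℤ)} : Finset ℤ) ×ˢ range K))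
      (f := fun p : ℤ × ℕ => ((p.1 * s + (y0 + d * p.2) * t : ℤ) : ZMod n))
    have c5 := cardle K
    have hn2 : n' = 2 * K := by
      have : d * (2 * K) ≤ d * n' := by nlinarith
      have := Nat.le_of_mul_le_mul_left this d0
      omega
    have hn3 : n = 2 * h + 2 := by rw [hn', hn2]; nlinarith
    have hinj := card_image_iff.1 (show ((({0, (h : ℤ)} : Finset ℤ) ×ˢ range K).image
        fun p : ℤ × ℕ => ((p.1 * s + (y0 + d * p.2) * t : ℤ) : ZMod n)).card = _ by omega)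
    -- the fixed point
    obtain ⟨w, hw⟩ : ∃ w, s + t = 2 * w := ⟨(s + t) / 2, by omega⟩
    obtain ⟨x, y, h1, h2, h3, h4, h5, h6⟩ := H (h * w)
    obtain ⟨b, hb⟩ := d2
    have h7 : (d : ℤ) ∣ (y - y0) * t := by
      have hc2 : IsCoprime (d : ℤ) 2 := ⟨1, -y0, by omega⟩
      refine hc2.dvd_of_dvd_mul_left ?_
      obtain ⟨a, ha⟩ := d1.trans h6
      refine ⟨K * t - t + h * b - 2 * x * b - 2 * a, ?_⟩
      have hy0' : (d : ℤ) = 2 * y0 + 1 := by exact_mod_cast hy0
      linear_combination -2 * ha - h * hw + (h - 2 * x) * hb + t * hK' + t * hy0'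
    obtain ⟨e, he⟩ := ht.dvd_of_dvd_mul_right h7
    have e0 : 0 ≤ e := by
      by_contra hneg
      have : (d : ℤ) * e ≤ d * (-1) := mul_le_mul_of_nonneg_left (by omega) (by omega)
      omega
    have eK : e < K := by
      by_contra hneg
      have : (d : ℤ) * K ≤ d * e := mul_le_mul_of_nonneg_left (by omega) (by omega)
      omega
    have hde : 0 ≤ (d : ℤ) * e := by positivity
    have hde' : (d : ℤ) * e ≤ d * (K - 1) := mul_le_mul_of_nonneg_left (by omega) (by omega)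
    have hde'' : (d : ℤ) * (K - 1) = d * K - d := by ring
    obtain ⟨e', rfl⟩ := Int.eq_ofNat_of_zero_le e0
    have := @hinj (x, e') (by simp; omega) (h - x, K - 1 - e') (by simp; omega) (by
      simp only
      rw [ZMod.intCast_eq_intCast_iff_dvd_sub]
      have hy0' : (d : ℤ) = 2 * y0 + 1 := by exact_mod_cast hy0
      have e1 : ((K - 1 - e' : ℕ) : ℤ) = K - 1 - e' := by omega
      rw [e1]
      obtain ⟨a, ha⟩ := h6
      exact ⟨2 * a, by linear_combination 2 * ha + h * hw - t * hK' - t * hy0' + 2 * t * he⟩)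
    simp only [Prod.mk.injEq] at this
    omega
  · obtain ⟨c1, c2⟩ := class_count (K := (h + 1) / d) hn' d0 hn'0 H d2 ht ((h + 1) % d) hml hdiv
      (by
        intro hdv
        have h1 : (d : ℤ) ∣ d * ((h + 1) / d : ℕ) - (h - ((h + 1) % d : ℕ)) :=
          (Dvd.intro _ rfl).sub hdv
        have h2 : (d : ℤ) * ((h + 1) / d : ℕ) = ((d * ((h + 1) / d) : ℕ) : ℤ) := by push_cast; rfl
        have := Int.eq_zero_of_abs_lt_dvd h1 (by rw [abs_lt]; omega)
        omega) (by omega)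
    have c3 := (card_le_card c2).trans (card_image_le.trans (cardle _))
    rw [c1] at c3
    have : d * n' ≤ d * (2 * ((h + 1) / d)) := Nat.mul_le_mul_left _ c3
    have e : d * (2 * ((h + 1) / d)) = 2 * (d * ((h + 1) / d)) := by ring
    omega

end Pool.Agent.P.MP_c862d8_co
end

-- part Pool.Agent.P.MP_c862d8_co.TwoEven
section

namespace Pool.Agent.P.MP_c862d8_co

lemma pinwheel (A B x y : ℤ) (hx : 0 ≤ x) (hx' : x < A) (hy : 0 ≤ y) (hy' : y < B) :
    ∀ (N : ℕ) (i j : ℤ), max (max i (-i)) (A - 1) + max (max j (-j)) (B - 1) ≤ N →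
      ∃ a b : ℤ, -A < i + a * A - b * x ∧ i + a * A - b * x < A ∧
        -B < j + a * y + b * B ∧ j + a * y + b * B < B := by
  intro N
  induction N using Nat.strong_induction_on with
  | _ N ih =>
    intro i j hN
    have step : ∀ a0 b0 i' j' : ℤ, i' = i + a0 * A - b0 * x → j' = j + a0 * y + b0 * B →
        max (max i' (-i')) (A - 1) + max (max j' (-j')) (B - 1) < N →
        ∃ a b : ℤ, -A < i + a * A - b * x ∧ i + a * A - b * x < A ∧
          -B < j + a * y + b * B ∧ j + a * y + b * B < B := by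
      intro a0 b0 i' j' e1 e2 hlt
      obtain ⟨a, b, h⟩ := ih (N - 1) (by omega) i' j' (by omega)
      refine ⟨a + a0, b + b0, ?_⟩
      have f1 : i + (a + a0) * A - (b + b0) * x = i' + a * A - b * x := by rw [e1]; ring
      have f2 : j + (a + a0) * y + (b + b0) * B = j' + a * y + b * B := by rw [e2]; ring
      rw [f1, f2]; exact h
    by_cases h0 : -A < i ∧ i < A ∧ -B < j ∧ j < B
    · exact ⟨0, 0, by omega⟩
    by_cases h1 : A ≤ i ∧ -B < j
    · by_cases h2 : -B < j - y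
      · exact step (-1) 0 (i - A) (j - y) (by ring) (by ring) (by omega)
      · exact step (-1) 1 (i - A - x) (j - y + B) (by ring) (by ring) (by omega)
    by_cases h2 : i ≤ -A ∧ j < B
    · by_cases h2 : j + y < B
      · exact step 1 0 (i + A) (j + y) (by ring) (by ring) (by omega)
      · exact step 1 (-1) (i + A + x) (j + y - B) (by ring) (by ring) (by omega)
    by_cases h3 : B ≤ j ∧ i < A
    · by_cases h2 : i + x < A
      · exact step 0 (-1) (i + x) (j - B) (by ring) (by ring) (by omega)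
      · exact step (-1) (-1) (i + x - A) (j - B - y) (by ring) (by ring) (by omega)
    · by_cases h2 : -A < i - x
      · exact step 0 1 (i - x) (j + B) (by ring) (by ring) (by omega)
      · exact step 1 1 (i - x + A) (j + B + y) (by ring) (by ring) (by omega)

/-- a point of the nontrivial coset in the critical box -/
lemma even_box {N h t c1 c2 k1 k2 : ℤ} (hN : h + 1 ≤ N) (ht : t % 2 = 1)
    (h1 : -h ≤ c1) (h1' : c1 ≤ h) (h2 : -h ≤ c2) (h2' : c2 ≤ h)
    (p1 : c1 % 2 = h % 2) (p2 : c2 % 2 = h % 2)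
    (e1 : c1 + h * t = 2 * N * k1) (e2 : h - c2 * t = 2 * N * k2) (hk : (k1 + k2) % 2 = 1) :
    ∃ i j : ℤ, 2 * max i (-i) < 2 * N - h - max c1 (-c1) ∧
      2 * max j (-j) < 2 * N - h - max c2 (-c2) ∧ 2 * N ∣ i - t * j - N := by
  obtain ⟨x, hx⟩ : ∃ x, h - c1 = 2 * x := ⟨(h - c1) / 2, by omega⟩
  obtain ⟨y, hy⟩ : ∃ y, h - c2 = 2 * y := ⟨(h - c2) / 2, by omega⟩
  obtain ⟨m, hm⟩ : ∃ m, k1 + k2 = 2 * m + 1 := ⟨(k1 + k2) / 2, by omega⟩
  obtain ⟨t', ht'⟩ : ∃ t', t = 2 * t' + 1 := ⟨t / 2, by omega⟩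
  have hc1 : c1 = h - 2 * x := by omega
  have hc2 : c2 = h - 2 * y := by omega
  have hk2 : k2 = 2 * m + 1 - k1 := by omega
  -- two vectors of the nontrivial coset
  have w1 : (h - x) - t * (-y) - N = 2 * N * m := by
    subst hc1 hc2 hk2
    have : 2 * ((h - x) - t * (-y) - N) = 2 * (2 * N * m) := by linear_combination e1 + e2
    omega
  have w2 : x - t * (h - y) - N = 2 * N * (m - k1) := by
    subst hc1 hc2 hk2
    have : 2 * (x - t * (h - y) - N) = 2 * (2 * N * (m - k1)) := by linear_combination e2 - e1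
    omega
  by_cases s1 : c1 ≤ 0 ∧ 0 ≤ c2
  · exact ⟨h - x, -y, by omega, by omega, m, w1⟩
  by_cases s2 : c2 ≤ 0 ∧ 0 ≤ c1
  · exact ⟨x, h - y, by omega, by omega, m - k1, w2⟩
  by_cases s3 : 0 < c1
  · obtain ⟨a, b, hab⟩ := pinwheel (N - (h - x)) (N - (h - y)) x y (by omega) (by omega)
      (by omega) (by omega) _ N 0 (Int.self_le_toNat _)
    refine ⟨N + a * (N - (h - x)) - b * x, 0 + a * y + b * (N - (h - y)), by omega, by omega,
      -a * m - b * (m - k1) - b * (t' + 1), ?_⟩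
    subst ht'
    linear_combination -a * w1 - b * w2
  · obtain ⟨a, b, hab⟩ := pinwheel (N - x) (N - y) (h - x) (h - y) (by omega) (by omega)
      (by omega) (by omega) _ N 0 (Int.self_le_toNat _)
    refine ⟨N + a * (N - x) - b * (h - x), -(0 + a * (h - y) + b * (N - y)), by omega, by omega,
      -a * (m - k1) - b * m + b * t', ?_⟩
    subst ht'
    linear_combination -a * w2 - b * w1

lemma not_dvd_of_small {n a : ℤ} (h : n ∣ a) (h1 : -n < a) (h2 : a < n) : a = 0 :=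
  Int.eq_zero_of_abs_lt_dvd h (abs_lt.2 ⟨h1, h2⟩)

lemma not_covB_even_aux {n h : ℕ} {t N : ℤ} (hn : (n : ℤ) = 2 * N) (hN : (h : ℤ) + 1 ≤ N)
    (ht : t % 2 = 1) (hc : IsCoprime (n : ℤ) t) (H : CovB n h 1 t) (w f : ℤ)
    (hw : 1 + t = 2 * w) (ε : ℤ) (hf : f = h * w + N * ε)
    (x0 y0 x1 y1 : ℤ) (a1 : 0 ≤ x0) (a2 : x0 ≤ h) (a3 : y0 = 0 ∨ y0 = h)
    (a4 : (n : ℤ) ∣ f - (x0 * 1 + y0 * t))
    (b1 : 0 ≤ y1) (b2 : y1 ≤ h) (b3 : x1 = 0 ∨ x1 = h)
    (b4 : (n : ℤ) ∣ f + N - (x1 * 1 + y1 * t)) : False := by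
  rw [hn] at a4 b4 hc
  obtain ⟨t', ht'⟩ : ∃ t', t = 2 * t' + 1 := ⟨t / 2, by omega⟩
  obtain ⟨c1, k1, h1, h1', p1, e1, q1⟩ : ∃ c1 k1 : ℤ, -h ≤ c1 ∧ c1 ≤ h ∧ c1 % 2 = h % 2 ∧
      c1 + h * t = 2 * N * k1 ∧ k1 % 2 = ε % 2 := by
    obtain ⟨a, ha⟩ := a4
    rcases a3 with rfl | rfl
    · exact ⟨h - 2 * x0, 2 * a - ε, by omega, by omega, by omega,
        by subst hf; linear_combination 2 * ha + h * hw, by omega⟩
    · exact ⟨2 * x0 - h, ε - 2 * a, by omega, by omega, by omega,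
        by subst hf; linear_combination -2 * ha - h * hw, by omega⟩
  obtain ⟨c2, k2, h2, h2', p2, e2, q2⟩ : ∃ c2 k2 : ℤ, -h ≤ c2 ∧ c2 ≤ h ∧ c2 % 2 = h % 2 ∧
      h - c2 * t = 2 * N * k2 ∧ k2 % 2 = (ε + 1) % 2 := by
    obtain ⟨a, ha⟩ := b4
    rcases b3 with rfl | rfl
    · exact ⟨2 * y1 - h, 2 * a - ε - 1, by omega, by omega, by omega,
        by subst hf; linear_combination 2 * ha + h * hw, by omega⟩
    · exact ⟨h - 2 * y1, ε + 1 - 2 * a, by omega, by omega, by omega,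
        by subst hf; linear_combination -2 * ha - h * hw, by omega⟩
  obtain ⟨i, j, hi, hj, k, hk⟩ := even_box hN ht h1 h1' h2 h2' p1 p2 e1 e2 (by omega)
  obtain ⟨x, y, g1, g2, g3, g4, g5, l, hl⟩ := H (f + N + i)
  rw [hn] at hl
  obtain ⟨m1, hm1⟩ : ∃ m, k1 = ε + 2 * m := ⟨(k1 - ε) / 2, by omega⟩
  obtain ⟨m2, hm2⟩ : ∃ m, k2 = ε + 1 + 2 * m := ⟨(k2 - ε - 1) / 2, by omega⟩
  obtain ⟨u, hu⟩ : ∃ u, h + c1 = 2 * u := ⟨(h + c1) / 2, by omega⟩
  obtain ⟨v, hv⟩ : ∃ v, h + c2 = 2 * v := ⟨(h + c2) / 2, by omega⟩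
  have hc1 : c1 = 2 * u - h := by omega
  have hc2 : c2 = 2 * v - h := by omega
  subst hf hm1 hm2 hc1 hc2
  rcases g5 with rfl | rfl | rfl | rfl
  · have : 2 * N ∣ (N + j + v - y) * t := by
      refine ⟨l - k - m2 - ε + t' - 1, ?_⟩
      have : 2 * ((N + j + v - y) * t) = 2 * (2 * N * (l - k - m2 - ε + t' - 1)) := by
        linear_combination 2 * hl - 2 * hk - e2 + h * hw + 2 * N * ht'
      omega
    have h3 := hc.dvd_of_dvd_mul_right this
    by_cases h4 : j + v - y ≤ 0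
    · have := not_dvd_of_small h3 (by omega) (by omega); omega
    · have := not_dvd_of_small (h3.sub (dvd_refl _)) (by omega) (by omega); omega
  · have : 2 * N ∣ (N + j + h - v - y) * t := by
      refine ⟨l - k + m2 + t', ?_⟩
      have : 2 * ((N + j + h - v - y) * t) = 2 * (2 * N * (l - k + m2 + t')) := by
        linear_combination 2 * hl - 2 * hk + e2 + h * hw + 2 * N * ht'
      omega
    have h3 := hc.dvd_of_dvd_mul_right this
    by_cases h4 : j + h - v - y ≤ 0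
    · have := not_dvd_of_small h3 (by omega) (by omega); omega
    · have := not_dvd_of_small (h3.sub (dvd_refl _)) (by omega) (by omega); omega
  · have h3 : 2 * N ∣ N + i + h - u - x := by
      refine ⟨l - m1 - ε, ?_⟩
      have : 2 * (N + i + h - u - x) = 2 * (2 * N * (l - m1 - ε)) := by
        linear_combination 2 * hl - e1 + h * hw
      omega
    by_cases h4 : i + h - u - x ≤ 0
    · have := not_dvd_of_small h3 (by omega) (by omega); omega
    · have := not_dvd_of_small (h3.sub (dvd_refl _)) (by omega) (by omega); omega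
  · have h3 : 2 * N ∣ N + i + u - x := by
      refine ⟨l + m1, ?_⟩
      have : 2 * (N + i + u - x) = 2 * (2 * N * (l + m1)) := by
        linear_combination 2 * hl + e1 + h * hw
      omega
    by_cases h4 : i + u - x ≤ 0
    · have := not_dvd_of_small h3 (by omega) (by omega); omega
    · have := not_dvd_of_small (h3.sub (dvd_refl _)) (by omega) (by omega); omega

lemma not_covB_even_one {n h : ℕ} {t : ℤ} (hn : n % 2 = 0) (hN : 2 * h + 2 ≤ n)
    (ht : t % 2 = 1) (hc : IsCoprime (n : ℤ) t) : ¬ CovB n h 1 t := by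
  intro H
  obtain ⟨N, hN'⟩ : ∃ N : ℤ, (n : ℤ) = 2 * N := ⟨n / 2, by omega⟩
  obtain ⟨w, hw⟩ : ∃ w, 1 + t = 2 * w := ⟨(1 + t) / 2, by omega⟩
  obtain ⟨t', ht'⟩ : ∃ t', t = 2 * t' + 1 := ⟨t / 2, by omega⟩
  obtain ⟨x0, y0, a1, a2, a3, a4, a5, a6⟩ := H (h * w)
  obtain ⟨x1, y1, b1, b2, b3, b4, b5, b6⟩ := H (h * w + N)
  by_cases hP0 : y0 = 0 ∨ y0 = h <;> by_cases hP1 : y1 = 0 ∨ y1 = h
  · rw [hN'] at a6 b6
    obtain ⟨a, ha⟩ := a6
    obtain ⟨b, hb⟩ := b6
    by_cases hy : y0 = y1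
    · subst hy
      have : 2 * N ∣ N + x0 - x1 := ⟨b - a, by linear_combination hb - ha⟩
      have := not_dvd_of_small this (by omega) (by omega); omega
    · have hy' : y1 = h - y0 := by omega
      subst hy'
      have : 2 * N ∣ N + h - x0 - x1 := ⟨b + a, by linear_combination hb + ha + h * hw⟩
      have := not_dvd_of_small this (by omega) (by omega); omega
  · exact not_covB_even_aux hN' (by omega) ht hc H w (h * w) hw 0 (by ring) x0 y0 x1 y1 a1 a2 hP0
      a6 b3 b4 (by omega) b6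
  · refine not_covB_even_aux hN' (by omega) ht hc H w (h * w + N) hw 1 (by ring) x1 y1 x0 y0 b1 b2
      hP1 b6 a3 a4 (by omega) ?_
    obtain ⟨a, ha⟩ := a6
    exact ⟨a + 1, by rw [hN'] at ha ⊢; linear_combination ha⟩
  · rw [hN'] at a6 b6 hc
    obtain ⟨a, ha⟩ := a6
    obtain ⟨b, hb⟩ := b6
    by_cases hx : x0 = x1
    · subst hx
      have : 2 * N ∣ (N + y0 - y1) * t := ⟨b - a + t', by linear_combination hb - ha + N * ht'⟩
      have := not_dvd_of_small (hc.dvd_of_dvd_mul_right this) (by omega) (by omega); omega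
    · have hx' : x1 = h - x0 := by omega
      subst hx'
      have : 2 * N ∣ (N + h - y0 - y1) * t :=
        ⟨b + a + t', by linear_combination hb + ha + h * hw + N * ht'⟩
      have := not_dvd_of_small (hc.dvd_of_dvd_mul_right this) (by omega) (by omega); omega

lemma exists_inv {n s : ℤ} (hc : IsCoprime n s) : ∃ s', n ∣ s * s' - 1 ∧ IsCoprime n s' := by
  obtain ⟨a, b, hab⟩ := hc
  exact ⟨b, ⟨-a, by linear_combination hab⟩, ⟨a, s, by linear_combination hab⟩⟩

theorem not_cov_even {n h : ℕ} (hn : n % 2 = 0) (hN : 2 * h + 2 ≤ n) (a b : ZMod n) :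
    ¬ Cov h a b := by
  intro H
  obtain ⟨A, rfl⟩ := ZMod.intCast_surjective a
  obtain ⟨B, rfl⟩ := ZMod.intCast_surjective b
  have K := covB_of_cov A B H
  have hpar : (A + B) % 2 = (A - B) % 2 := by omega
  generalize A + B = s at *
  generalize A - B = t at *
  have hs : s % 2 = 1 := by
    by_contra hs
    obtain ⟨x, y, -, -, -, -, -, h6⟩ := K 1
    have h2 : (2 : ℤ) ∣ n := by omega
    have h3 := h2.trans h6
    have h4 : (2 : ℤ) ∣ x * s + y * t :=
      (Dvd.dvd.mul_left (by omega) _).add (Dvd.dvd.mul_left (by omega) _)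
    omega
  have c1 := coprime_of_covB hN K (Or.inr ⟨hs, by omega⟩)
  have c2 := coprime_of_covB hN K.symm (Or.inr ⟨by omega, hs⟩)
  obtain ⟨s', h1, h2⟩ := exists_inv c1
  have c3 := c2.mul_right h2
  refine not_covB_even_one hn hN ?_ c3 (K.scale h1)
  by_contra h4
  obtain ⟨p, q, hpq⟩ := c3
  have h5 : (2 : ℤ) ∣ p * n + q * (t * s') :=
    (Dvd.dvd.mul_left (by omega) _).add (Dvd.dvd.mul_left (by omega) _)
  omega

end Pool.Agent.P.MP_c862d8_co
end

-- part Pool.Agent.P.MP_c862d8_co.TwoOdd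
section

namespace Pool.Agent.P.MP_c862d8_co

/-- the constraint coming from covering, in centred coordinates -/
def Con (n h t C γ : ℤ) : Prop :=
  ∀ j : ℤ, ((2 * j < γ - h ∧ -(2 * j) < γ - h) ∨ (γ + h < 2 * j ∧ 2 * j < 2 * n - γ - h)) →
    ∃ i : ℤ, 2 * i ≤ h + C ∧ -(2 * i) ≤ h + C ∧ n ∣ i - t * j

lemma Con.neg {n h t C γ : ℤ} (H : Con n h t C γ) : Con n h (-t) C γ := by
  intro j hj
  obtain ⟨i, h1, h2, h3⟩ := H j hj
  exact ⟨-i, by omega, by omega, by
    obtain ⟨a, ha⟩ := h3; exact ⟨-a, by linear_combination -ha⟩⟩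

lemma Con.walk {n h t C γ : ℤ} (H : Con n h t C γ) (q r j0 i0 K : ℤ) (hK : 0 ≤ K)
    (hP : ∀ k : ℤ, 0 ≤ k → k ≤ K →
      ((2 * (j0 + q * k) < γ - h ∧ -(2 * (j0 + q * k)) < γ - h) ∨
        (γ + h < 2 * (j0 + q * k) ∧ 2 * (j0 + q * k) < 2 * n - γ - h)))
    (hr : n ∣ r - t * q) (h1 : h + C + r < n) (h2 : h + C - r < n)
    (h3 : 2 * i0 ≤ h + C) (h4 : -(2 * i0) ≤ h + C) (h5 : n ∣ i0 - t * j0) :
    2 * (i0 + K * r) ≤ h + C ∧ -(2 * (i0 + K * r)) ≤ h + C := by
  obtain ⟨K, rfl⟩ := Int.eq_ofNat_of_zero_le hK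
  induction K with
  | zero => simpa using ⟨h3, h4⟩
  | succ K ih =>
    obtain ⟨g1, g2⟩ := ih (by omega) (fun k k1 k2 => hP k k1 (by omega))
    obtain ⟨i, g3, g4, g5⟩ := H _ (hP ((K + 1 : ℕ) : ℤ) (by omega) le_rfl)
    have e : i0 + ((K + 1 : ℕ) : ℤ) * r = i0 + K * r + r := by push_cast; ring
    have g6 : n ∣ i0 + K * r + r - i := by
      obtain ⟨a, ha⟩ := hr
      obtain ⟨b, hb⟩ := h5
      obtain ⟨d, hd⟩ := g5
      refine ⟨b + (K + 1) * a - d, ?_⟩
      push_cast at hd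
      linear_combination hb + (K + 1 : ℤ) * ha - hd
    rw [e]
    generalize i0 + K * r = u at *
    have := not_dvd_of_small g6 (by omega) (by omega)
    omega

lemma con_of_covB {n h : ℕ} {t c1 c2 : ℤ} (hn : n % 2 = 1) (H : CovB n h 1 t)
    (hc : IsCoprime (n : ℤ) t) (p1 : c1 % 2 = h % 2) (p2 : c2 % 2 = h % 2)
    (g1 : -(n : ℤ) ≤ c2) (g2 : c2 ≤ n)
    (e1 : (n : ℤ) ∣ c1 + h * t) (e2 : (n : ℤ) ∣ h - t * c2) :
    Con n h t (max c1 (-c1)) (max c2 (-c2)) := by
  intro j hj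
  obtain ⟨N, hN⟩ : ∃ N : ℤ, (n : ℤ) + 1 = 2 * N := ⟨(n + 1) / 2, by omega⟩
  have hc2 : IsCoprime (n : ℤ) 2 := ⟨-1, N, by omega⟩
  obtain ⟨x, y, a1, a2, a3, a4, a5, l, hl⟩ := H (N * (h * (1 + t)) + t * j)
  obtain ⟨u, hu⟩ : ∃ u, h + c1 = 2 * u := ⟨(h + c1) / 2, by omega⟩
  obtain ⟨v, hv⟩ : ∃ v, h + c2 = 2 * v := ⟨(h + c2) / 2, by omega⟩
  obtain ⟨k1, e1⟩ := e1
  obtain ⟨k2, e2⟩ := e2
  have hc1 : c1 = 2 * u - h := by omega
  have hc2' : c2 = 2 * v - h := by omega
  subst hc1 hc2'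
  rcases a5 with rfl | rfl | rfl | rfl
  · exfalso
    have : (n : ℤ) ∣ j + v - y := by
      refine hc.dvd_of_dvd_mul_right (hc2.dvd_of_dvd_mul_left ⟨2 * l - k2 - h * (1 + t), ?_⟩)
      linear_combination 2 * hl - e2 + h * (1 + t) * hN
    by_cases h4 : j + v - y < n
    · have := not_dvd_of_small this (by omega) (by omega); omega
    · have := not_dvd_of_small (this.sub (dvd_refl _)) (by omega) (by omega); omega
  · exfalso
    have : (n : ℤ) ∣ j + h - v - y := by
      refine hc.dvd_of_dvd_mul_right (hc2.dvd_of_dvd_mul_left ⟨2 * l + k2 - h * (1 + t), ?_⟩)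
      linear_combination 2 * hl + e2 + h * (1 + t) * hN
    by_cases h4 : j + h - v - y < n
    · have := not_dvd_of_small this (by omega) (by omega); omega
    · have := not_dvd_of_small (this.sub (dvd_refl _)) (by omega) (by omega); omega
  · refine ⟨x + u - h, by omega, by omega, hc2.dvd_of_dvd_mul_left ⟨k1 - 2 * l + h * (1 + t), ?_⟩⟩
    linear_combination e1 - 2 * hl - h * (1 + t) * hN
  · refine ⟨x - u, by omega, by omega, hc2.dvd_of_dvd_mul_left ⟨-k1 - 2 * l + h * (1 + t), ?_⟩⟩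
    linear_combination -e1 - 2 * hl - h * (1 + t) * hN

/-- normal form of a covering pair when `n` is odd -/
lemma normal_form {n h : ℕ} (hn : n % 2 = 1) (hN : 2 * h + 2 ≤ n) (a b : ZMod n)
    (H : Cov h a b) : ∃ t c1 c2 : ℤ, 0 ≤ t ∧ 2 * t < n ∧ c1 % 2 = h % 2 ∧ c2 % 2 = h % 2 ∧
      -(h : ℤ) ≤ c1 ∧ c1 ≤ h ∧ -(n : ℤ) ≤ c2 ∧ c2 ≤ n ∧ (n : ℤ) ∣ c1 + h * t ∧
      (n : ℤ) ∣ h - t * c2 ∧ IsCoprime (n : ℤ) t ∧ Con n h t (max c1 (-c1)) (max c2 (-c2)) := by
  obtain ⟨A, rfl⟩ := ZMod.intCast_surjective a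
  obtain ⟨B, rfl⟩ := ZMod.intCast_surjective b
  have K := covB_of_cov A B H
  generalize A + B = s at *
  generalize A - B = t at *
  have c1 := coprime_of_covB hN K (Or.inl hn)
  have c2 := coprime_of_covB hN K.symm (Or.inl hn)
  obtain ⟨s', h1, h2⟩ := exists_inv c1
  have c3 := c2.mul_right h2
  have K1 := K.scale h1
  generalize t * s' = t at *
  clear K c1 c2 h1 h2 H
  obtain ⟨N, hN⟩ : ∃ N : ℤ, (n : ℤ) + 1 = 2 * N := ⟨(n + 1) / 2, by omega⟩
  obtain ⟨t, c1, K1, c3, p1, b1, b2, e1⟩ : ∃ t c1 : ℤ, CovB n h 1 t ∧ IsCoprime (n : ℤ) t ∧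
      c1 % 2 = h % 2 ∧ -(h : ℤ) ≤ c1 ∧ c1 ≤ h ∧ (n : ℤ) ∣ c1 + h * t := by
    obtain ⟨x, y, a1, a2, a3, a4, a5, l, hl⟩ := K1 (N * (h * (1 + t)))
    obtain ⟨t', ⟨m, hm⟩, h2⟩ := exists_inv c3
    have K2 : CovB n h 1 t' := by simpa using K1.symm.scale ⟨m, hm⟩
    rcases a5 with rfl | rfl | rfl | rfl
    · exact ⟨t', h - 2 * y, K2, h2, by omega, by omega, by omega,
        (2 * l - h * (1 + t)) * t' - (h - 2 * y) * m, by
          linear_combination 2 * t' * hl + t' * h * (1 + t) * hN - (h - 2 * y) * hm⟩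
    · exact ⟨t', 2 * y - h, K2, h2, by omega, by omega, by omega,
        -(2 * l - h * (1 + t)) * t' + (h - 2 * y) * m, by
          linear_combination -2 * t' * hl - t' * h * (1 + t) * hN + (h - 2 * y) * hm⟩
    · exact ⟨t, h - 2 * x, K1, c3, by omega, by omega, by omega,
        2 * l - h * (1 + t), by linear_combination 2 * hl + h * (1 + t) * hN⟩
    · exact ⟨t, 2 * x - h, K1, c3, by omega, by omega, by omega,
        -(2 * l - h * (1 + t)), by linear_combination -2 * hl - h * (1 + t) * hN⟩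
  obtain ⟨t', ⟨m, hm⟩, -⟩ := exists_inv c3
  have hn0 : (0 : ℤ) < n := by omega
  obtain ⟨c2, p2, d1, d2, e2⟩ : ∃ c2 : ℤ, c2 % 2 = h % 2 ∧ -(n : ℤ) ≤ c2 ∧ c2 ≤ n ∧
      (n : ℤ) ∣ h - t * c2 := by
    have f1 := Int.emod_nonneg (h * t') hn0.ne'
    have f2 := Int.emod_lt_of_pos (h * t') hn0
    have f3 := Int.emod_add_mul_ediv (h * t') n
    generalize h * t' % n = ρ at *
    generalize h * t' / n = σ at *
    by_cases hp : ρ % 2 = h % 2
    · exact ⟨ρ, hp, by omega, by omega, t * σ - h * m, by linear_combination -t * f3 - h * hm⟩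
    · exact ⟨ρ - n, by omega, by omega, by omega, t * σ - h * m + t, by
        linear_combination -t * f3 - h * hm⟩
  have f1 := Int.emod_nonneg t hn0.ne'
  have f2 := Int.emod_lt_of_pos t hn0
  have f3 := Int.emod_add_mul_ediv t n
  generalize t % n = ρ at *
  generalize t / n = σ at *
  have con := con_of_covB hn K1 c3 p1 p2 d1 d2 e1 e2
  obtain ⟨k1, e1⟩ := e1
  obtain ⟨k2, e2⟩ := e2
  obtain ⟨p, q, hpq⟩ := c3
  by_cases hp : 2 * ρ < n
  · refine ⟨ρ, c1, c2, f1, hp, p1, p2, b1, b2, d1, d2, ⟨k1 - h * σ, by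
      linear_combination e1 + h * f3⟩, ⟨k2 + σ * c2, by linear_combination e2 - c2 * f3⟩,
      ⟨p + q * σ, q, by linear_combination hpq + q * f3⟩, ?_⟩
    intro j hj
    obtain ⟨i, g1, g2, l, g3⟩ := con j hj
    exact ⟨i, g1, g2, l + σ * j, by linear_combination g3 - j * f3⟩
  · refine ⟨n - ρ, -c1, -c2, by omega, by omega, by omega, by omega, by omega, by omega, by omega,
      by omega, ⟨-k1 + h * σ + h, by linear_combination -e1 - h * f3⟩,
      ⟨k2 + σ * c2 + c2, by linear_combination e2 - c2 * f3⟩,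
      ⟨p + q * σ + q, -q, by linear_combination hpq + q * f3⟩, ?_⟩
    intro j hj
    rw [neg_neg, max_comm] at hj
    obtain ⟨i, g1, g2, l, g3⟩ := con j hj
    exact ⟨-i, by omega, by omega, -l - σ * j - j, by linear_combination -g3 + j * f3⟩

lemma dvd_cases {n a : ℤ} (h : n ∣ a) (K : ℤ) (hn : 0 < n) (h1 : -(K * n) < a) (h2 : a < K * n) :
    ∃ k : ℤ, -K < k ∧ k < K ∧ a = k * n := by
  obtain ⟨k, rfl⟩ := h
  refine ⟨k, ?_, ?_, by ring⟩
  · by_contra h3
    have : n * k ≤ n * (-K) := mul_le_mul_of_nonneg_left (by omega) hn.le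
    linarith
  · by_contra h3
    have : n * K ≤ n * k := mul_le_mul_of_nonneg_left (by omega) hn.le
    linarith

lemma Con.start {n h t C γ N : ℤ} (H : Con n h t C γ) (hN : n + 1 = 2 * N) (t0 : 0 ≤ t)
    (t1 : t < n) (hC : h + C < n) (hz : γ + h + 1 < n) :
    ∃ i, 2 * i ≤ h + C ∧ -(2 * i) ≤ h + C ∧ n ∣ i - t * N ∧ (2 * i = t ∨ 2 * i = t - n) := by
  obtain ⟨i, g1, g2, g3⟩ := H N (by omega)
  refine ⟨i, g1, g2, g3, ?_⟩
  have : n ∣ 2 * i - t := by
    obtain ⟨l, hl⟩ := g3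
    exact ⟨2 * l + t, by linear_combination 2 * hl - t * hN⟩
  obtain ⟨k, k1, k2, k3⟩ := dvd_cases this 2 (by omega) (by omega) (by omega)
  interval_cases k <;> omega

lemma core_odd {n h t c1 c2 C γ : ℤ} (hn : n % 2 = 1) (hh : h % 2 = 1) (h3 : 3 ≤ h)
    (n1 : 3 * h < n) (n2 : n ≤ 4 * h) (t0 : 0 ≤ t) (t1 : 2 * t < n) (p1 : c1 % 2 = 1)
    (p2 : c2 % 2 = 1) (b1 : -h ≤ c1) (b2 : c1 ≤ h) (d1 : -n ≤ c2) (d2 : c2 ≤ n)
    (e1 : n ∣ c1 + h * t) (e2 : n ∣ h - t * c2) (hC : C = max c1 (-c1)) (hγ : γ = max c2 (-c2))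
    (H : Con n h t C γ) : False := by
  obtain ⟨N, hN⟩ : ∃ N : ℤ, n + 1 = 2 * N := ⟨(n + 1) / 2, by omega⟩
  obtain ⟨η, hη⟩ : ∃ η : ℤ, γ - h = 2 * η := ⟨(γ - h) / 2, by omega⟩
  obtain ⟨ζ, hζ⟩ : ∃ ζ : ℤ, n - γ - h - 1 = 2 * ζ := ⟨(n - γ - h - 1) / 2, by omega⟩
  have tne : t ≠ 0 := by
    rintro rfl
    have := not_dvd_of_small e2 (by omega) (by omega); omega
  by_cases hA : h + C + t < n
  · have w0 : 1 ≤ η → 2 * ((η - 1) * t) ≤ h + C := by
      intro hz
      have := (H.walk 1 t 0 0 (η - 1) (by omega) (fun k k1 k2 => by omega) (by simp) hA (by omega)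
        (by omega) (by omega) (by simp)).1
      simpa using this
    have w1 : 1 ≤ ζ → t % 2 = 0 ∧ t + 2 * ((ζ - 1) * t) ≤ h + C := by
      intro hz
      obtain ⟨i, g1, g2, g3, g4⟩ := H.start hN t0 (by omega) (by omega) (by omega)
      have := (H.walk 1 t N i (ζ - 1) (by omega) (fun k k1 k2 => by omega) (by simp) hA (by omega)
        g1 g2 g3).1
      generalize (ζ - 1) * t = u at *
      omega
    by_cases ht6 : t ≤ 5
    · have t1' : 1 ≤ t := by omega
      obtain ⟨k, k1, k2, k3⟩ := dvd_cases e1 3 (by omega) (by nlinarith) (by nlinarith)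
      obtain ⟨l, l1, l2, l3⟩ := dvd_cases e2 6 (by omega) (by nlinarith) (by nlinarith)
      interval_cases t <;> interval_cases k <;> (try omega) <;> interval_cases l <;> omega
    · have m1 : 1 ≤ η → (η - 1) * 6 ≤ (η - 1) * t :=
        fun hz => mul_le_mul_of_nonneg_left (by omega) (by omega)
      have m2 : 1 ≤ ζ → (ζ - 1) * 6 ≤ (ζ - 1) * t :=
        fun hz => mul_le_mul_of_nonneg_left (by omega) (by omega)
      generalize (ζ - 1) * t = u at *
      generalize (η - 1) * t = v at *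
      omega
  · have hη1 : η ≤ 1 := by
      by_contra hz
      obtain ⟨i, g1, g2, g3⟩ := H 1 (by omega)
      have := not_dvd_of_small g3 (by omega) (by omega)
      omega
    obtain ⟨i, g1, g2, g3, g4⟩ := H.start hN t0 (by omega) (by omega) (by omega)
    obtain ⟨ρ, hρ⟩ : ∃ ρ, ρ = n - 2 * t := ⟨_, rfl⟩
    have w0 := (H.walk (-2) ρ N i (ζ / 2) (by omega) (fun k k1 k2 => by omega)
      ⟨1, by rw [hρ]; ring⟩ (by omega) (by omega) g1 g2 g3).1
    have w1 := (H.walk 2 (-ρ) N i ((ζ - 1) / 2) (by omega) (fun k k1 k2 => by omega)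
      ⟨-1, by rw [hρ]; ring⟩ (by omega) (by omega) g1 g2 g3).2
    have e3 : n ∣ 2 * c1 - h * ρ := by
      obtain ⟨l, hl⟩ := e1
      exact ⟨2 * l - h, by rw [hρ]; linear_combination 2 * hl⟩
    by_cases hρ5 : ρ ≤ 3
    · have : 1 ≤ ρ := by omega
      obtain ⟨k, k1, k2, k3⟩ := dvd_cases e3 2 (by omega) (by nlinarith) (by nlinarith)
      interval_cases ρ <;> interval_cases k <;> omega
    · have m1 : ζ / 2 * 5 ≤ ζ / 2 * ρ := mul_le_mul_of_nonneg_left (by omega) (by omega)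
      have m2 : (ζ - 1) / 2 * 5 ≤ (ζ - 1) / 2 * ρ :=
        mul_le_mul_of_nonneg_left (by omega) (by omega)
      have e : (ζ - 1) / 2 * -ρ = -((ζ - 1) / 2 * ρ) := by ring
      rw [e] at w1
      generalize ζ / 2 * ρ = u at *
      generalize (ζ - 1) / 2 * ρ = v at *
      omega

theorem not_cov_odd {n h : ℕ} (hn : n % 2 = 1) (hh : h % 2 = 1) (h3 : 2 ≤ h) (n1 : 3 * h < n)
    (n2 : n ≤ 4 * h) (a b : ZMod n) : ¬ Cov h a b := by
  intro H
  obtain ⟨t, c1, c2, g1, g2, g3, g4, g5, g6, g7, g8, g9, g10, -, g12⟩ :=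
    normal_form hn (by omega) a b H
  exact core_odd (by omega) (by omega) (by omega) (by omega) (by omega) g1 g2 (by omega) (by omega)
    g5 g6 g7 g8 g9 g10 rfl rfl g12

end Pool.Agent.P.MP_c862d8_co
end

-- part Pool.Agent.P.MP_c862d8_co.TwoPack
section

namespace Pool.Agent.P.MP_c862d8_co

open Finset

lemma noShort_int {n h : ℕ} (s t : ℤ) : NoShort h (s : ZMod n) (t : ZMod n) ↔
    ∀ i j : ℤ, i.natAbs ≤ h → j.natAbs ≤ h → (n : ℤ) ∣ i * s + j * t → i = 0 ∧ j = 0 := by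
  unfold NoShort
  refine forall_congr' fun i => forall_congr' fun j => ?_
  rw [← ZMod.intCast_zmod_eq_zero_iff_dvd]
  push_cast
  rfl

lemma noShort_even {n h : ℕ} (hn0 : 0 < n) (hn : n % 2 = 0) (hh : h % 2 = 1) (a b : ZMod n)
    (H : NoShort h (a + b) (a - b)) : (h + 1) ^ 2 + (h + 1) ≤ n := by
  have : NeZero n := ⟨by omega⟩
  by_contra hlt
  push Not at hlt
  obtain ⟨A, rfl⟩ := ZMod.intCast_surjective a
  obtain ⟨B, rfl⟩ := ZMod.intCast_surjective b
  have hsq := noShort_sq_le H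
  obtain ⟨c, hc, hc'⟩ := noShort_vec H hlt
  obtain ⟨d, hd, hd'⟩ := noShort_vec H.symm hlt
  rw [← Int.cast_add, ← Int.cast_sub] at H hc' hd'
  have hpar : (A + B) % 2 = (A - B) % 2 := by omega
  generalize A + B = s at *
  generalize A - B = t at *
  have hc2 : (n : ℤ) ∣ (h + 1) * s + c * t := by
    rw [← ZMod.intCast_zmod_eq_zero_iff_dvd]; push_cast at hc' ⊢; exact hc'
  have hd2 : (n : ℤ) ∣ (h + 1) * t + d * s := by
    rw [← ZMod.intCast_zmod_eq_zero_iff_dvd]; push_cast at hd' ⊢; exact hd'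
  rw [noShort_int] at H
  -- the gcd
  set g : ℕ := Int.gcd (Int.gcd s t) n with hg
  have g1 : (g : ℤ) ∣ s := (Int.gcd_dvd_left _ _).trans (Int.gcd_dvd_left _ _)
  have g2 : (g : ℤ) ∣ t := (Int.gcd_dvd_left _ _).trans (Int.gcd_dvd_right _ _)
  have g3 : (g : ℤ) ∣ n := Int.gcd_dvd_right _ _
  have g0 : 0 < g := Int.gcd_pos_of_ne_zero_right _ (by omega)
  have hg1 : g = 1 := by
    by_contra hne
    obtain ⟨s', hs'⟩ := g1
    obtain ⟨t', ht'⟩ := g2
    obtain ⟨n', hn'⟩ := Int.natCast_dvd_natCast.1 g3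
    have hn'0 : 0 < n' := Nat.pos_of_ne_zero (by rintro rfl; omega)
    have : NeZero n' := ⟨by omega⟩
    have H' : NoShort h (s' : ZMod n') (t' : ZMod n') := by
      rw [noShort_int]
      intro i j hi hj hdv
      refine H i j hi hj ?_
      rw [hs', ht', hn']
      obtain ⟨e, he⟩ := hdv
      exact ⟨e, by push_cast; linear_combination (g : ℤ) * he⟩
    have := noShort_sq_le H'
    have : 2 * n' ≤ n := by rw [hn']; exact Nat.mul_le_mul_right _ (by omega)
    nlinarith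
  have bez : ∃ x y z : ℤ, x * s + y * t + z * n = 1 := by
    have e1 := Int.gcd_eq_gcd_ab (Int.gcd s t : ℤ) n
    have e2 := Int.gcd_eq_gcd_ab s t
    rw [← hg, hg1] at e1
    generalize Int.gcdA (Int.gcd s t : ℤ) n = p at e1
    generalize Int.gcdB (Int.gcd s t : ℤ) n = q at e1
    refine ⟨Int.gcdA s t * p, Int.gcdB s t * p, q, ?_⟩
    push_cast at e1
    rw [e2] at e1
    linear_combination -e1
  obtain ⟨x, y, z, hb⟩ := bez
  obtain ⟨α, hα⟩ := hc2
  obtain ⟨β, hβ⟩ := hd2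
  obtain ⟨N, hN⟩ : ∃ N : ℤ, (n : ℤ) = 2 * N := ⟨n / 2, by omega⟩
  obtain ⟨k, hk⟩ : ∃ k : ℤ, (h : ℤ) + 1 = 2 * k := ⟨(h + 1) / 2, by omega⟩
  have hs : s % 2 = 1 := by
    by_contra hs
    obtain ⟨s', rfl⟩ : ∃ s', s = 2 * s' := ⟨s / 2, by omega⟩
    obtain ⟨t', rfl⟩ : ∃ t', t = 2 * t' := ⟨t / 2, by omega⟩
    have : 2 * (x * s' + y * t' + z * N) = 1 := by rw [hN] at hb; linear_combination hb
    omega
  have ht : t % 2 = 1 := by omega
  have hce : c % 2 = 0 := by
    obtain ⟨t', rfl⟩ : ∃ t', t = 2 * t' + 1 := ⟨t / 2, by omega⟩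
    have : c = 2 * (N * α - k * s - c * t') := by rw [hN, hk] at hα; linear_combination hα
    omega
  have hDs : ((h + 1 : ℤ) ^ 2 - c * d) * s = n * ((h + 1) * α - c * β) := by
    linear_combination (h + 1 : ℤ) * hα - c * hβ
  have hDt : ((h + 1 : ℤ) ^ 2 - c * d) * t = n * ((h + 1) * β - d * α) := by
    linear_combination (h + 1 : ℤ) * hβ - d * hα
  have hcd : |c * d| ≤ (h : ℤ) ^ 2 := by
    rw [abs_mul, sq]
    exact mul_le_mul (by rw [abs_le]; omega) (by rw [abs_le]; omega) (abs_nonneg _) (by positivity)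
  obtain ⟨e, he⟩ : (n : ℤ) ∣ (h + 1 : ℤ) ^ 2 - c * d :=
    ⟨x * ((h + 1) * α - c * β) + y * ((h + 1) * β - d * α) + z * ((h + 1 : ℤ) ^ 2 - c * d), by
      linear_combination x * hDs + y * hDt - ((h + 1 : ℤ) ^ 2 - c * d) * hb⟩
  have hsq' : ((h : ℤ) + 1) ^ 2 ≤ n := by exact_mod_cast hsq
  have hn0' : (0 : ℤ) < n := by omega
  have hh0 : (0 : ℤ) ≤ h := by omega
  rw [abs_le] at hcd
  have e1 : e = 1 := by
    have : 0 < e := by
      by_contra h0
      have : (n : ℤ) * e ≤ 0 := mul_nonpos_of_nonneg_of_nonpos hn0'.le (by omega)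
      nlinarith
    have : e < 2 := by
      by_contra h0
      have : (n : ℤ) * 2 ≤ n * e := mul_le_mul_of_nonneg_left (by omega) hn0'.le
      nlinarith
    omega
  rw [he, e1, mul_one] at hDs
  have := mul_left_cancel₀ hn0'.ne' hDs
  obtain ⟨c', rfl⟩ : ∃ c', c = 2 * c' := ⟨c / 2, by omega⟩
  have : s = 2 * (k * α - c' * β) := by rw [hk] at this; linear_combination this
  omega

lemma noShort_example {n h : ℕ} (s : ℕ) (hs : h + 1 ≤ s) (hn : h * s + h < n) :
    NoShort h ((s : ℤ) : ZMod n) ((1 : ℤ) : ZMod n) := by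
  rw [noShort_int]
  intro i j hi hj hd
  have h1 : |i * s| ≤ h * s := by
    rw [abs_mul, Nat.abs_cast]
    exact mul_le_mul_of_nonneg_right (by rw [abs_le]; omega) (by positivity)
  have hn' : (h : ℤ) * s + h < n := by exact_mod_cast hn
  rw [abs_le] at h1
  have h0 : i * s + j * 1 = 0 := Int.eq_zero_of_abs_lt_dvd hd (by rw [abs_lt]; omega)
  have hi0 : i = 0 := by
    by_contra hne
    rcases lt_or_gt_of_ne hne with h2 | h2
    · have : i * s ≤ (-1) * s := mul_le_mul_of_nonneg_right (by omega) (by positivity)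
      omega
    · have : 1 * (s : ℤ) ≤ i * s := mul_le_mul_of_nonneg_right (by omega) (by positivity)
      omega
  subst hi0
  omega

lemma exists_inj {n h : ℕ} (hh : 1 ≤ h) (s : ℕ) (hs : h + 1 ≤ s) (hn : h * s + h < n)
    (hp : s % 2 = 1 ∨ n % 2 = 1) : ∃ a b : ZMod n, a ≠ b ∧ Inj h a b := by
  obtain ⟨A, hA⟩ : ∃ A : ℤ, (n : ℤ) ∣ 2 * A - 1 - s := by
    by_cases h1 : s % 2 = 1
    · exact ⟨(s + 1) / 2, 0, by omega⟩
    · exact ⟨(s + 1 + n) / 2, 1, by omega⟩
  have hA' : (2 * A - 1 : ZMod n) = s := by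
    have := (ZMod.intCast_zmod_eq_zero_iff_dvd _ _).2 hA
    push_cast at this
    linear_combination this
  have H := noShort_example s hs hn
  refine ⟨A, A - 1, ?_, ?_⟩
  · intro e
    have := H 0 1 (by simp) (by simpa using hh) (by push_cast; linear_combination e)
    omega
  · rw [inj_iff_noShort]
    convert H using 1
    · push_cast; linear_combination hA'
    · push_cast; ring

/-- the packing side -/
theorem packing {n h : ℕ} (hh : 2 ≤ h) (H : 4 * h ≤ n) :
    nu n 2 h < min n (c h 2) ↔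
      n ≤ h ^ 2 + 2 * h ∨ (h % 2 = 1 ∧ n % 2 = 0 ∧ n ≤ h ^ 2 + 3 * h) := by
  have : NeZero n := ⟨by omega⟩
  rw [nu_lt_iff_inj hh H]
  constructor
  · intro K
    by_contra hc
    push Not at hc
    obtain ⟨h1, h2⟩ := hc
    by_cases h3 : h % 2 = 1 ∧ n % 2 = 0
    · have h4 := h2 h3.1 h3.2
      have h5 : (h ^ 2 + 3 * h) % 2 = 0 := by
        have : h ^ 2 % 2 = 1 := by rw [Nat.pow_mod, h3.1]
        omega
      obtain ⟨a, b, hab, hI⟩ := exists_inj (n := n) (h := h) (by omega) (h + 2) (by omega)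
        (by nlinarith) (by omega)
      exact K a b hab hI
    · obtain ⟨a, b, hab, hI⟩ := exists_inj (n := n) (h := h) (by omega) (h + 1) (by omega)
        (by nlinarith) (by omega)
      exact K a b hab hI
  · intro K a b _ hI
    rw [inj_iff_noShort] at hI
    rcases K with K | ⟨K1, K2, K3⟩
    · have := noShort_sq_le hI
      nlinarith
    · have := noShort_even (by omega) K2 K1 a b hI
      nlinarith

end Pool.Agent.P.MP_c862d8_co
end

-- part Pool.Agent.P.MP_c862d8_co.WinC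
section

/-! The covering criterion for two elements, `h` even and `n` odd. -/

namespace Pool.Agent.P.MP_c862d8_co

lemma cov_of_int_w {n h : ℕ} (A B : ℤ)
    (H : ∀ z : ℤ, ∃ u v : ℤ, u.natAbs + v.natAbs = h ∧ (n : ℤ) ∣ z - (u * A + v * B)) :
    Cov h (A : ZMod n) (B : ZMod n) := by
  intro z
  obtain ⟨z, rfl⟩ := ZMod.intCast_surjective z
  obtain ⟨u, v, h1, h2⟩ := H z
  refine ⟨u, v, h1, ?_⟩
  have := (ZMod.intCast_eq_intCast_iff_dvd_sub _ _ _).2 h2
  push_cast at this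
  exact this

lemma exists_rep_w {n : ℕ} (hn : 0 < n) (z lo : ℤ) : ∃ w : ℤ, lo ≤ w ∧ w < lo + n ∧ (n : ℤ) ∣ z - w := by
  have hn0 : (0 : ℤ) < n := by omega
  refine ⟨lo + (z - lo) % n, by have := Int.emod_nonneg (z - lo) hn0.ne'; omega,
    by have := Int.emod_lt_of_pos (z - lo) hn0; omega, ?_⟩
  have := Int.dvd_self_sub_emod (x := z - lo) (m := n)
  convert this using 1; ring

lemma cast_ne_w {n : ℕ} (A B : ℤ) (h1 : A < B) (h2 : B - A < n) : (A : ZMod n) ≠ B := by
  rw [Ne, ZMod.intCast_eq_intCast_iff_dvd_sub]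
  intro h
  have := not_dvd_of_small h (by omega) (by omega)
  omega

lemma cov_small_w {n h : ℕ} (hn : 2 ≤ n) (H : n ≤ 2 * h + 1) :
    ∃ a b : ZMod n, a ≠ b ∧ Cov h a b := by
  refine ⟨((0 : ℤ) : ZMod n), ((1 : ℤ) : ZMod n), cast_ne_w _ _ (by omega) (by omega),
    cov_of_int_w _ _ fun z => ?_⟩
  obtain ⟨w, h1, h2, h3⟩ := exists_rep_w (n := n) (by omega) z (-h)
  exact ⟨h - w.natAbs, w, by omega, by simpa using h3⟩

lemma cov_odd_w {n h : ℕ} (hn : 3 ≤ n) (p : n % 2 = 1) (q : h % 2 = 1) (H : n ≤ 3 * h) :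
    ∃ a b : ZMod n, a ≠ b ∧ Cov h a b := by
  refine ⟨((1 : ℤ) : ZMod n), ((3 : ℤ) : ZMod n), cast_ne_w _ _ (by omega) (by omega),
    cov_of_int_w _ _ fun z => ?_⟩
  obtain ⟨w, h1, h2, h3, h4⟩ : ∃ w : ℤ, -n ≤ w ∧ w ≤ n ∧ w % 2 = 1 ∧ (n : ℤ) ∣ z - w := by
    obtain ⟨w, h1, h2, h3⟩ := exists_rep_w (n := n) (by omega) z 0
    by_cases hw : w % 2 = 1
    · exact ⟨w, by omega, by omega, hw, h3⟩
    · exact ⟨w - n, by omega, by omega, by omega, by
        have := h3.add (dvd_refl _); rwa [show z - w + n = z - (w - n) by ring] at this⟩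
  have fin : ∀ u v : ℤ, u.natAbs + v.natAbs = h → u * 1 + v * 3 = w →
      ∃ u v : ℤ, u.natAbs + v.natAbs = h ∧ (n : ℤ) ∣ z - (u * 1 + v * 3) :=
    fun u v a b => ⟨u, v, a, by rw [b]; exact h4⟩
  clear h4
  by_cases c1 : h ≤ w
  · exact fin (h - (w - h) / 2) ((w - h) / 2) (by omega) (by omega)
  by_cases c2 : w ≤ -h
  · exact fin (-(h - (-w - h) / 2)) (-((-w - h) / 2)) (by omega) (by omega)
  by_cases c3 : (w + h) % 4 = 0
  · exact fin (-(h - (w + h) / 4)) ((w + h) / 4) (by omega) (by omega)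
  · exact fin (h - (h - w) / 4) (-((h - w) / 4)) (by omega) (by omega)

lemma gap_or {n h C : ℤ} (n0 : 0 < n) (hn : n % 2 = 1) (hC : C % 2 = 0) (w : ℤ) :
    (∃ v : ℤ, v % 2 = 0 ∧ -h ≤ v ∧ v ≤ h ∧ (n ∣ w - (C + v) ∨ n ∣ w - (-C + v))) ∨
      ∃ w0, n ∣ w - w0 ∧ Gap (n - h - C) (C - h) w0 := by
  have f1 := Int.emod_nonneg w n0.ne'
  have f2 := Int.emod_lt_of_pos w n0
  have f3 := Int.emod_add_mul_ediv w n
  generalize w % n = r at *
  generalize w / n = m at *
  have d0 : n ∣ w - r := ⟨m, by linear_combination -f3⟩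
  have d1 : n ∣ w - (r - n) := ⟨m + 1, by linear_combination -f3⟩
  by_cases p : r % 2 = 0
  · by_cases a : r < C - h
    · exact Or.inr ⟨r, d0, Or.inr (by omega)⟩
    by_cases b : C + h < r
    · exact Or.inr ⟨r - n, d1, Or.inl (by omega)⟩
    · exact Or.inl ⟨r - C, by omega, by omega, by omega, Or.inl (by rwa [add_sub_cancel])⟩
  · by_cases a : n - r < C - h
    · exact Or.inr ⟨r - n, d1, Or.inr (by omega)⟩
    by_cases b : C + h < n - r
    · exact Or.inr ⟨r, d0, Or.inl (by omega)⟩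
    · exact Or.inl ⟨r - n + C, by omega, by omega, by omega,
        Or.inr (by rwa [show -C + (r - n + C) = r - n by ring])⟩

lemma gap_not {n h C w v : ℤ} (hn : n % 2 = 1) (hC : C % 2 = 0) (C0 : 0 ≤ C) (C1 : C ≤ n)
    (g : Gap (n - h - C) (C - h) w) (pv : v % 2 = 0) (v0 : -h ≤ v) (v1 : v ≤ h)
    (d : n ∣ w - (C + v) ∨ n ∣ w - (-C + v)) : False := by
  have key : ∀ a : ℤ, n ∣ a → -(2 * n) < a → a < 2 * n → a = 0 ∨ a = n ∨ a = -n := by
    intro a ha h1 h2
    obtain ⟨k, k1, k2, rfl⟩ := dvd_cases ha 2 (by omega) h1 h2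
    rcases (show k = 0 ∨ k = 1 ∨ k = -1 by omega) with rfl | rfl | rfl <;> omega
  unfold Gap at g
  rcases d with d | d
  · have := key _ d (by omega) (by omega)
    omega
  · have := key _ d (by omega) (by omega)
    omega

lemma even_pm {n : ℤ} (n0 : 0 < n) (hn : n % 2 = 1) (r : ℤ) :
    ∃ C : ℤ, C % 2 = 0 ∧ 0 ≤ C ∧ C < n ∧ (n ∣ C - r ∨ n ∣ C + r) := by
  have f1 := Int.emod_nonneg r n0.ne'
  have f2 := Int.emod_lt_of_pos r n0
  have f3 := Int.emod_add_mul_ediv r n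
  generalize r % n = a at *
  generalize r / n = m at *
  by_cases p : a % 2 = 0
  · exact ⟨a, p, f1, f2, Or.inl ⟨-m, by linear_combination f3⟩⟩
  · exact ⟨n - a, by omega, by omega, by omega, Or.inr ⟨m + 1, by linear_combination -f3⟩⟩

lemma in_iff {n g w w' : ℤ} : In 1 g 0 n w w' ↔ n ∣ w' - g * w :=
  ⟨by rintro ⟨i, j, rfl, rfl⟩; exact ⟨j, by ring⟩,
    fun ⟨j, e⟩ => ⟨w, j, by ring, by linear_combination e⟩⟩

lemma fam_of_covB {n h : ℕ} {g : ℤ} (hn : n % 2 = 1) (hh : h % 2 = 0) (hN : 2 * h + 3 ≤ n)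
    (h0 : 0 < h) (hc : IsCoprime (n : ℤ) g) (K : CovB n h 1 g) : Fam n (n - 2 * h) := by
  have n0 : (0 : ℤ) < n := by omega
  obtain ⟨g', ⟨m, hm⟩, -⟩ := exists_inv hc
  obtain ⟨C, pC, C0, C1, eC⟩ := even_pm n0 (by omega) (h * g')
  obtain ⟨D, pD, D0, D1, eD⟩ := even_pm n0 (by omega) (h * g)
  obtain ⟨N, hN'⟩ : ∃ N : ℤ, (n : ℤ) + 1 = 2 * N := ⟨(n + 1) / 2, by omega⟩
  refine core_fam (e1 := 1) (e2 := g) (f1 := 0) (f2 := n) (X := n - h - C) (X' := C - h)
    (Y := n - h - D) (Y' := D - h) ⟨by ring, isCoprime_one_left, hc.symm⟩ n0 (by omega) (by omega)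
    (by omega) (by ring) (by ring) (by omega) (by omega) (by omega) (by omega) (by omega)
    (by omega) (by omega) (by omega) ?_ ?_ ?_
  · rcases eC with ⟨l, e⟩ | ⟨l, e⟩
    · exact Or.inl (in_iff.2 ⟨1 - g + 2 * g * l + 2 * h * m, by
        linear_combination 2 * g * e + 2 * h * hm⟩)
    · exact Or.inr (in_iff.2 ⟨-1 - g + 2 * g * l - 2 * h * m, by
        linear_combination 2 * g * e - 2 * h * hm⟩)
  · rcases eD with ⟨l, e⟩ | ⟨l, e⟩
    · exact Or.inl (in_iff.2 ⟨1 - g - 2 * l, by linear_combination -2 * e⟩)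
    · exact Or.inr (in_iff.2 ⟨-1 - g + 2 * l, by linear_combination 2 * e⟩)
  · intro w w' a g1 g2
    obtain ⟨j, a⟩ := in_iff.1 a
    obtain ⟨x, y, x0, x1, y0, y1, s, l, hl⟩ := K (N * (w' + h * (1 + g)))
    have e : w' - ((2 * x - h) + (2 * y - h) * g) = n * (2 * l - (w' + h * (1 + g))) := by
      linear_combination 2 * hl + (w' + h * (1 + g)) * hN'
    generalize 2 * l - (w' + h * (1 + g)) = r at e
    have e' : w - ((2 * x - h) * g' + (2 * y - h)) =
        n * (g' * (r - j) - m * (w - (2 * y - h))) := by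
      linear_combination g' * e - g' * a - (w - (2 * y - h)) * hm
    generalize g' * (r - j) - m * (w - (2 * y - h)) = r' at e'
    rcases s with rfl | rfl | rfl | rfl
    · refine gap_not (by omega) pC C0 C1.le g1 (v := 2 * y - h) (by omega) (by omega) (by omega) ?_
      rcases eC with ⟨u, b⟩ | ⟨u, b⟩
      · exact Or.inr ⟨r' + u, by linear_combination e' + b⟩
      · exact Or.inl ⟨r' - u, by linear_combination e' - b⟩
    · refine gap_not (by omega) pC C0 C1.le g1 (v := 2 * y - h) (by omega) (by omega) (by omega) ?_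
      rcases eC with ⟨u, b⟩ | ⟨u, b⟩
      · exact Or.inl ⟨r' - u, by linear_combination e' - b⟩
      · exact Or.inr ⟨r' + u, by linear_combination e' + b⟩
    · refine gap_not (by omega) pD D0 D1.le g2 (v := 2 * x - h) (by omega) (by omega) (by omega) ?_
      rcases eD with ⟨u, b⟩ | ⟨u, b⟩
      · exact Or.inr ⟨r + u, by linear_combination e + b⟩
      · exact Or.inl ⟨r - u, by linear_combination e - b⟩
    · refine gap_not (by omega) pD D0 D1.le g2 (v := 2 * x - h) (by omega) (by omega) (by omega) ?_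
      rcases eD with ⟨u, b⟩ | ⟨u, b⟩
      · exact Or.inl ⟨r - u, by linear_combination e - b⟩
      · exact Or.inr ⟨r + u, by linear_combination e + b⟩

lemma Bs.norm {n e1 e2 f1 f2 : ℤ} (B : Bs n e1 e2 f1 f2) :
    ∃ g : ℤ, IsCoprime n g ∧ ∀ w w', In e1 e2 f1 f2 w w' ↔ n ∣ w' - g * w := by
  obtain ⟨a, b, hab⟩ := B.c1
  obtain ⟨a', b', hab'⟩ := B.c2
  have hd := B.det
  refine ⟨a * e2 + b * f2, ⟨a' * b - b' * a + 2 * (b' * a - a' * b), a' * e1 + b' * f1, ?_⟩,
    fun w w' => ⟨?_, ?_⟩⟩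
  · linear_combination hab' + (a' * e2 + b' * f2) * hab - (b' * a - a' * b) * hd
  · rintro ⟨i, j, rfl, rfl⟩
    exact ⟨j * a - i * b, by
      linear_combination -(i * e2 + j * f2) * hab + (j * a - i * b) * hd⟩
  · rintro ⟨j, e⟩
    exact ⟨w * a - j * f1, w * b + j * e1, by linear_combination -w * hab,
      by linear_combination e - j * hd⟩

lemma covB_of_fam {n h : ℕ} (hn : n % 2 = 1) (hh : h % 2 = 0) (hN : 2 * h + 3 ≤ n)
    (F : Fam n (n - 2 * h)) : ∃ g : ℤ, IsCoprime (n : ℤ) g ∧ CovB n h 1 g := by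
  have n0 : (0 : ℤ) < n := by omega
  obtain ⟨e1, e2, f1, f2, X, X', Y, Y', B, hX, hY, pX, pY, h1, h2, fr⟩ :=
    exists_fr n0 (by omega) (by omega) F
  obtain ⟨g, hc, e⟩ := B.norm
  obtain ⟨g', ⟨m, hm⟩, -⟩ := exists_inv hc
  obtain ⟨N, hN'⟩ : ∃ N : ℤ, (n : ℤ) + 1 = 2 * N := ⟨(n + 1) / 2, by omega⟩
  have half : ∀ a b : ℤ, (n : ℤ) ∣ b → (n : ℤ) ∣ 2 * a - b → (n : ℤ) ∣ a := by
    rintro a b ⟨u, hu⟩ ⟨v, hv⟩
    exact ⟨N * (u + v) - a, by linear_combination N * hu + N * hv + a * hN'⟩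
  obtain ⟨C, rfl⟩ : ∃ C, X' = C - h := ⟨X' + h, by ring⟩
  obtain ⟨D, rfl⟩ : ∃ D, Y' = D - h := ⟨Y' + h, by ring⟩
  obtain rfl : X = n - h - C := by omega
  obtain rfl : Y = n - h - D := by omega
  have eC : (n : ℤ) ∣ g * C - h ∨ (n : ℤ) ∣ g * C + h := by
    rcases h1 with a | a
    · exact Or.inl (half _ _ ((e _ _).1 a) ⟨g - 1, by ring⟩)
    · exact Or.inr (half _ _ ((e _ _).1 a) ⟨g + 1, by ring⟩)
  have eD : (n : ℤ) ∣ D - h * g ∨ (n : ℤ) ∣ D + h * g := by
    rcases h2 with a | a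
    · exact Or.inl (half _ _ ((e _ _).1 a).neg_right ⟨1 - g, by ring⟩)
    · exact Or.inr (half _ _ ((e _ _).1 a) ⟨1 + g, by ring⟩)
  refine ⟨g, hc, fun z => ?_⟩
  have fin : ∀ u v : ℤ, u % 2 = 0 → v % 2 = 0 → -(h : ℤ) ≤ u → u ≤ h → -(h : ℤ) ≤ v → v ≤ h →
      (u = -h ∨ u = h ∨ v = -h ∨ v = h) → (n : ℤ) ∣ 2 * z - h * (1 + g) - (u + v * g) →
      ∃ x y : ℤ, 0 ≤ x ∧ x ≤ h ∧ 0 ≤ y ∧ y ≤ h ∧ (x = 0 ∨ x = h ∨ y = 0 ∨ y = h) ∧
        (n : ℤ) ∣ z - (x * 1 + y * g) := by
    intro u v pu pv u0 u1 v0 v1 s d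
    obtain ⟨x, hx⟩ : ∃ x, u = 2 * x - h := ⟨(u + h) / 2, by omega⟩
    obtain ⟨y, hy⟩ : ∃ y, v = 2 * y - h := ⟨(v + h) / 2, by omega⟩
    exact ⟨x, y, by omega, by omega, by omega, by omega, by omega,
      half _ _ d ⟨0, by rw [hx, hy]; ring⟩⟩
  generalize 2 * z - h * (1 + g) = E at fin
  rcases gap_or (h := h) (C := D) n0 (by omega) (by omega) E with ⟨u, p, u0, u1, d⟩ | ⟨w', d', g2⟩
  · rcases d with ⟨l, d⟩ | ⟨l, d⟩ <;> rcases eD with ⟨r, b⟩ | ⟨r, b⟩
    · exact fin u h p (by omega) u0 u1 (by omega) le_rfl (by omega)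
        ⟨l + r, by linear_combination d + b⟩
    · exact fin u (-h) p (by omega) u0 u1 le_rfl (by omega) (by omega)
        ⟨l + r, by linear_combination d + b⟩
    · exact fin u (-h) p (by omega) u0 u1 le_rfl (by omega) (by omega)
        ⟨l - r, by linear_combination d - b⟩
    · exact fin u h p (by omega) u0 u1 (by omega) le_rfl (by omega)
        ⟨l - r, by linear_combination d - b⟩
  rcases gap_or (h := h) (C := C) n0 (by omega) (by omega) (g' * E) with
    ⟨v, p, v0, v1, d⟩ | ⟨w, d, g1⟩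
  · rcases d with ⟨l, d⟩ | ⟨l, d⟩ <;> rcases eC with ⟨r, b⟩ | ⟨r, b⟩
    · exact fin h v (by omega) p (by omega) le_rfl v0 v1 (by omega)
        ⟨g * l + r - m * E, by linear_combination g * d + b - E * hm⟩
    · exact fin (-h) v (by omega) p le_rfl (by omega) v0 v1 (by omega)
        ⟨g * l + r - m * E, by linear_combination g * d + b - E * hm⟩
    · exact fin (-h) v (by omega) p le_rfl (by omega) v0 v1 (by omega)
        ⟨g * l - r - m * E, by linear_combination g * d - b - E * hm⟩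
    · exact fin h v (by omega) p (by omega) le_rfl v0 v1 (by omega)
        ⟨g * l - r - m * E, by linear_combination g * d - b - E * hm⟩
  · obtain ⟨l, d⟩ := d
    obtain ⟨l', d'⟩ := d'
    exact (fr w w' ((e _ _).2 ⟨g * l - l' - m * E, by
      linear_combination g * d - d' - E * hm⟩) g1 g2).elim

/-- the covering criterion -/
theorem cov_iff_fam {n h : ℕ} (hn : n % 2 = 1) (hh : h % 2 = 0) (hN : 2 * h + 3 ≤ n)
    (h0 : 0 < h) : (∃ a b : ZMod n, a ≠ b ∧ Cov h a b) ↔ Fam n (n - 2 * h) := by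
  constructor
  · rintro ⟨a, b, -, H⟩
    obtain ⟨A, rfl⟩ := ZMod.intCast_surjective a
    obtain ⟨B, rfl⟩ := ZMod.intCast_surjective b
    have K := covB_of_cov A B H
    have c1 := coprime_of_covB (by omega) K (Or.inl hn)
    have c2 := coprime_of_covB (by omega) K.symm (Or.inl hn)
    obtain ⟨s', h1, h2⟩ := exists_inv c1
    exact fam_of_covB hn hh hN h0 (c2.mul_right h2) (K.scale h1)
  · intro F
    obtain ⟨g, hc, K⟩ := covB_of_fam hn hh hN F
    obtain ⟨N, hN'⟩ : ∃ N : ℤ, (n : ℤ) + 1 = 2 * N := ⟨(n + 1) / 2, by omega⟩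
    refine ⟨((N * (1 + g) : ℤ) : ZMod n), ((N * (1 - g) : ℤ) : ZMod n), ?_,
      cov_of_int_w _ _ fun z => ?_⟩
    · rw [Ne, ZMod.intCast_eq_intCast_iff_dvd_sub]
      rintro ⟨l, hl⟩
      obtain ⟨a, b, hab⟩ := hc
      have : (n : ℤ) ∣ 1 := ⟨a - b * (l + g), by linear_combination -hab - b * hl + b * g * hN'⟩
      have := Int.le_of_dvd one_pos this
      omega
    · obtain ⟨x, y, x0, x1, y0, y1, s, l, hl⟩ := K (z + h * (N * (1 + g)))
      exact ⟨x + y - h, x - y, by omega, l - (x + y * g), by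
        linear_combination hl + (x + y * g) * hN'⟩

lemma fam_nat {n t : ℕ} (ht : 3 ≤ t) : Fam n t ↔ ∃ p q k : ℕ, p % 2 = 0 ∧ q % 2 = 1 ∧
    Nat.Coprime (p * q) t ∧ (n = 2 * k * p * q + (p + q) * t ∨
      (1 ≤ k ∧ t ≤ q ∧ n + p * t = 2 * k * p * q + q * t)) := by
  constructor
  · rintro ⟨p, q, k, p0, q0, pe, qo, c1, c2, H⟩
    lift p to ℕ using p0.le
    lift q to ℕ using q0.le
    lift k to ℕ using (by omega)
    refine ⟨p, q, k, by omega, by omega,
      Nat.Coprime.mul_left (Nat.isCoprime_iff_coprime.1 c1) (Nat.isCoprime_iff_coprime.1 c2), ?_⟩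
    rcases H with ⟨-, e⟩ | ⟨k0, tq, e⟩
    · exact Or.inl (by exact_mod_cast e)
    · refine Or.inr ⟨by omega, by omega, ?_⟩
      zify
      linear_combination e
  · rintro ⟨p, q, k, pe, qo, c, H⟩
    have c1 := Nat.isCoprime_iff_coprime.2 (Nat.Coprime.coprime_mul_right c)
    have c2 := Nat.isCoprime_iff_coprime.2 (Nat.Coprime.coprime_mul_left c)
    refine ⟨p, q, k, cop_pos c1 (by omega) (by omega), by omega, by omega, by omega, c1, c2, ?_⟩
    rcases H with e | ⟨k0, tq, e⟩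
    · exact Or.inl ⟨by omega, by exact_mod_cast e⟩
    · refine Or.inr ⟨by omega, by omega, ?_⟩
      zify at e
      linear_combination e

lemma not_fam {n t : ℤ} (ht : 3 ≤ t) (tod : t % 2 = 1) (h4 : (n - t) % 4 = 0) (h5 : n < 5 * t) :
    ¬ Fam n t := by
  rintro ⟨p, q, k, p0, q0, pe, qo, -, -, ⟨k0, e⟩ | ⟨k0, tq, e⟩⟩
  · have a : 0 ≤ 2 * k * p * q := by positivity
    have b : p + q < 5 := lt_of_mul_lt_mul_right (a := t) (by linarith) (by omega)
    obtain rfl : p = 2 := by omega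
    obtain rfl : q = 1 := by omega
    omega
  · have a : q ≤ k * q := le_mul_of_one_le_left q0.le k0
    have b : 2 * t ≤ p * (2 * (k * q) - t) := mul_le_mul (by omega) (by omega) (by omega) p0.le
    have d : 3 * t ≤ q * t := mul_le_mul_of_nonneg_right (by omega) (by omega)
    linarith

lemma fam_four {n t : ℤ} (tod : t % 2 = 1) (h8 : (n - 5 * t) % 8 = 0) (h5 : 5 * t ≤ n) :
    Fam n t := by
  refine ⟨4, 1, (n - 5 * t) / 8, by omega, by omega, by omega, by omega, ?_, isCoprime_one_left,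
    Or.inl ⟨by omega, by omega⟩⟩
  by_cases a : t % 4 = 1
  · exact ⟨-(t / 4), 1, by omega⟩
  · exact ⟨t / 4 + 1, -1, by omega⟩

theorem two_complete (n h : ℕ) (hn : 2 ≤ n) (hh : 2 ≤ h) :
    nu n 2 h < min n (c h 2) ↔
      (n % 2 = 0 ∧ h % 2 = 0 ∧ 2 * h + 2 ≤ n ∧ n ≤ h ^ 2 + 2 * h) ∨
      (n % 2 = 0 ∧ h % 2 = 1 ∧ 2 * h + 2 ≤ n ∧ n ≤ h ^ 2 + 3 * h) ∨
      (n % 2 = 1 ∧ h % 2 = 1 ∧ 3 * h < n ∧ n ≤ h ^ 2 + 2 * h) ∨
      (n % 2 = 1 ∧ h % 2 = 0 ∧ 2 * h + 3 ≤ n ∧ 5 * h < 2 * n ∧ n ≤ h ^ 2 + 2 * h) ∨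
      (n % 2 = 1 ∧ h % 4 = 0 ∧ 2 * h + 3 ≤ n ∧ 2 * n ≤ 5 * h ∧
        ¬ ∃ t p q k : ℕ, n = 2 * h + t ∧ p % 2 = 0 ∧ q % 2 = 1 ∧ Nat.Coprime (p * q) t ∧
          (n = 2 * k * p * q + (p + q) * t ∨
            (1 ≤ k ∧ t ≤ q ∧ n + p * t = 2 * k * p * q + q * t))) := by
  have hsq : 2 * h ≤ h ^ 2 := by nlinarith
  rcases le_total n (4 * h) with H | H
  swap
  · rw [packing hh H]
    generalize h ^ 2 = s at *
    constructor
    · intro K
      rw [← or_assoc, ← or_assoc, ← or_assoc]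
      exact Or.inl (by omega)
    · rintro (K | K | K | K | ⟨K1, K2, K3, K4, -⟩) <;> omega
  rw [nu_lt_iff_cov hn hh H]
  by_cases hw : h % 2 = 0 ∧ n % 2 = 1 ∧ 2 * h + 3 ≤ n
  · obtain ⟨w1, w2, w3⟩ := hw
    obtain ⟨t, rfl⟩ : ∃ t, n = 2 * h + t := ⟨n - 2 * h, by omega⟩
    have e := cov_iff_fam w2 w1 w3 (by omega)
    rw [show ((2 * h + t : ℕ) : ℤ) - 2 * h = t by omega] at e
    have e' := fam_nat (n := 2 * h + t) (t := t) (by omega)
    constructor
    · intro K
      have K' : ¬ Fam ((2 * h + t : ℕ) : ℤ) t := fun F =>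
        (e.2 F).elim fun a ⟨b, hab, hc⟩ => K a b hab hc
      by_cases w4 : 5 * h < 2 * (2 * h + t)
      · exact Or.inr (Or.inr (Or.inr (Or.inl ⟨w2, w1, w3, w4, by omega⟩)))
      refine Or.inr (Or.inr (Or.inr (Or.inr ⟨w2, ?_, w3, by omega, ?_⟩)))
      · by_contra a
        exact K' (fam_four (by omega) (by omega) (by omega))
      · rintro ⟨t', p, q, k, a, F⟩
        obtain rfl : t' = t := by omega
        exact K' (e'.2 ⟨p, q, k, F⟩)
    · rintro (K | K | K | K | K) a b hab hc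
      · omega
      · omega
      · omega
      · exact not_fam (by omega) (by omega) (by omega) (by omega) (e.1 ⟨a, b, hab, hc⟩)
      · obtain ⟨p, q, k, F⟩ := e'.1 (e.1 ⟨a, b, hab, hc⟩)
        exact K.2.2.2.2 ⟨t, p, q, k, rfl, F⟩
  constructor
  · intro K
    have k1 : 2 * h + 2 ≤ n := by
      by_contra hc
      obtain ⟨a, b, hab, hI⟩ := cov_small_w (n := n) (h := h) hn (by omega)
      exact K a b hab hI
    have k2 : n % 2 = 1 → h % 2 = 1 → 3 * h < n := by
      intro p q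
      by_contra hc
      obtain ⟨a, b, hab, hI⟩ := cov_odd_w (n := n) (h := h) (by omega) p q (by omega)
      exact K a b hab hI
    generalize h ^ 2 = s at *
    rw [← or_assoc, ← or_assoc, ← or_assoc]
    exact Or.inl (by omega)
  · rintro (K | K | K | K | K) a b -
    · exact not_cov_even K.1 K.2.2.1 a b
    · exact not_cov_even K.1 K.2.2.1 a b
    · exact not_cov_odd K.1 K.2.1 hh K.2.2.1 H a b
    · exact (hw ⟨K.2.1, K.1, K.2.2.1⟩).elim
    · exact (hw ⟨by omega, K.1, K.2.2.1⟩).elim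

end Pool.Agent.P.MP_c862d8_co
end
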